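import Mathlib

set_option autoImplicit false

namespace Pool.Agent.H572R2.AndComm

open Finset

/-- Deterministic two-party protocol trees. -/
inductive Prot (X Y : Type) : Type
  | out (b : Bool) : Prot X Y
  | alice (m : X → Bool) (p₀ p₁ : Prot X Y) : Prot X Y
  | bob (m : Y → Bool) (p₀ p₁ : Prot X Y) : Prot X Y

namespace Prot

variable {X Y : Type}

/-- The output of the protocol on `(x, y)`. -/
def run : Prot X Y → X → Y → Bool
  | out b, _, _ => b
  | alice m p₀ p₁, x, y => if m x then p₁.run x y else p₀.run x y
  | bob m p₀ p₁, x, y => if m y then p₁.run x y else p₀.run x y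

/-- The worst-case number of bits exchanged (depth of the tree). -/
def cost : Prot X Y → ℕ
  | out _ => 0
  | alice _ p₀ p₁ => 1 + max p₀.cost p₁.cost
  | bob _ p₀ p₁ => 1 + max p₀.cost p₁.cost

/-- Fooling set bound. -/
theorem fool [DecidableEq X] [DecidableEq Y] (P : Prot X Y) :
    ∀ (S : Finset (X × Y)) (z : Bool), (∀ s ∈ S, P.run s.1 s.2 = z) →
      (∀ s ∈ S, ∀ t ∈ S, s ≠ t → P.run s.1 t.2 ≠ z ∨ P.run t.1 s.2 ≠ z) →
      S.card ≤ 2 ^ P.cost := by
  induction P with
  | out b =>
    intro S z h1 h2
    simp only [cost, pow_zero]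
    rw [Finset.card_le_one]
    intro s hs t ht
    by_contra hne
    have h3 := h1 s hs
    rcases h2 s hs t ht hne with h | h
    · simp only [run] at h h3; exact h h3
    · simp only [run] at h h3; exact h h3
  | alice m p₀ p₁ ih0 ih1 =>
    intro S z h1 h2
    have e0 : (S.filter (fun s => m s.1 = false)).card ≤ 2 ^ p₀.cost := by
      apply ih0 _ z
      · intro s hs
        rw [Finset.mem_filter] at hs
        have := h1 s hs.1
        simpa [run, hs.2] using this
      · intro s hs t ht hne
        rw [Finset.mem_filter] at hs ht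
        have := h2 s hs.1 t ht.1 hne
        simpa [run, hs.2, ht.2] using this
    have e1 : (S.filter (fun s => ¬ m s.1 = false)).card ≤ 2 ^ p₁.cost := by
      apply ih1 _ z
      · intro s hs
        rw [Finset.mem_filter] at hs
        have := h1 s hs.1
        simpa [run, hs.2] using this
      · intro s hs t ht hne
        rw [Finset.mem_filter] at hs ht
        have := h2 s hs.1 t ht.1 hne
        simpa [run, hs.2, ht.2] using this
    have e2 := Finset.card_filter_add_card_filter_not (s := S) (fun s => m s.1 = false)
    have e3 : 2 ^ p₀.cost ≤ 2 ^ max p₀.cost p₁.cost :=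
      Nat.pow_le_pow_right (by norm_num) (le_max_left _ _)
    have e4 : 2 ^ p₁.cost ≤ 2 ^ max p₀.cost p₁.cost :=
      Nat.pow_le_pow_right (by norm_num) (le_max_right _ _)
    simp only [cost, pow_add, pow_one]
    omega
  | bob m p₀ p₁ ih0 ih1 =>
    intro S z h1 h2
    have e0 : (S.filter (fun s => m s.2 = false)).card ≤ 2 ^ p₀.cost := by
      apply ih0 _ z
      · intro s hs
        rw [Finset.mem_filter] at hs
        have := h1 s hs.1
        simpa [run, hs.2] using this
      · intro s hs t ht hne
        rw [Finset.mem_filter] at hs ht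
        have := h2 s hs.1 t ht.1 hne
        simpa [run, hs.2, ht.2] using this
    have e1 : (S.filter (fun s => ¬ m s.2 = false)).card ≤ 2 ^ p₁.cost := by
      apply ih1 _ z
      · intro s hs
        rw [Finset.mem_filter] at hs
        have := h1 s hs.1
        simpa [run, hs.2] using this
      · intro s hs t ht hne
        rw [Finset.mem_filter] at hs ht
        have := h2 s hs.1 t ht.1 hne
        simpa [run, hs.2, ht.2] using this
    have e2 := Finset.card_filter_add_card_filter_not (s := S) (fun s => m s.2 = false)
    have e3 : 2 ^ p₀.cost ≤ 2 ^ max p₀.cost p₁.cost :=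
      Nat.pow_le_pow_right (by norm_num) (le_max_left _ _)
    have e4 : 2 ^ p₁.cost ≤ 2 ^ max p₀.cost p₁.cost :=
      Nat.pow_le_pow_right (by norm_num) (le_max_right _ _)
    simp only [cost, pow_add, pow_one]
    omega

/-- A protocol in which Alice identifies her input from a list. -/
def full (F : X → Y → Bool) [DecidableEq X] : List X → Prot X Y
  | [] => out false
  | a :: l => alice (fun x => decide (x = a)) (full F l)
      (bob (fun y => F a y) (out false) (out true))

theorem full_run (F : X → Y → Bool) [DecidableEq X] (x : X) (y : Y) :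
    ∀ l : List X, x ∈ l → (full F l).run x y = F x y
  | [], h => by simp at h
  | a :: l, h => by
    by_cases hxa : x = a
    · subst hxa
      cases hF : F x y <;> simp [full, run, hF]
    · have hl : x ∈ l := by
        rcases List.mem_cons.mp h with h | h
        · exact absurd h hxa
        · exact h
      simp [full, run, hxa, full_run F x y l hl]

end Prot

/-- Deterministic communication complexity `D(F)`. -/
noncomputable def detCC {X Y : Type} (F : X → Y → Bool) : ℕ :=
  sInf {c | ∃ P : Prot X Y, P.cost ≤ c ∧ ∀ x y, P.run x y = F x y}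

theorem detCC_mem {X Y : Type} [Fintype X] [DecidableEq X] (F : X → Y → Bool) :
    ∃ P : Prot X Y, P.cost ≤ detCC F ∧ ∀ x y, P.run x y = F x y := by
  have hne : {c | ∃ P : Prot X Y, P.cost ≤ c ∧ ∀ x y, P.run x y = F x y}.Nonempty :=
    ⟨_, Prot.full F Finset.univ.toList, le_refl _, fun x y =>
      Prot.full_run F x y _ (by simp)⟩
  exact Nat.sInf_mem hne

/-- Public-coin randomized communication complexity `R_{1/3}(F)`. -/
def RandBy {X Y : Type} (F : X → Y → Bool) (c : ℕ) : Prop :=
  ∃ (Ω : Type) (_ : Fintype Ω) (w : Ω → ℝ) (P : Ω → Prot X Y),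
    (∀ r, 0 ≤ w r) ∧ ∑ r, w r = 1 ∧ (∀ r, (P r).cost ≤ c) ∧
    ∀ x y, (2 : ℝ) / 3 ≤ ∑ r, if (P r).run x y = F x y then w r else 0

noncomputable def randCC {X Y : Type} (F : X → Y → Bool) : ℕ := sInf {c | RandBy F c}

end Pool.Agent.H572R2.AndComm
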