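import Mathlib
import Pool.Agent.H572R2.AndComm

set_option autoImplicit false

namespace Pool.Agent.H572R2.AndComm

open Finset

/-- Number of leading ones. -/
def lead {n : ℕ} (z : Fin n → Bool) : ℕ := (univ.filter (fun i : Fin n => ∀ j ≤ i, z j = true)).card

theorem lead_le {n : ℕ} (z : Fin n → Bool) : lead z ≤ n := by
  unfold lead
  exact (Finset.card_le_univ _).trans (by simp)

theorem lead_iff {n : ℕ} (z : Fin n → Bool) (i : Fin n) :
    (∀ j ≤ i, z j = true) ↔ (i : ℕ) < lead z := by
  set S := univ.filter (fun i : Fin n => ∀ j ≤ i, z j = true) with hS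
  have hdown : ∀ i ∈ S, ∀ j ≤ i, j ∈ S := by
    intro i hi j hj
    rw [hS, mem_filter] at *
    exact ⟨mem_univ _, fun k hk => hi.2 k (hk.trans hj)⟩
  constructor
  · intro h
    have hi : i ∈ S := by rw [hS, mem_filter]; exact ⟨mem_univ _, h⟩
    have hsub : Finset.Iic i ⊆ S := fun j hj => hdown i hi j (Finset.mem_Iic.mp hj)
    have := Finset.card_le_card hsub
    rw [Fin.card_Iic] at this
    show (i : ℕ) < S.card
    omega
  · intro h
    by_contra hcon
    have hi : i ∉ S := by rw [hS, mem_filter]; exact fun hh => hcon hh.2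
    have hsub : S ⊆ Finset.Iio i := by
      intro j hj
      rw [Finset.mem_Iio]
      by_contra hle
      exact hi (hdown j hj i (not_lt.mp hle))
    have := Finset.card_le_card hsub
    rw [Fin.card_Iio] at this
    have h' : (i : ℕ) < S.card := h
    omega

theorem lead_and {n : ℕ} (x y : Fin n → Bool) :
    lead (fun i => x i && y i) = min (lead x) (lead y) := by
  have key : ∀ i : Fin n, (i : ℕ) < lead (fun i => x i && y i) ↔ (i : ℕ) < min (lead x) (lead y) := by
    intro i
    rw [← lead_iff, lt_min_iff, ← lead_iff, ← lead_iff]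
    simp only [Bool.and_eq_true]
    exact ⟨fun h => ⟨fun j hj => (h j hj).1, fun j hj => (h j hj).2⟩,
      fun h j hj => ⟨h.1 j hj, h.2 j hj⟩⟩
  have h1 := lead_le (fun i => x i && y i)
  have h2 := lead_le x
  have h3 : min (lead x) (lead y) ≤ n := (min_le_left _ _).trans h2
  rcases lt_trichotomy (lead (fun i => x i && y i)) (min (lead x) (lead y)) with h | h | h
  · exact absurd ((key ⟨_, lt_of_lt_of_le h h3⟩).mpr h) (lt_irrefl _)
  · exact h
  · exact absurd ((key ⟨_, lt_of_lt_of_le h h1⟩).mp h) (lt_irrefl _)

/-- The string with exactly `a` leading ones followed by zeros. -/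
def ones (n a : ℕ) : Fin n → Bool := fun i => decide ((i : ℕ) < a)

theorem lead_ones {n a : ℕ} (ha : a ≤ n) : lead (ones n a) = a := by
  have key : ∀ i : Fin n, (i : ℕ) < lead (ones n a) ↔ (i : ℕ) < a := by
    intro i
    rw [← lead_iff]
    simp only [ones, decide_eq_true_eq]
    exact ⟨fun h => h i le_rfl, fun h j hj => lt_of_le_of_lt (by exact_mod_cast hj) h⟩
  have h1 := lead_le (ones n a)
  rcases lt_trichotomy (lead (ones n a)) a with h | h | h
  · exact absurd ((key ⟨_, lt_of_lt_of_le h ha⟩).mpr h) (lt_irrefl _)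
  · exact h
  · exact absurd ((key ⟨_, lt_of_lt_of_le h h1⟩).mp h) (lt_irrefl _)

/-- The Boolean function: is the number of leading ones odd? -/
def fL (n : ℕ) (z : Fin n → Bool) : Bool := decide (lead z % 2 = 1)

/-- The AND-composed function. -/
def andFn {n : ℕ} (f : (Fin n → Bool) → Bool) (x y : Fin n → Bool) : Bool :=
  f (fun i => x i && y i)

theorem andFn_fL {n : ℕ} (x y : Fin n → Bool) :
    andFn (fL n) x y = decide (min (lead x) (lead y) % 2 = 1) := by
  unfold andFn fL
  rw [lead_and]

/-! ### Deterministic lower bound -/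

theorem det_lower (n : ℕ) : (n + 1) / 2 ≤ 2 ^ detCC (andFn (fL n)) := by
  obtain ⟨P, hc, hP⟩ := detCC_mem (andFn (fL n))
  have h := P.fool ((range ((n + 1) / 2)).image (fun k => (ones n (2 * k), ones n (2 * k + 1))))
    false ?_ ?_
  · rw [Finset.card_image_of_injOn] at h
    · rw [card_range] at h
      exact h.trans (Nat.pow_le_pow_right (by norm_num) hc)
    · intro a ha b hb hab
      simp only [coe_range, Set.mem_Iio] at ha hb
      simp only [Prod.mk.injEq] at hab
      have h1 := congrArg lead hab.1
      rw [lead_ones (by omega), lead_ones (by omega)] at h1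
      omega
  · intro s hs
    rw [mem_image] at hs
    obtain ⟨k, hk, rfl⟩ := hs
    rw [mem_range] at hk
    rw [hP, andFn_fL, lead_ones (by omega), lead_ones (by omega)]
    simp only [decide_eq_false_iff_not]
    rw [min_eq_left (by omega)]
    omega
  · intro s hs t ht hne
    rw [mem_image] at hs ht
    obtain ⟨k, hk, rfl⟩ := hs
    obtain ⟨l, hl, rfl⟩ := ht
    rw [mem_range] at hk hl
    have hkl : k ≠ l := by
      rintro rfl; exact hne rfl
    rw [hP, hP, andFn_fL, andFn_fL]
    simp only
    rw [lead_ones (by omega), lead_ones (by omega), lead_ones (by omega), lead_ones (by omega)]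
    rcases lt_or_gt_of_ne hkl with h | h
    · right
      rw [min_eq_right (by omega)]
      simp only [ne_eq, decide_eq_false_iff_not, not_not]
      omega
    · left
      rw [min_eq_right (by omega)]
      simp only [ne_eq, decide_eq_false_iff_not, not_not]
      omega

/-! ### Randomized upper bound -/

section rand

variable {X Y : Type} (la : X → ℕ) (lb : Y → ℕ) (K T : ℕ) (h : ℕ → Fin T → Bool)

/-- `T` hash bits of the two prefixes of length `j` are compared one by one. -/
def eqTest (j : ℕ) (yes no : Prot X Y) : List (Fin T) → Prot X Y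
  | [] => yes
  | u :: us => Prot.alice (fun x => h (la x / 2 ^ (K - j)) u)
      (Prot.bob (fun y => h (lb y / 2 ^ (K - j)) u) (eqTest j yes no us) no)
      (Prot.bob (fun y => h (lb y / 2 ^ (K - j)) u) no (eqTest j yes no us))

theorem eqTest_cost (j : ℕ) (yes no : Prot X Y) : ∀ us : List (Fin T),
    (eqTest la lb K T h j yes no us).cost ≤ 2 * us.length + max yes.cost no.cost
  | [] => by simp [eqTest]
  | u :: us => by
    have := eqTest_cost j yes no us
    simp only [eqTest, Prot.cost, List.length_cons]
    omega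

theorem eqTest_run (j : ℕ) (yes no : Prot X Y) (x : X) (y : Y) : ∀ us : List (Fin T),
    (eqTest la lb K T h j yes no us).run x y =
      if ∀ u ∈ us, h (la x / 2 ^ (K - j)) u = h (lb y / 2 ^ (K - j)) u then yes.run x y
      else no.run x y
  | [] => by simp [eqTest]
  | u :: us => by
    have := eqTest_run j yes no x y us
    simp only [eqTest, Prot.run, this, List.mem_cons, forall_eq_or_imp]
    cases h (la x / 2 ^ (K - j)) u <;> cases h (lb y / 2 ^ (K - j)) u <;> simp

/-- The last stage: compare the next bits, the owner of the smaller number announces its parity. -/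
def fin (lo : ℕ) : Prot X Y :=
  Prot.alice (fun x => decide (la x / 2 ^ (K - lo - 1) % 2 = 1))
    (Prot.alice (fun x => decide (la x % 2 = 1)) (Prot.out false) (Prot.out true))
    (Prot.bob (fun y => decide (lb y % 2 = 1)) (Prot.out false) (Prot.out true))

theorem fin_cost (lo : ℕ) : (fin la lb K lo).cost = 2 := by
  simp [fin, Prot.cost]

/-- Binary search for the longest common prefix. -/
def search : ℕ → ℕ → Prot X Y
  | 0, lo => fin la lb K lo
  | s + 1, lo => eqTest la lb K T h (lo + 2 ^ s) (search s (lo + 2 ^ s)) (search s lo)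
      (List.finRange T)

theorem search_cost : ∀ s lo : ℕ, (search la lb K T h s lo).cost ≤ 2 * T * s + 2
  | 0, lo => by simp [search, fin_cost]
  | s + 1, lo => by
    have h1 := search_cost s (lo + 2 ^ s)
    have h2 := search_cost s lo
    have h3 := eqTest_cost la lb K T h (lo + 2 ^ s) (search la lb K T h s (lo + 2 ^ s))
      (search la lb K T h s lo) (List.finRange T)
    rw [List.length_finRange] at h3
    simp only [search]
    have h4 : max (search la lb K T h s (lo + 2 ^ s)).cost (search la lb K T h s lo).cost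
        ≤ 2 * T * s + 2 := max_le h1 h2
    calc _ ≤ _ := h3
      _ ≤ 2 * T + (2 * T * s + 2) := by omega
      _ = 2 * T * (s + 1) + 2 := by ring

theorem fin_run (x : X) (y : Y) (lo : ℕ) (hlo : lo + 1 ≤ K)
    (h1 : la x / 2 ^ (K - lo) = lb y / 2 ^ (K - lo))
    (h2 : lo + 1 = K ∨ la x / 2 ^ (K - (lo + 1)) ≠ lb y / 2 ^ (K - (lo + 1))) :
    (fin la lb K lo).run x y = decide (min (la x) (lb y) % 2 = 1) := by
  obtain ⟨m, hm⟩ : ∃ m, K - lo = m + 1 := ⟨K - lo - 1, by omega⟩
  have hm' : K - (lo + 1) = m := by omega
  have hm'' : K - lo - 1 = m := by omega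
  rw [hm, pow_succ, ← Nat.div_div_eq_div_mul, ← Nat.div_div_eq_div_mul] at h1
  rw [hm'] at h2
  simp only [fin, Prot.run, hm'']
  have hmin : (la x / 2 ^ m % 2 = 1 → lb y ≤ la x) ∧ (¬ la x / 2 ^ m % 2 = 1 → la x ≤ lb y) := by
    constructor
    · intro ha
      have h3 : lb y / 2 ^ m ≤ la x / 2 ^ m := by omega
      rcases h3.lt_or_eq with h4 | h4
      · by_contra hcon
        push Not at hcon
        exact absurd (Nat.div_le_div_right (c := 2 ^ m) hcon.le) (by omega)
      · rcases h2 with h2 | h2
        · have : m = 0 := by omega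
          subst this
          simp at h4
          omega
        · exact absurd h4.symm h2
    · intro ha
      have h3 : la x / 2 ^ m ≤ lb y / 2 ^ m := by omega
      rcases h3.lt_or_eq with h4 | h4
      · by_contra hcon
        push Not at hcon
        exact absurd (Nat.div_le_div_right (c := 2 ^ m) hcon.le) (by omega)
      · rcases h2 with h2 | h2
        · have : m = 0 := by omega
          subst this
          simp at h4
          omega
        · exact absurd h4 h2
  by_cases ha : la x / 2 ^ m % 2 = 1
  · have := hmin.1 ha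
    rw [min_eq_right this]
    by_cases hb : lb y % 2 = 1 <;> simp [ha, hb]
  · have := hmin.2 ha
    rw [min_eq_left this]
    by_cases hb : la x % 2 = 1 <;> simp [ha, hb]

theorem search_run (x : X) (y : Y)
    (good : ∀ j ≤ K, la x / 2 ^ (K - j) ≠ lb y / 2 ^ (K - j) →
      h (la x / 2 ^ (K - j)) ≠ h (lb y / 2 ^ (K - j))) :
    ∀ s lo : ℕ, lo + 2 ^ s ≤ K → la x / 2 ^ (K - lo) = lb y / 2 ^ (K - lo) →
      (lo + 2 ^ s = K ∨ la x / 2 ^ (K - (lo + 2 ^ s)) ≠ lb y / 2 ^ (K - (lo + 2 ^ s))) →
      (search la lb K T h s lo).run x y = decide (min (la x) (lb y) % 2 = 1)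
  | 0, lo => by
    intro h0 h1 h2
    simp only [pow_zero] at h0 h2
    exact fin_run la lb K x y lo h0 h1 h2
  | s + 1, lo => by
    intro h0 h1 h2
    simp only [search]
    rw [eqTest_run]
    have hp : 2 ^ (s + 1) = 2 ^ s + 2 ^ s := by ring
    rw [hp] at h0 h2
    have hpos : 0 < 2 ^ s := by positivity
    split_ifs with hall
    · have heq : la x / 2 ^ (K - (lo + 2 ^ s)) = lb y / 2 ^ (K - (lo + 2 ^ s)) := by
        by_contra hne
        apply good (lo + 2 ^ s) (by omega) hne
        funext u
        exact hall u (List.mem_finRange u)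
      apply search_run x y good s (lo + 2 ^ s) (by omega) heq
      rw [add_assoc]
      exact h2
    · have hne : la x / 2 ^ (K - (lo + 2 ^ s)) ≠ lb y / 2 ^ (K - (lo + 2 ^ s)) := by
        intro heq
        apply hall
        intro u _
        rw [heq]
      exact search_run x y good s lo (by omega) h1 (Or.inr hne)

end rand

end Pool.Agent.H572R2.AndComm
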