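import Mathlib
import Pool.Agent.H572R2.AndLead

set_option autoImplicit false

namespace Pool.Agent.H572R2.AndComm

open Finset

theorem card_coll {V C : Type} [Fintype V] [DecidableEq V] [Fintype C] [DecidableEq C] (v w : V)
    (hvw : v ≠ w) :
    (univ.filter (fun h : V → C => h v = h w)).card * Fintype.card C = Fintype.card (V → C) := by
  classical
  rw [← Finset.card_univ (α := C), ← Finset.card_product, ← Finset.card_univ (α := V → C)]
  refine Finset.card_bij' (fun g _ => Function.update g.1 v g.2)
    (fun h _ => (Function.update h v (h w), h v)) ?_ ?_ ?_ ?_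
  · intro a _
    exact mem_univ _
  · intro a _
    simp [Function.update_of_ne hvw.symm]
  · intro a ha
    simp only [mem_product, mem_filter, mem_univ, true_and, and_true] at ha
    ext1
    · funext z
      by_cases hz : z = v
      · subst hz
        simp [Function.update_of_ne hvw.symm, ha]
      · simp [Function.update_of_ne hz]
    · simp
  · intro a _
    funext z
    by_cases hz : z = v
    · subst hz
      simp
    · simp [Function.update_of_ne hz]

theorem rand_upper (L : ℕ) (hL : 2 ≤ L) :
    RandBy (andFn (fL (2 ^ 2 ^ L - 1))) (4 * L ^ 2 + 2) := by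
  classical
  set K := 2 ^ L with hK
  set T := 2 * L with hT
  set n := 2 ^ K - 1 with hn
  have hKpos : 0 < 2 ^ K := by positivity
  have hlt : ∀ x : Fin n → Bool, lead x < 2 ^ K := fun x => by
    have := lead_le x
    omega
  set N : ℝ := (Fintype.card (Fin (2 ^ K) → (Fin T → Bool)) : ℝ) with hN
  have hNpos : 0 < N := by
    rw [hN]; exact_mod_cast Fintype.card_pos
  let ext : (Fin (2 ^ K) → (Fin T → Bool)) → ℕ → Fin T → Bool :=
    fun h v => if hv : v < 2 ^ K then h ⟨v, hv⟩ else fun _ => false
  refine ⟨Fin (2 ^ K) → (Fin T → Bool), inferInstance, fun _ => 1 / N,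
    fun h => search lead lead K T (ext h) L 0, fun _ => by positivity, ?_, ?_, ?_⟩
  · rw [Finset.sum_const, Finset.card_univ, nsmul_eq_mul, ← hN]
    field_simp
  · intro h
    refine (search_cost lead lead K T (ext h) L 0).trans ?_
    rw [hT]
    apply le_of_eq
    ring
  · intro x y
    rw [← Finset.sum_filter, Finset.sum_const, nsmul_eq_mul]
    -- the bad set
    set pa : ℕ → Fin (2 ^ K) := fun j => ⟨lead x / 2 ^ (K - j),
      lt_of_le_of_lt (Nat.div_le_self _ _) (hlt x)⟩ with hpa
    set pb : ℕ → Fin (2 ^ K) := fun j => ⟨lead y / 2 ^ (K - j),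
      lt_of_le_of_lt (Nat.div_le_self _ _) (hlt y)⟩ with hpb
    set bad : Finset (Fin (2 ^ K) → (Fin T → Bool)) :=
      ((range (K + 1)).filter (fun j => pa j ≠ pb j)).biUnion
        (fun j => univ.filter (fun h => h (pa j) = h (pb j))) with hbad
    have hgood : ∀ h : Fin (2 ^ K) → (Fin T → Bool), h ∉ bad →
        (search lead lead K T (ext h) L 0).run x y = andFn (fL n) x y := by
      intro h hh
      rw [andFn_fL]
      apply search_run lead lead K T (ext h) x y
      · intro j hj hne heq
        apply hh
        rw [hbad, mem_biUnion]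
        refine ⟨j, ?_, ?_⟩
        · rw [mem_filter, mem_range]
          refine ⟨by omega, fun hc => hne ?_⟩
          rw [hpa, hpb] at hc
          exact Fin.mk.inj_iff.mp hc
        · rw [mem_filter]
          refine ⟨mem_univ _, ?_⟩
          have h1 : ext h (lead x / 2 ^ (K - j)) = h (pa j) := by
            simp only [ext]
            rw [dif_pos]
          have h2 : ext h (lead y / 2 ^ (K - j)) = h (pb j) := by
            simp only [ext]
            rw [dif_pos]
          rw [← h1, ← h2]
          exact heq
      · rw [zero_add]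
      · simp only [Nat.sub_zero]
        rw [Nat.div_eq_of_lt (hlt x), Nat.div_eq_of_lt (hlt y)]
      · left; rw [zero_add]
    have hsub : univ \ bad ⊆ univ.filter (fun h : Fin (2 ^ K) → (Fin T → Bool) =>
        (search lead lead K T (ext h) L 0).run x y = andFn (fL n) x y) := by
      intro h hh
      rw [mem_sdiff] at hh
      rw [mem_filter]
      exact ⟨mem_univ _, hgood h hh.2⟩
    have hcard := Finset.card_le_card hsub
    have hbadcard : (bad.card : ℝ) * 2 ^ T ≤ (K + 1) * N := by
      have h1 : bad.card ≤ ∑ j ∈ (range (K + 1)).filter (fun j => pa j ≠ pb j),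
          (univ.filter (fun h : Fin (2 ^ K) → (Fin T → Bool) => h (pa j) = h (pb j))).card :=
        Finset.card_biUnion_le
      have h2 : ∀ j ∈ (range (K + 1)).filter (fun j => pa j ≠ pb j),
          (univ.filter (fun h : Fin (2 ^ K) → (Fin T → Bool) => h (pa j) = h (pb j))).card
            * 2 ^ T = Fintype.card (Fin (2 ^ K) → (Fin T → Bool)) := by
        intro j hj
        rw [mem_filter] at hj
        have := card_coll (C := Fin T → Bool) (pa j) (pb j) hj.2
        rw [← this]
        congr 1
        simp
      have h3 : bad.card * 2 ^ T ≤ (K + 1) * Fintype.card (Fin (2 ^ K) → (Fin T → Bool)) := by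
        calc bad.card * 2 ^ T ≤ (∑ j ∈ (range (K + 1)).filter (fun j => pa j ≠ pb j),
          (univ.filter (fun h : Fin (2 ^ K) → (Fin T → Bool) => h (pa j) = h (pb j))).card)
            * 2 ^ T := Nat.mul_le_mul_right _ h1
          _ = ∑ j ∈ (range (K + 1)).filter (fun j => pa j ≠ pb j),
              Fintype.card (Fin (2 ^ K) → (Fin T → Bool)) := by
              rw [Finset.sum_mul]
              exact Finset.sum_congr rfl h2
          _ = ((range (K + 1)).filter (fun j => pa j ≠ pb j)).card
              * Fintype.card (Fin (2 ^ K) → (Fin T → Bool)) := by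
              rw [Finset.sum_const, smul_eq_mul]
          _ ≤ _ := by
              apply Nat.mul_le_mul_right
              exact (Finset.card_filter_le _ _).trans (by simp)
      rw [hN]
      exact_mod_cast h3
    have hcard2 : N - bad.card ≤ ((univ.filter (fun h : Fin (2 ^ K) → (Fin T → Bool) =>
        (search lead lead K T (ext h) L 0).run x y = andFn (fL n) x y)).card : ℝ) := by
      rw [Finset.card_sdiff_of_subset (subset_univ _), Finset.card_univ] at hcard
      have : (Fintype.card (Fin (2 ^ K) → (Fin T → Bool)) : ℝ) - bad.card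
          ≤ ((Fintype.card (Fin (2 ^ K) → (Fin T → Bool)) - bad.card : ℕ) : ℝ) := by
        rw [Nat.cast_sub (Finset.card_le_univ _)]
      calc N - bad.card ≤ _ := this
        _ ≤ _ := by exact_mod_cast hcard
    have hfrac : (bad.card : ℝ) ≤ N / 3 := by
      have hKT : ((K : ℝ) + 1) * 3 ≤ 2 ^ T := by
        have h4 : (4 : ℝ) ≤ K := by
          have : 2 ^ 2 ≤ 2 ^ L := Nat.pow_le_pow_right (by norm_num) hL
          rw [hK]
          exact_mod_cast this
        have h5 : (2 : ℝ) ^ T = K * K := by
          rw [hT, hK]; push_cast; rw [pow_mul']; ring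
        rw [h5]
        nlinarith
      have h6 : (0 : ℝ) < 2 ^ T := by positivity
      have h7 : (bad.card : ℝ) * 2 ^ T ≤ N / 3 * 2 ^ T := by
        calc (bad.card : ℝ) * 2 ^ T ≤ (K + 1) * N := hbadcard
          _ = ((K + 1) * 3) * (N / 3) := by ring
          _ ≤ 2 ^ T * (N / 3) := by
              apply mul_le_mul_of_nonneg_right hKT
              positivity
          _ = _ := by ring
      exact le_of_mul_le_mul_right h7 h6
    rw [mul_one_div, le_div_iff₀ hNpos]
    linarith

end Pool.Agent.H572R2.AndComm
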