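import Mathlib
import Pool.Agent.H572R2.AndRand

set_option autoImplicit false

namespace Pool.Agent.H572R2.AndComm

open Finset

/-- A two-party quantum protocol with prior entanglement in Yao's model with a one-qubit
channel.  `A`, `B` are (finite) bases of the private registers of Alice and Bob, `init` is the
shared entangled state, the channel qubit is initially `|0⟩`.  In turn `k = 0, 1, 2, ...` the
channel qubit is held by Alice if `k` is even and by Bob if `k` is odd; the holder applies a
unitary (depending on the own input) to the own register and the channel qubit.  Between two turns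
the channel qubit is sent to the other party, so turns `0, ..., q` exchange `q` qubits. -/
structure QProt (X Y : Type) where
  A : Type
  B : Type
  [fA : Fintype A]
  [dA : DecidableEq A]
  [fB : Fintype B]
  [dB : DecidableEq B]
  init : A → B → ℂ
  norm_init : ∑ a, ∑ b, ‖init a b‖ ^ 2 = 1
  UA : ℕ → X → Matrix (A × Bool) (A × Bool) ℂ
  UB : ℕ → Y → Matrix (B × Bool) (B × Bool) ℂ
  unitA : ∀ k x, UA k x ∈ Matrix.unitaryGroup (A × Bool) ℂ
  unitB : ∀ k y, UB k y ∈ Matrix.unitaryGroup (B × Bool) ℂ

attribute [instance] QProt.fA QProt.dA QProt.fB QProt.dB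

namespace QProt

variable {X Y : Type} (P : QProt X Y)

/-- The joint state after `k` turns: amplitude of `|a⟩|c⟩|b⟩`. -/
noncomputable def state (x : X) (y : Y) : ℕ → P.A → Bool → P.B → ℂ
  | 0 => fun a c b => if c then 0 else P.init a b
  | k + 1 =>
    if k % 2 = 0 then
      fun a c b => ∑ s : P.A × Bool, P.UA k x (a, c) s * state x y k s.1 s.2 b
    else
      fun a c b => ∑ s : P.B × Bool, P.UB k y (b, c) s * state x y k a s.2 s.1

/-- The probability that the protocol with `q` exchanged qubits outputs `1`: after `q` messages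
(turns `0, ..., q`) the party that holds the channel qubit measures it. -/
noncomputable def acc (q : ℕ) (x : X) (y : Y) : ℝ :=
  ∑ a, ∑ b, ‖P.state x y (q + 1) a true b‖ ^ 2

theorem state_even (x : X) (y : Y) (k : ℕ) (hk : k % 2 = 0) (a : P.A) (c : Bool) (b : P.B) :
    P.state x y (k + 1) a c b = ∑ s : P.A × Bool, P.UA k x (a, c) s * P.state x y k s.1 s.2 b := by
  rw [state, if_pos hk]

theorem state_odd (x : X) (y : Y) (k : ℕ) (hk : ¬ k % 2 = 0) (a : P.A) (c : Bool) (b : P.B) :
    P.state x y (k + 1) a c b = ∑ s : P.B × Bool, P.UB k y (b, c) s * P.state x y k a s.2 s.1 := by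
  rw [state, if_neg hk]

end QProt

/-- Some protocol exchanging `q` qubits computes `F` with error at most `1/3`. -/
def QBy {X Y : Type} (F : X → Y → Bool) (q : ℕ) : Prop :=
  ∃ P : QProt X Y, ∀ x y, (F x y = true → 2 / 3 ≤ P.acc q x y) ∧ (F x y = false → P.acc q x y ≤ 1 / 3)

/-- Entanglement-assisted quantum communication complexity `Q*_{1/3}(F)`. -/
noncomputable def qstar {X Y : Type} (F : X → Y → Bool) : ℕ := sInf {q | QBy F q}

/-! ### Permutation matrices -/

/-- The matrix of a permutation. -/
def pm {S : Type} [DecidableEq S] (σ : Equiv.Perm S) : Matrix S S ℂ :=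
  fun s t => if s = σ t then 1 else 0

theorem pm_unitary {S : Type} [Fintype S] [DecidableEq S] (σ : Equiv.Perm S) :
    pm σ ∈ Matrix.unitaryGroup S ℂ := by
  rw [Matrix.mem_unitaryGroup_iff]
  ext s t
  rw [Matrix.mul_apply]
  simp only [pm, Matrix.star_apply]
  rw [Finset.sum_eq_single (σ.symm s)]
  · rw [Equiv.apply_symm_apply, if_pos rfl, one_mul, Matrix.one_apply]
    by_cases h : s = t
    · simp [h]
    · rw [if_neg h, if_neg (fun h' => h h'.symm), star_zero]
  · intro u _ hu
    rw [if_neg, zero_mul]
    intro h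
    apply hu
    rw [h, Equiv.symm_apply_apply]
  · intro h
    exact absurd (mem_univ _) h

theorem pm_sum {S : Type} [Fintype S] [DecidableEq S] (σ : Equiv.Perm S) (g : S → ℂ) (s : S) :
    ∑ t, pm σ s t * g t = g (σ.symm s) := by
  rw [Finset.sum_eq_single (σ.symm s)]
  · simp [pm]
  · intro u _ hu
    have : ¬ s = σ u := by
      intro h
      apply hu
      rw [h, Equiv.symm_apply_apply]
    simp [pm, this]
  · intro h
    exact absurd (mem_univ _) h

/-! ### Reversible classical protocols with shared state -/

section classical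

set_option linter.unusedSectionVars false

variable {X Y : Type} {A B : Type} [Fintype A] [DecidableEq A] [Fintype B] [DecidableEq B]
  (init : A → B → ℂ) (hinit : ∑ a, ∑ b, ‖init a b‖ ^ 2 = 1)
  (σA : ℕ → X → Equiv.Perm (A × Bool)) (σB : ℕ → Y → Equiv.Perm (B × Bool))

/-- The quantum protocol given by permutations. -/
def permProt : QProt X Y where
  A := A
  B := B
  init := init
  norm_init := hinit
  UA k x := pm (σA k x)
  UB k y := pm (σB k y)
  unitA _ _ := pm_unitary _
  unitB _ _ := pm_unitary _

/-- One classical turn. -/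
def turn (x : X) (y : Y) (k : ℕ) : (A × Bool × B) → (A × Bool × B) := fun s =>
  if k % 2 = 0 then ((σA k x (s.1, s.2.1)).1, (σA k x (s.1, s.2.1)).2, s.2.2)
  else (s.1, (σB k y (s.2.2, s.2.1)).2, (σB k y (s.2.2, s.2.1)).1)

/-- Inverse of one classical turn. -/
def turnInv (x : X) (y : Y) (k : ℕ) : (A × Bool × B) → (A × Bool × B) := fun s =>
  if k % 2 = 0 then (((σA k x).symm (s.1, s.2.1)).1, ((σA k x).symm (s.1, s.2.1)).2, s.2.2)
  else (s.1, ((σB k y).symm (s.2.2, s.2.1)).2, ((σB k y).symm (s.2.2, s.2.1)).1)

theorem turnInv_turn (x : X) (y : Y) (k : ℕ) (s : A × Bool × B) :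
    turnInv σA σB x y k (turn σA σB x y k s) = s := by
  unfold turn turnInv
  split_ifs <;> simp

theorem turn_turnInv (x : X) (y : Y) (k : ℕ) (s : A × Bool × B) :
    turn σA σB x y k (turnInv σA σB x y k s) = s := by
  unfold turn turnInv
  split_ifs <;> simp

/-- The classical state after `k` turns. -/
def evo (x : X) (y : Y) : ℕ → (A × Bool × B) → (A × Bool × B)
  | 0, s => s
  | k + 1, s => turn σA σB x y k (evo x y k s)

/-- Its inverse. -/
def evoInv (x : X) (y : Y) : ℕ → (A × Bool × B) → (A × Bool × B)
  | 0, s => s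
  | k + 1, s => evoInv x y k (turnInv σA σB x y k s)

theorem evoInv_evo (x : X) (y : Y) : ∀ (k : ℕ) (s : A × Bool × B),
    evoInv σA σB x y k (evo σA σB x y k s) = s
  | 0, s => rfl
  | k + 1, s => by
    simp only [evo, evoInv]
    rw [turnInv_turn, evoInv_evo x y k s]

theorem evo_evoInv (x : X) (y : Y) : ∀ (k : ℕ) (s : A × Bool × B),
    evo σA σB x y k (evoInv σA σB x y k s) = s
  | 0, s => rfl
  | k + 1, s => by
    simp only [evo, evoInv]
    rw [evo_evoInv x y k, turn_turnInv]

theorem state_eq (x : X) (y : Y) : ∀ (k : ℕ) (a : A) (c : Bool) (b : B),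
    (permProt init hinit σA σB).state x y k a c b =
      (permProt init hinit σA σB).state x y 0 (evoInv σA σB x y k (a, c, b)).1
        (evoInv σA σB x y k (a, c, b)).2.1 (evoInv σA σB x y k (a, c, b)).2.2
  | 0, a, c, b => rfl
  | k + 1, a, c, b => by
    by_cases hk : k % 2 = 0
    · have h1 : (permProt init hinit σA σB).state x y (k + 1) a c b =
          ∑ s : A × Bool, pm (σA k x) (a, c) s *
            (permProt init hinit σA σB).state x y k s.1 s.2 b :=
        QProt.state_even (permProt init hinit σA σB) x y k hk a c b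
      rw [h1, pm_sum, state_eq x y k]
      simp only [evoInv, turnInv, if_pos hk]
    · have h1 : (permProt init hinit σA σB).state x y (k + 1) a c b =
          ∑ s : B × Bool, pm (σB k y) (b, c) s *
            (permProt init hinit σA σB).state x y k a s.2 s.1 :=
        QProt.state_odd (permProt init hinit σA σB) x y k hk a c b
      rw [h1, pm_sum, state_eq x y k]
      simp only [evoInv, turnInv, if_neg hk]

theorem acc_eq (x : X) (y : Y) (q : ℕ) :
    (permProt init hinit σA σB).acc q x y =
      ∑ a, ∑ b, if (evo σA σB x y (q + 1) (a, false, b)).2.1 = true then ‖init a b‖ ^ 2 else 0 := by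
  classical
  let g : A × Bool × B → ℝ := fun s => if s.2.1 then 0 else ‖init s.1 s.2.2‖ ^ 2
  have hg : ∀ s : A × Bool × B,
      ‖(permProt init hinit σA σB).state x y 0 s.1 s.2.1 s.2.2‖ ^ 2 = g s := by
    intro s
    show ‖(if s.2.1 then 0 else init s.1 s.2.2 : ℂ)‖ ^ 2 = _
    simp only [g]
    split_ifs <;> simp
  have h1 : (permProt init hinit σA σB).acc q x y
      = ∑ s : A × Bool × B, if s.2.1 = true then g (evoInv σA σB x y (q + 1) s) else 0 := by
    unfold QProt.acc
    rw [Fintype.sum_prod_type]
    apply Finset.sum_congr rfl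
    intro a _
    rw [Fintype.sum_prod_type, Fintype.sum_bool]
    simp only [Bool.false_eq_true, if_false, Finset.sum_const_zero, add_zero, if_true]
    apply Finset.sum_congr rfl
    intro b _
    rw [← hg]
    exact congrArg (fun z : ℂ => ‖z‖ ^ 2) (state_eq init hinit σA σB x y (q + 1) a true b)
  have h2 : (∑ s : A × Bool × B, if s.2.1 = true then g (evoInv σA σB x y (q + 1) s) else 0)
      = ∑ s : A × Bool × B, if (evo σA σB x y (q + 1) s).2.1 = true then g s else 0 := by
    apply Finset.sum_bij' (fun s _ => evoInv σA σB x y (q + 1) s)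
      (fun s _ => evo σA σB x y (q + 1) s)
    · intro s _; exact mem_univ _
    · intro s _; exact mem_univ _
    · intro s _; exact evo_evoInv σA σB x y (q + 1) s
    · intro s _; exact evoInv_evo σA σB x y (q + 1) s
    · intro s _
      rw [evo_evoInv]
  rw [h1, h2, Fintype.sum_prod_type]
  apply Finset.sum_congr rfl
  intro a _
  rw [Fintype.sum_prod_type, Fintype.sum_bool]
  have h3 : (∑ b, if (evo σA σB x y (q + 1) (a, true, b)).2.1 = true then g (a, true, b) else 0)
      = 0 := by
    apply Finset.sum_eq_zero
    intro b _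
    simp [g]
  rw [h3, zero_add]
  apply Finset.sum_congr rfl
  intro b _
  simp [g]

end classical

end Pool.Agent.H572R2.AndComm
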