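import Mathlib
import Pool.Agent.H572R2.AndQ

set_option autoImplicit false

namespace Pool.Agent.H572R2.AndComm

open Finset

namespace Prot

variable {X Y : Type}

/-- The bit sent by Alice at a node in her turn (the label at a leaf). -/
def bitA : Prot X Y → X → Bool
  | out b, _ => b
  | alice m _ _, x => m x
  | bob _ _ _, _ => false

/-- The bit sent by Bob at a node in his turn (the label at a leaf). -/
def bitB : Prot X Y → Y → Bool
  | out b, _ => b
  | alice _ _ _, _ => false
  | bob m _ _, y => m y

/-- The new node after the message `c` of turn `k`. -/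
def step (k : ℕ) : Prot X Y → Bool → Prot X Y
  | out b, _ => out b
  | alice m p₀ p₁, c => if k % 2 = 0 then (if c then p₁ else p₀) else alice m p₀ p₁
  | bob m p₀ p₁, c => if k % 2 = 0 then bob m p₀ p₁ else (if c then p₁ else p₀)

/-- The message of turn `k` at a node. -/
def bit (x : X) (y : Y) (k : ℕ) (p : Prot X Y) : Bool :=
  if k % 2 = 0 then p.bitA x else p.bitB y

/-- The node before turn `k`. -/
def nd (P : Prot X Y) (x : X) (y : Y) : ℕ → Prot X Y
  | 0 => P
  | k + 1 => step k (nd P x y k) (bit x y k (nd P x y k))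

theorem run_step (x : X) (y : Y) (k : ℕ) (p : Prot X Y) :
    (step k p (bit x y k p)).run x y = p.run x y := by
  cases p with
  | out b => rfl
  | alice m p₀ p₁ =>
    by_cases hk : k % 2 = 0
    · simp only [step, bit, hk, if_true, bitA, run]
      split_ifs <;> rfl
    · simp [step, hk]
  | bob m p₀ p₁ =>
    by_cases hk : k % 2 = 0
    · simp [step, hk]
    · simp only [step, bit, hk, if_false, bitB, run]
      split_ifs <;> rfl

theorem run_nd (P : Prot X Y) (x : X) (y : Y) : ∀ k, (nd P x y k).run x y = P.run x y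
  | 0 => rfl
  | k + 1 => by rw [nd, run_step, run_nd P x y k]

theorem cost_step_le (k : ℕ) (p : Prot X Y) (c : Bool) : (step k p c).cost ≤ p.cost := by
  cases p with
  | out b => rfl
  | alice m p₀ p₁ =>
    simp only [step]
    split_ifs <;> simp only [cost] <;> omega
  | bob m p₀ p₁ =>
    simp only [step]
    split_ifs <;> simp only [cost] <;> omega

theorem cost_two (k : ℕ) (hk : k % 2 = 0) (p : Prot X Y) (c d : Bool) :
    (step (k + 1) (step k p c) d).cost ≤ p.cost - 1 := by
  have hk1 : ¬ (k + 1) % 2 = 0 := by omega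
  cases p with
  | out b => simp [step, cost]
  | alice m p₀ p₁ =>
    have h := cost_step_le (k + 1) (step k (alice m p₀ p₁) c) d
    refine h.trans ?_
    simp only [step, hk, if_true]
    split_ifs <;> simp only [cost] <;> omega
  | bob m p₀ p₁ =>
    simp only [step, hk, hk1, if_true, if_false]
    split_ifs <;> simp only [cost] <;> omega

theorem cost_nd (P : Prot X Y) (x : X) (y : Y) : ∀ j, (nd P x y (2 * j)).cost ≤ P.cost - j
  | 0 => by simp [nd]
  | j + 1 => by
    have h := cost_nd P x y j
    have h2 : 2 * (j + 1) = (2 * j + 1) + 1 := by ring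
    rw [h2]
    simp only [nd]
    refine (cost_two (2 * j) (by omega) _ _ _).trans ?_
    omega

theorem bit_final (P : Prot X Y) (x : X) (y : Y) (c : ℕ) (hc : P.cost ≤ c) :
    bit x y (2 * c) (nd P x y (2 * c)) = P.run x y := by
  have h1 := cost_nd P x y c
  have h2 := run_nd P x y (2 * c)
  have h0 : (nd P x y (2 * c)).cost = 0 := by omega
  cases hn : nd P x y (2 * c) with
  | out b =>
    rw [hn] at h2
    simp only [run] at h2
    simp only [bit, bitA, bitB]
    rw [if_pos (by omega)]
    exact h2
  | alice m p₀ p₁ =>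
    rw [hn] at h0
    simp only [cost] at h0
    omega
  | bob m p₀ p₁ =>
    rw [hn] at h0
    simp only [cost] at h0
    omega

/-- The node before turn `k` as computed by Alice from received bits. -/
def nA (P : Prot X Y) (x : X) (t : ℕ → Bool) : ℕ → Prot X Y
  | 0 => P
  | k + 1 => step k (nA P x t k) (if k % 2 = 0 then (nA P x t k).bitA x else t k)

/-- The node before turn `k` as computed by Bob from received bits. -/
def nB (P : Prot X Y) (y : Y) (t : ℕ → Bool) : ℕ → Prot X Y
  | 0 => P
  | k + 1 => step k (nB P y t k) (if k % 2 = 0 then t k else (nB P y t k).bitB y)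

theorem nA_eq (P : Prot X Y) (x : X) (y : Y) (t : ℕ → Bool) : ∀ k,
    (∀ j < k, j % 2 = 1 → t j = bit x y j (nd P x y j)) → nA P x t k = nd P x y k
  | 0, _ => rfl
  | k + 1, h => by
    have ih := nA_eq P x y t k (fun j hj => h j (by omega))
    simp only [nA, nd, ih]
    congr 1
    by_cases hk : k % 2 = 0
    · simp [hk, bit]
    · rw [if_neg hk]
      exact h k (by omega) (by omega)

theorem nB_eq (P : Prot X Y) (x : X) (y : Y) (t : ℕ → Bool) : ∀ k,
    (∀ j < k, j % 2 = 0 → t j = bit x y j (nd P x y j)) → nB P y t k = nd P x y k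
  | 0, _ => rfl
  | k + 1, h => by
    have ih := nB_eq P x y t k (fun j hj => h j (by omega))
    simp only [nB, nd, ih]
    congr 1
    by_cases hk : k % 2 = 0
    · rw [if_pos hk]
      exact h k (by omega) hk
    · simp [hk, bit]

end Prot

section sim

variable {X Y Ω : Type} (N : ℕ)

/-- Register content: public coins and received bits. -/
abbrev Reg (Ω : Type) (N : ℕ) : Type := Ω × (Fin N → Bool)

def ext (t : Fin N → Bool) (j : ℕ) : Bool := if h : j < N then t ⟨j, h⟩ else false

/-- Swap the channel bit with slot `k - 1`. -/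
def swp (k : ℕ) (s : Reg Ω N × Bool) : Reg Ω N × Bool :=
  if h : 0 < k ∧ k - 1 < N then
    ((s.1.1, Function.update s.1.2 ⟨k - 1, h.2⟩ s.2), s.1.2 ⟨k - 1, h.2⟩)
  else s

theorem swp_invol (k : ℕ) : Function.Involutive (swp (Ω := Ω) N k) := by
  intro s
  unfold swp
  split_ifs with h
  · simp
  · rfl

/-- Add a bit computed from the register to the channel. -/
def snd (f : Reg Ω N → Bool) (s : Reg Ω N × Bool) : Reg Ω N × Bool := (s.1, xor s.2 (f s.1))

theorem snd_invol (f : Reg Ω N → Bool) : Function.Involutive (snd N f) := by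
  intro s
  unfold snd
  simp

variable (P : Ω → Prot X Y)

/-- Alice's permutation in turn `k`. -/
def σA (k : ℕ) (x : X) : Equiv.Perm (Reg Ω N × Bool) :=
  (Function.Involutive.toPerm _ (swp_invol (Ω := Ω) N k)).trans
    (Function.Involutive.toPerm _ (snd_invol N (fun g => ((P g.1).nA x (ext N g.2) k).bitA x)))

/-- Bob's permutation in turn `k`. -/
def σB (k : ℕ) (y : Y) : Equiv.Perm (Reg Ω N × Bool) :=
  (Function.Involutive.toPerm _ (swp_invol (Ω := Ω) N k)).trans
    (Function.Involutive.toPerm _ (snd_invol N (fun g => ((P g.1).nB y (ext N g.2) k).bitB y)))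

theorem σA_apply (k : ℕ) (x : X) (s : Reg Ω N × Bool) :
    σA N P k x s = snd N (fun g => ((P g.1).nA x (ext N g.2) k).bitA x) (swp N k s) := rfl

theorem σB_apply (k : ℕ) (y : Y) (s : Reg Ω N × Bool) :
    σB N P k y s = snd N (fun g => ((P g.1).nB y (ext N g.2) k).bitB y) (swp N k s) := rfl

/-- The true message bits. -/
def cb (x : X) (y : Y) (r : Ω) (j : ℕ) : Bool := Prot.bit x y j ((P r).nd x y j)

def tA (x : X) (y : Y) (r : Ω) (k : ℕ) : Fin N → Bool :=
  fun j => if (j : ℕ) % 2 = 1 ∧ (j : ℕ) + 2 ≤ k then cb P x y r j else false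

def tB (x : X) (y : Y) (r : Ω) (k : ℕ) : Fin N → Bool :=
  fun j => if (j : ℕ) % 2 = 0 ∧ (j : ℕ) + 2 ≤ k then cb P x y r j else false

def cc (x : X) (y : Y) (r : Ω) (k : ℕ) : Bool := if k = 0 then false else cb P x y r (k - 1)

theorem swpA (x : X) (y : Y) (r : Ω) (k : ℕ) (hk : k % 2 = 0) (hN : k ≤ N) :
    swp N k ((r, tA N P x y r k), cc P x y r k) = ((r, tA N P x y r (k + 1)), false) := by
  unfold swp
  rcases Nat.eq_zero_or_pos k with h0 | h0
  · subst h0
    rw [dif_neg (by omega)]
    have : tA N P x y r 0 = tA N P x y r (0 + 1) := by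
      funext j
      unfold tA
      rw [if_neg (by omega), if_neg (by omega)]
    rw [this]
    simp [cc]
  · rw [dif_pos ⟨h0, by omega⟩]
    have e1 : tA N P x y r k ⟨k - 1, by omega⟩ = false := by
      unfold tA
      rw [if_neg (by simp only; omega)]
    have e2 : Function.update (tA N P x y r k) ⟨k - 1, by omega⟩ (cc P x y r k)
        = tA N P x y r (k + 1) := by
      funext j
      by_cases hj : j = ⟨k - 1, by omega⟩
      · subst hj
        rw [Function.update_self]
        unfold tA cc
        rw [if_neg (by omega), if_pos (by simp only; omega)]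
      · rw [Function.update_of_ne hj]
        have hj' : (j : ℕ) ≠ k - 1 := fun h => hj (Fin.ext h)
        unfold tA
        by_cases h1 : (j : ℕ) % 2 = 1 ∧ (j : ℕ) + 2 ≤ k
        · rw [if_pos h1, if_pos (by omega)]
        · rw [if_neg h1, if_neg (by omega)]
    simp only [e1, e2]

theorem swpB (x : X) (y : Y) (r : Ω) (k : ℕ) (hk : ¬ k % 2 = 0) (hN : k ≤ N) :
    swp N k ((r, tB N P x y r k), cc P x y r k) = ((r, tB N P x y r (k + 1)), false) := by
  unfold swp
  rw [dif_pos ⟨by omega, by omega⟩]
  have e1 : tB N P x y r k ⟨k - 1, by omega⟩ = false := by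
    unfold tB
    rw [if_neg (by simp only; omega)]
  have e2 : Function.update (tB N P x y r k) ⟨k - 1, by omega⟩ (cc P x y r k)
      = tB N P x y r (k + 1) := by
    funext j
    by_cases hj : j = ⟨k - 1, by omega⟩
    · subst hj
      rw [Function.update_self]
      unfold tB cc
      rw [if_neg (by omega), if_pos (by simp only; omega)]
    · rw [Function.update_of_ne hj]
      have hj' : (j : ℕ) ≠ k - 1 := fun h => hj (Fin.ext h)
      unfold tB
      by_cases h1 : (j : ℕ) % 2 = 0 ∧ (j : ℕ) + 2 ≤ k
      · rw [if_pos h1, if_pos (by omega)]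
      · rw [if_neg h1, if_neg (by omega)]
  simp only [e1, e2]

theorem evo_inv (x : X) (y : Y) (r : Ω) : ∀ k ≤ N + 1,
    evo (σA N P) (σB N P) x y k ((r, fun _ => false), false, (r, fun _ => false))
      = ((r, tA N P x y r k), cc P x y r k, (r, tB N P x y r k))
  | 0, _ => by
    have h1 : tA N P x y r 0 = fun _ => false := by
      funext j
      unfold tA
      rw [if_neg (by omega)]
    have h2 : tB N P x y r 0 = fun _ => false := by
      funext j
      unfold tB
      rw [if_neg (by omega)]
    simp [evo, h1, h2, cc]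
  | k + 1, hk => by
    have ih := evo_inv x y r k (by omega)
    simp only [evo]
    rw [ih]
    unfold turn
    by_cases hp : k % 2 = 0
    · simp only [if_pos hp]
      rw [σA_apply, swpA N P x y r k hp (by omega)]
      have h1 : (P r).nA x (ext N (tA N P x y r (k + 1))) k = (P r).nd x y k := by
        apply Prot.nA_eq
        intro j hj hj1
        unfold ext
        rw [dif_pos (by omega)]
        unfold tA
        rw [if_pos (by simp only; omega)]
        rfl
      have h2 : tB N P x y r (k + 1) = tB N P x y r k := by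
        funext j
        unfold tB
        by_cases h : (j : ℕ) % 2 = 0 ∧ (j : ℕ) + 2 ≤ k
        · rw [if_pos h, if_pos (by omega)]
        · rw [if_neg h, if_neg (by omega)]
      have h3 : cc P x y r (k + 1) = ((P r).nd x y k).bitA x := by
        unfold cc cb Prot.bit
        rw [if_neg (by omega), Nat.add_sub_cancel, if_pos hp]
      simp only [snd, h1, h2, h3]
      simp
    · simp only [if_neg hp]
      rw [σB_apply, swpB N P x y r k hp (by omega)]
      have h1 : (P r).nB y (ext N (tB N P x y r (k + 1))) k = (P r).nd x y k := by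
        apply Prot.nB_eq
        intro j hj hj1
        unfold ext
        rw [dif_pos (by omega)]
        unfold tB
        rw [if_pos (by simp only; omega)]
        rfl
      have h2 : tA N P x y r (k + 1) = tA N P x y r k := by
        funext j
        unfold tA
        by_cases h : (j : ℕ) % 2 = 1 ∧ (j : ℕ) + 2 ≤ k
        · rw [if_pos h, if_pos (by omega)]
        · rw [if_neg h, if_neg (by omega)]
      have h3 : cc P x y r (k + 1) = ((P r).nd x y k).bitB y := by
        unfold cc cb Prot.bit
        rw [if_neg (by omega), Nat.add_sub_cancel, if_neg hp]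
      simp only [snd, h1, h2, h3]
      simp

end sim

/-- The shared state. -/
noncomputable def shared {Ω : Type} [DecidableEq Ω] (N : ℕ) (w : Ω → ℝ) (a b : Reg Ω N) : ℂ :=
  if a.2 = (fun _ => false) ∧ b = a then (Real.sqrt (w a.1) : ℂ) else 0

theorem shared_sum {Ω : Type} [Fintype Ω] [DecidableEq Ω] (N : ℕ) (w : Ω → ℝ) (hw : ∀ r, 0 ≤ w r)
    (g : Reg Ω N → Reg Ω N → Prop) [∀ a b, Decidable (g a b)] :
    ∑ a : Reg Ω N, ∑ b : Reg Ω N, (if g a b then ‖shared N w a b‖ ^ 2 else 0)
      = ∑ r, if g (r, fun _ => false) (r, fun _ => false) then w r else 0 := by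
  rw [Fintype.sum_prod_type]
  apply Finset.sum_congr rfl
  intro r _
  rw [Finset.sum_eq_single (fun _ => false)]
  · rw [Finset.sum_eq_single (r, fun _ => false)]
    · have : ‖shared N w (r, fun _ => false) (r, fun _ => false)‖ ^ 2 = w r := by
        unfold shared
        rw [if_pos ⟨rfl, rfl⟩, Complex.norm_real, Real.norm_eq_abs, sq_abs, Real.sq_sqrt (hw r)]
      rw [this]
    · intro b _ hb
      have : shared N w (r, fun _ => false) b = 0 := by
        unfold shared
        rw [if_neg]
        rintro ⟨-, h⟩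
        exact hb h
      rw [this]
      simp
    · intro h
      exact absurd (mem_univ _) h
  · intro t _ ht
    apply Finset.sum_eq_zero
    intro b _
    have : shared N w (r, t) b = 0 := by
      unfold shared
      rw [if_neg]
      rintro ⟨h, -⟩
      exact ht h
    rw [this]
    simp
  · intro h
    exact absurd (mem_univ _) h

/-- Public coins and classical bits can be simulated with entanglement and qubits. -/
theorem quantum_of_rand {X Y : Type} (F : X → Y → Bool) (c : ℕ) (h : RandBy F c) :
    QBy F (2 * c) := by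
  classical
  obtain ⟨Ω, _, w, P, hw, hsum, hcost, hrun⟩ := h
  set N := 2 * c with hN
  have hinit : ∑ a : Reg Ω N, ∑ b : Reg Ω N, ‖shared N w a b‖ ^ 2 = 1 := by
    have := shared_sum N w hw (fun _ _ => True)
    simp only [if_true] at this
    rw [this, hsum]
  refine ⟨permProt (shared N w) hinit (σA N P) (σB N P), ?_⟩
  intro x y
  have hacc : (permProt (shared N w) hinit (σA N P) (σB N P)).acc N x y
      = ∑ r, if (P r).run x y = true then w r else 0 := by
    rw [acc_eq]
    rw [shared_sum N w hw (fun a b =>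
      (evo (σA N P) (σB N P) x y (N + 1) (a, false, b)).2.1 = true)]
    apply Finset.sum_congr rfl
    intro r _
    rw [evo_inv N P x y r (N + 1) le_rfl]
    have : cc P x y r (N + 1) = (P r).run x y := by
      unfold cc cb
      rw [if_neg (by omega), Nat.add_sub_cancel, hN, Prot.bit_final _ _ _ _ (hcost r)]
    simp only [this]
  rw [hacc]
  have h1 := hrun x y
  constructor
  · intro hF
    rw [hF] at h1
    exact h1
  · intro hF
    rw [hF] at h1
    have h2 : (∑ r, if (P r).run x y = true then w r else 0)
        + (∑ r, if (P r).run x y = false then w r else 0) = 1 := by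
      rw [← Finset.sum_add_distrib, ← hsum]
      apply Finset.sum_congr rfl
      intro r _
      cases (P r).run x y <;> simp
    linarith

theorem qstar_le_two_mul_randCC {X Y : Type} (F : X → Y → Bool) (hF : ∃ c, RandBy F c) :
    qstar F ≤ 2 * randCC F :=
  Nat.sInf_le (quantum_of_rand F _ (Nat.sInf_mem (s := {c | RandBy F c}) hF))

theorem qstar_upper (L : ℕ) (hL : 2 ≤ L) :
    qstar (andFn (fL (2 ^ 2 ^ L - 1))) ≤ 8 * L ^ 2 + 4 := by
  have := Nat.sInf_le (s := {q | QBy (andFn (fL (2 ^ 2 ^ L - 1))) q})
    (quantum_of_rand _ _ (rand_upper L hL))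
  refine this.trans ?_
  omega

theorem randCC_upper (L : ℕ) (hL : 2 ≤ L) :
    randCC (andFn (fL (2 ^ 2 ^ L - 1))) ≤ 4 * L ^ 2 + 2 :=
  Nat.sInf_le (s := {c | RandBy (andFn (fL (2 ^ 2 ^ L - 1))) c}) (rand_upper L hL)

theorem det_lower2 (L : ℕ) :
    2 ^ L - 1 ≤ detCC (andFn (fL (2 ^ 2 ^ L - 1))) := by
  have h := det_lower (2 ^ 2 ^ L - 1)
  have hK : 1 ≤ 2 ^ L := Nat.one_le_two_pow
  obtain ⟨m, hm⟩ : ∃ m, 2 ^ L = m + 1 := ⟨2 ^ L - 1, by omega⟩
  have h2 : (2 ^ 2 ^ L - 1 + 1) / 2 = 2 ^ (2 ^ L - 1) := by
    rw [hm]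
    have : 1 ≤ 2 ^ (m + 1) := Nat.one_le_two_pow
    rw [Nat.sub_add_cancel this, Nat.add_sub_cancel, pow_succ]
    omega
  rw [h2] at h
  exact (Nat.pow_le_pow_iff_right (by norm_num)).mp h

end Pool.Agent.H572R2.AndComm
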