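import Pool.Agent.H572R2.Leaf

set_option autoImplicit false

namespace Pool.Agent.H572R2

open Finset

variable {N : ℕ}

/-- Average over the coordinates in `A`. -/
noncomputable def EA (A : Finset (Fin N)) (f : (Fin N → Bool) → ℝ) (x : Fin N → Bool) : ℝ :=
  EE (fun z => f (mix A z x))

lemma EA_add (A : Finset (Fin N)) (f g : (Fin N → Bool) → ℝ) (x : Fin N → Bool) :
    EA A (fun y => f y + g y) x = EA A f x + EA A g x := EE_add _ _

lemma EA_sub (A : Finset (Fin N)) (f g : (Fin N → Bool) → ℝ) (x : Fin N → Bool) :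
    EA A (fun y => f y - g y) x = EA A f x - EA A g x := EE_sub _ _

lemma EA_mul (A : Finset (Fin N)) (c : ℝ) (f : (Fin N → Bool) → ℝ) (x : Fin N → Bool) :
    EA A (fun y => c * f y) x = c * EA A f x := EE_mul _ _

lemma EA_const (A : Finset (Fin N)) (c : ℝ) (x : Fin N → Bool) :
    EA A (fun _ => c) x = c := EE_const c

lemma EA_mono (A : Finset (Fin N)) {f g : (Fin N → Bool) → ℝ} (h : ∀ y, f y ≤ g y)
    (x : Fin N → Bool) : EA A f x ≤ EA A g x := EE_mono fun _ => h _

lemma EA_nonneg (A : Finset (Fin N)) {f : (Fin N → Bool) → ℝ} (h : ∀ y, 0 ≤ f y)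
    (x : Fin N → Bool) : 0 ≤ EA A f x := EE_nonneg fun _ => h _

lemma EA_congr (A : Finset (Fin N)) {f g : (Fin N → Bool) → ℝ} (h : ∀ y, f y = g y)
    (x : Fin N → Bool) : EA A f x = EA A g x := EE_congr fun _ => h _

lemma EA_sum {ι : Type*} (A : Finset (Fin N)) (s : Finset ι) (f : ι → (Fin N → Bool) → ℝ)
    (x : Fin N → Bool) : EA A (fun y => ∑ i ∈ s, f i y) x = ∑ i ∈ s, EA A (f i) x :=
  EE_sum s fun i z => f i (mix A z x)

lemma EE_comm (F : (Fin N → Bool) → (Fin N → Bool) → ℝ) :
    EE (fun x => EE (fun z => F x z)) = EE (fun z => EE (fun x => F x z)) := by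
  unfold EE
  rw [← Finset.sum_div, ← Finset.sum_div, Finset.sum_comm]

/-- For fixed `z`, averaging over both arguments of `mix`. -/
lemma EE_EE_mix (A : Finset (Fin N)) (F : (Fin N → Bool) → ℝ) :
    EE (fun x => EE (fun z => F (mix A z x))) = EE F := by
  classical
  induction A using Finset.induction with
  | empty =>
    have : ∀ x, EE (fun z : Fin N → Bool => F (mix ∅ z x)) = F x := by
      intro x
      simp only [mix_empty]
      exact EE_const _
    exact EE_congr this
  | insert a A ha ih =>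
    rw [← ih]
    -- average over coordinate `a` of x and z is the same
    have h1 : ∀ x z : Fin N → Bool, mix (insert a A) z x
        = mix A z (Function.update x a (z a)) := by
      intro x z
      funext i
      by_cases hi : i = a
      · subst hi; simp [mix, ha]
      · simp [mix, hi]
    have h2 : EE (fun x => EE (fun z => F (mix (insert a A) z x)))
        = EE (fun z => EE (fun x => F (mix A z (Function.update x a (z a))))) := by
      rw [EE_comm]
      apply EE_congr; intro z
      apply EE_congr; intro x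
      rw [h1]
    have h3 : ∀ (c : Bool) (G : (Fin N → Bool) → ℝ),
        EE (fun x => G (Function.update x a c)) + EE (fun x => G (Function.update x a (!c)))
          = 2 * EE G := by
      intro c G
      rw [← EE_add]
      have e1 : ∀ x : Fin N → Bool, G (Function.update x a c) + G (Function.update x a (!c))
          = G x + G (flp a x) := by
        intro x
        unfold flp
        by_cases hx : x a = c
        · have : Function.update x a c = x := by rw [← hx]; exact Function.update_eq_self a x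
          rw [this, hx]
        · have hx' : x a = !c := by
            cases hxa : x a <;> cases hc : c <;> simp_all
          have e2 : Function.update x a (!c) = x := by
            rw [← hx']; exact Function.update_eq_self a x
          rw [e2, hx', Bool.not_not, add_comm]
      rw [EE_congr e1, EE_add, EE_flp a G]; ring
    -- symmetrise over z a
    have h4 : EE (fun z => EE (fun x => F (mix A z (Function.update x a (z a)))))
        = EE (fun z => EE (fun x => F (mix A z x))) := by
      have e1 : EE (fun z => EE (fun x => F (mix A z (Function.update x a (z a)))))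
          = EE (fun z => (fun w => EE (fun x => F (mix A w (Function.update x a (w a))))) (flp a z)) :=
        (EE_flp a (fun w => EE (fun x => F (mix A w (Function.update x a (w a)))))).symm
      have e2 : ∀ z : Fin N → Bool, ∀ y, mix A (flp a z) y = mix A z y := by
        intro z y
        funext i
        unfold mix
        split_ifs with hi
        · have : i ≠ a := by rintro rfl; exact ha hi
          rw [flp_ne this]
        · rfl
      have e3 : ∀ z : Fin N → Bool,
          (fun w => EE (fun x => F (mix A w (Function.update x a (w a))))) (flp a z)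
            = EE (fun x => F (mix A z (Function.update x a (!(z a))))) := by
        intro z
        simp only [e2, flp_same]
      have e4 : 2 * EE (fun z => EE (fun x => F (mix A z (Function.update x a (z a)))))
          = EE (fun z => EE (fun x => F (mix A z (Function.update x a (z a))))
            + EE (fun x => F (mix A z (Function.update x a (!(z a)))))) := by
        rw [EE_add]
        rw [← EE_congr e3, ← e1]; ring
      have e5 : ∀ z : Fin N → Bool, EE (fun x => F (mix A z (Function.update x a (z a))))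
            + EE (fun x => F (mix A z (Function.update x a (!(z a)))))
            = 2 * EE (fun x => F (mix A z x)) := fun z => h3 (z a) (fun y => F (mix A z y))
      rw [EE_congr e5, EE_mul] at e4
      linarith
    rw [h2, h4, EE_comm]

lemma EE_EA (A : Finset (Fin N)) (f : (Fin N → Bool) → ℝ) : EE (EA A f) = EE f := EE_EE_mix A f

lemma EA_EA {A B : Finset (Fin N)} (f : (Fin N → Bool) → ℝ)
    (x : Fin N → Bool) : EA B (EA A f) x = EA (A ∪ B) f x := by
  classical
  unfold EA
  have h1 : ∀ z z' : Fin N → Bool, mix A z' (mix B z x)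
      = mix (A ∪ B) (mix A z' z) x := by
    intro z z'
    funext i
    unfold mix
    by_cases hA : i ∈ A
    · simp [hA]
    · by_cases hB : i ∈ B
      · simp [hA, hB]
      · simp [hA, hB]
  have h2 : EE (fun z => EE (fun z' => f (mix A z' (mix B z x))))
      = EE (fun z => EE (fun z' => (fun w => f (mix (A ∪ B) w x)) (mix A z' z))) := by
    apply EE_congr; intro z
    apply EE_congr; intro z'
    rw [h1]
  rw [h2, EE_EE_mix A (fun w => f (mix (A ∪ B) w x))]

lemma EA_flp_mem {A : Finset (Fin N)} {i : Fin N} (hi : i ∈ A) (f : (Fin N → Bool) → ℝ)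
    (x : Fin N → Bool) : EA A f (flp i x) = EA A f x := by
  unfold EA
  apply EE_congr; intro z
  rw [mix_flp_mem hi]

lemma EA_flp_not_mem {A : Finset (Fin N)} {i : Fin N} (hi : i ∉ A) (f : (Fin N → Bool) → ℝ)
    (x : Fin N → Bool) : EA A f (flp i x) = EA A (fun y => f (flp i y)) x := by
  unfold EA
  apply EE_congr; intro z
  rw [mix_flp_not_mem hi]

lemma EA_univ (f : (Fin N → Bool) → ℝ) (x : Fin N → Bool) : EA Finset.univ f x = EE f := by
  unfold EA
  apply EE_congr; intro z
  congr 1
  funext i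
  simp [mix]

/-- Conditional one-sided Poincare inequality. -/
lemma EA_poincare (B : Finset (Fin N)) (f : (Fin N → Bool) → ℝ) (x : Fin N → Bool) :
    EA B (fun y => (f y) ^ 2) x - (EA B f x) ^ 2
      ≤ (1 / 2) * ∑ i ∈ B, EA B (fun y => (max 0 (f y - f (flp i y))) ^ 2) x := by
  classical
  have h := poincare' (fun z => f (mix B z x))
  have h1 : ∀ i, ∀ z : Fin N → Bool, mix B (flp i z) x
      = if i ∈ B then flp i (mix B z x) else mix B z x := by
    intro i z
    by_cases hi : i ∈ B
    · rw [if_pos hi]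
      funext k
      by_cases hk : k = i
      · subst hk
        rw [flp_same]
        simp [mix, hi, flp_same]
      · rw [flp_ne hk]
        unfold mix
        rw [flp_ne hk]
    · rw [if_neg hi]
      funext k
      unfold mix
      split_ifs with hk
      · have : k ≠ i := by rintro rfl; exact hi hk
        rw [flp_ne this]
      · rfl
  have h2 : ∑ i, EE (fun z => (max 0 (f (mix B z x) - f (mix B (flp i z) x))) ^ 2)
      = ∑ i ∈ B, EA B (fun y => (max 0 (f y - f (flp i y))) ^ 2) x := by
    symm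
    rw [← Finset.sum_subset (Finset.subset_univ B)]
    · apply Finset.sum_congr rfl
      intro i hi
      unfold EA
      apply EE_congr; intro z
      rw [h1, if_pos hi]
    · intro i _ hi
      refine (EE_congr (g := fun _ => 0) ?_).trans (EE_const 0)
      intro z
      rw [h1, if_neg hi]; simp
  rw [h2] at h
  exact h

/-- The key numerical inequality. -/
lemma root_ineq (h : ℝ) (hh : 0 ≤ h) (j : ℕ) :
    1 + (h ^ (j + 1) - 1) / (j + 1) - (h ^ (j + 1) - 1) ^ 2 ≤ h := by
  -- induction free proof via auxiliary sums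
  have hj : (0 : ℝ) < j + 1 := by positivity
  set s : ℝ := ∑ m ∈ Finset.range (j + 1), h ^ m with hs
  have hgeom : h ^ (j + 1) - 1 = (h - 1) * s := by
    rw [hs, mul_comm]
    exact (geom_sum_mul h (j + 1)).symm
  have hs1 : 1 ≤ s := by
    rw [hs, Finset.sum_range_succ']
    have : 0 ≤ ∑ k ∈ Finset.range j, h ^ (k + 1) :=
      Finset.sum_nonneg fun k _ => pow_nonneg hh _
    simp only [pow_zero]
    linarith
  -- (h - 1) * (s - (j+1)) ≤ (j+1) * (h-1)^2 * s
  have hkey : (h - 1) * (s - (j + 1)) ≤ (j + 1) * ((h - 1) ^ 2 * s) := by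
    have e1 : s - (j + 1) = ∑ m ∈ Finset.range (j + 1), (h ^ m - 1) := by
      rw [Finset.sum_sub_distrib, hs]
      simp
    rw [e1, Finset.mul_sum]
    have e2 : ∀ m ∈ Finset.range (j + 1), (h - 1) * (h ^ m - 1) ≤ (h - 1) ^ 2 * s := by
      intro m hm
      have e3 : h ^ m - 1 = (∑ l ∈ Finset.range m, h ^ l) * (h - 1) := (geom_sum_mul h m).symm
      rw [e3]
      have e4 : ∑ l ∈ Finset.range m, h ^ l ≤ s := by
        rw [hs]
        apply Finset.sum_le_sum_of_subset_of_nonneg
        · intro l hl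
          rw [Finset.mem_range] at *
          omega
        · intro l _ _
          exact pow_nonneg hh _
      calc (h - 1) * ((∑ l ∈ Finset.range m, h ^ l) * (h - 1))
          = (h - 1) ^ 2 * (∑ l ∈ Finset.range m, h ^ l) := by ring
        _ ≤ (h - 1) ^ 2 * s := by gcongr
    calc ∑ m ∈ Finset.range (j + 1), (h - 1) * (h ^ m - 1)
        ≤ ∑ m ∈ Finset.range (j + 1), (h - 1) ^ 2 * s := Finset.sum_le_sum e2
      _ = _ := by
        rw [Finset.sum_const, Finset.card_range, nsmul_eq_mul]; push_cast; ring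
  rw [hgeom]
  have e5 : (h - 1) * s / (j + 1) - (h - 1) ≤ (h - 1) ^ 2 * s := by
    rw [div_sub' (ne_of_gt hj), div_le_iff₀ hj]
    nlinarith
  have e6 : (h - 1) ^ 2 * s ≤ ((h - 1) * s) ^ 2 := by
    have : 0 ≤ (h - 1) ^ 2 := sq_nonneg _
    nlinarith [mul_nonneg this (mul_nonneg (by linarith : (0:ℝ) ≤ s) (by linarith : (0:ℝ) ≤ s - 1))]
  linarith

/-- Moment comparison (reverse Jensen with a variance error). -/
lemma EA_moment (B : Finset (Fin N)) (g : (Fin N → Bool) → ℝ) (hg : ∀ y, 0 ≤ g y) (j : ℕ)
    (x : Fin N → Bool) :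
    EA B (fun y => (g y) ^ (2 * j + 2)) x ≤ (EA B g x) ^ (2 * j + 2)
      + (2 * j + 3) * (EA B (fun y => ((g y) ^ (j + 1)) ^ 2) x
          - (EA B (fun y => (g y) ^ (j + 1)) x) ^ 2) := by
  set X : ℝ := EA B (fun y => (g y) ^ (j + 1)) x with hX
  set Y : ℝ := EA B (fun y => (g y) ^ (2 * j + 2)) x with hY
  have hYY : EA B (fun y => ((g y) ^ (j + 1)) ^ 2) x = Y := by
    rw [hY]; apply EA_congr; intro y; ring
  rw [hYY]
  have hX0 : 0 ≤ X := EA_nonneg B (fun y => pow_nonneg (hg y) _) x
  have hY0 : 0 ≤ Y := EA_nonneg B (fun y => pow_nonneg (hg y) _) x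
  have hZ0 : 0 ≤ EA B g x := EA_nonneg B hg x
  rcases hX0.eq_or_lt with h0 | hpos
  · rw [← h0]
    have h1 : 0 ≤ (EA B g x) ^ (2 * j + 2) := pow_nonneg hZ0 _
    have h2 : Y ≤ (2 * j + 3) * Y := by
      have : (1 : ℝ) ≤ 2 * j + 3 := by
        have : (0 : ℝ) ≤ j := Nat.cast_nonneg j
        linarith
      nlinarith
    simpa using le_trans h2 (by nlinarith)
  · -- take the (j+1)-st root
    obtain ⟨c, hc0, hc⟩ : ∃ c : ℝ, 0 < c ∧ c ^ (j + 1) = X := by
      refine ⟨X ^ ((1 : ℝ) / ((j + 1 : ℕ) : ℝ)), Real.rpow_pos_of_pos hpos _, ?_⟩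
      rw [← Real.rpow_natCast, ← Real.rpow_mul hX0]
      have : (1 : ℝ) / ((j + 1 : ℕ) : ℝ) * ((j + 1 : ℕ) : ℝ) = 1 := by
        field_simp
      rw [this, Real.rpow_one]
    set v : ℝ := Y / X ^ 2 - 1 with hv
    have h1 : ∀ y, 1 + ((g y) ^ (j + 1) / X - 1) / (j + 1) - ((g y) ^ (j + 1) / X - 1) ^ 2
        ≤ g y / c := by
      intro y
      have := root_ineq (g y / c) (div_nonneg (hg y) hc0.le) j
      rw [div_pow, hc] at this
      exact this
    have h2 := EA_mono B h1 x
    have h3 : EA B (fun y => 1 + ((g y) ^ (j + 1) / X - 1) / (j + 1)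
        - ((g y) ^ (j + 1) / X - 1) ^ 2) x = 1 - v := by
      have e1 : ∀ y, 1 + ((g y) ^ (j + 1) / X - 1) / (j + 1) - ((g y) ^ (j + 1) / X - 1) ^ 2
          = (-(1 / (j + 1)) + (1 / ((j + 1) * X) + 2 / X) * (g y) ^ (j + 1))
            - (1 / X ^ 2) * (g y) ^ (2 * j + 2) := by
        intro y
        field_simp
        ring
      rw [EA_congr B e1, EA_sub, EA_add, EA_const, EA_mul, EA_mul, ← hX, ← hY, hv]
      field_simp
      ring
    have h4 : EA B (fun y => g y / c) x = EA B g x / c := by
      have e1 : ∀ y, g y / c = (1 / c) * g y := fun y => by ring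
      rw [EA_congr B e1, EA_mul]; ring
    rw [h3, h4] at h2
    have h5 : 1 - (2 * j + 2) * v ≤ (EA B g x / c) ^ (2 * j + 2) := by
      rcases le_total v 1 with hv1 | hv1
      · have h6 : (1 - v) ^ (2 * j + 2) ≤ (EA B g x / c) ^ (2 * j + 2) :=
          pow_le_pow_left₀ (by linarith) h2 _
        have h7 := one_add_mul_le_pow (a := -v) (by linarith) (2 * j + 2)
        push_cast at h7
        have h8 : (1 + -v) ^ (2 * j + 2) = (1 - v) ^ (2 * j + 2) := by ring
        rw [h8] at h7
        linarith
      · have h6 : 0 ≤ (EA B g x / c) ^ (2 * j + 2) := pow_nonneg (div_nonneg hZ0 hc0.le) _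
        have h7 : (0 : ℝ) ≤ j := Nat.cast_nonneg j
        nlinarith
    have h6 : (EA B g x / c) ^ (2 * j + 2) = (EA B g x) ^ (2 * j + 2) / X ^ 2 := by
      rw [div_pow]
      congr 1
      rw [← hc, ← pow_mul]
      congr 1
      ring
    rw [h6] at h5
    have hX2 : 0 < X ^ 2 := by positivity
    have h7 : (1 - (2 * j + 2) * v) * X ^ 2 ≤ (EA B g x) ^ (2 * j + 2) := by
      rwa [← le_div_iff₀ hX2]
    have h8 : v * X ^ 2 = Y - X ^ 2 := by
      rw [hv]; field_simp
    nlinarith

/-- One step of the reverse martingale. -/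
lemma step_moment (B : Finset (Fin N)) (g : (Fin N → Bool) → ℝ) (hg : ∀ y, 0 ≤ g y) (j : ℕ) :
    EE (fun y => (g y) ^ (2 * j + 2)) ≤ EE (fun y => (EA B g y) ^ (2 * j + 2))
      + (2 * j + 3) / 2 * ∑ i ∈ B, EE (fun y => (max 0 ((g y) ^ (j + 1)
          - (g (flp i y)) ^ (j + 1))) ^ 2) := by
  have h1 : ∀ x, EA B (fun y => (g y) ^ (2 * j + 2)) x ≤ (EA B g x) ^ (2 * j + 2)
      + (2 * j + 3) / 2 * ∑ i ∈ B, EA B (fun y => (max 0 ((g y) ^ (j + 1)
          - (g (flp i y)) ^ (j + 1))) ^ 2) x := by
    intro x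
    have h2 := EA_moment B g hg j x
    have h3 := EA_poincare B (fun y => (g y) ^ (j + 1)) x
    have h4 : (0 : ℝ) ≤ 2 * j + 3 := by positivity
    calc _ ≤ _ := h2
      _ ≤ (EA B g x) ^ (2 * j + 2) + (2 * j + 3) * ((1 / 2) * ∑ i ∈ B, EA B (fun y =>
          (max 0 ((g y) ^ (j + 1) - (g (flp i y)) ^ (j + 1))) ^ 2) x) := by gcongr
      _ = _ := by ring
  have h2 := EE_mono h1
  rw [EE_EA, EE_add, EE_mul, EE_sum] at h2
  simp only [EE_EA] at h2
  exact h2

/-- Jensen's inequality for powers. -/
lemma EA_pow_le (B : Finset (Fin N)) (g : (Fin N → Bool) → ℝ) (hg : ∀ y, 0 ≤ g y) (n : ℕ)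
    (x : Fin N → Bool) : (EA B g x) ^ n ≤ EA B (fun y => (g y) ^ n) x := by
  have h2 := Real.pow_arith_mean_le_arith_mean_pow (s := Finset.univ)
    (w := fun _ : Fin N → Bool => (1 : ℝ) / 2 ^ N) (z := fun z => g (mix B z x))
    (fun _ _ => by positivity) (by simp) (fun z _ => hg _) n
  have h3 : EA B g x = ∑ z : Fin N → Bool, (1 : ℝ) / 2 ^ N * g (mix B z x) := by
    unfold EA EE
    rw [← Finset.mul_sum]; ring
  have h4 : EA B (fun y => (g y) ^ n) x
      = ∑ z : Fin N → Bool, (1 : ℝ) / 2 ^ N * (g (mix B z x)) ^ n := by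
    unfold EA EE
    rw [← Finset.mul_sum]; ring
  rw [h3, h4]
  exact h2

/-- Cauchy-Schwarz for conditional expectations of square roots. -/
lemma EA_sqrt_le (A : Finset (Fin N)) (g h : (Fin N → Bool) → ℝ) (hg : ∀ y, 0 ≤ g y)
    (hh : ∀ y, 0 ≤ h y) (x : Fin N → Bool) :
    EA A (fun y => Real.sqrt (g y * h y)) x ≤ Real.sqrt (EA A g x * EA A h x) := by
  apply Real.le_sqrt_of_sq_le
  have h1 := EE_cs (fun z => Real.sqrt (g (mix A z x))) (fun z => Real.sqrt (h (mix A z x)))
  have h2 : EE (fun z => (Real.sqrt (g (mix A z x))) ^ 2) = EA A g x := by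
    apply EE_congr; intro z; exact Real.sq_sqrt (hg _)
  have h3 : EE (fun z => (Real.sqrt (h (mix A z x))) ^ 2) = EA A h x := by
    apply EE_congr; intro z; exact Real.sq_sqrt (hh _)
  rw [h2, h3] at h1
  refine le_trans (le_of_eq ?_) h1
  congr 1
  apply EE_congr; intro z
  exact Real.sqrt_mul (hg _) _

end Pool.Agent.H572R2
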