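import Mathlib

set_option autoImplicit false

namespace Pool.Agent.H572R2

open Finset

variable {N : ℕ}

/-- Flip coordinate `i` of the string `x`. -/
def flp (i : Fin N) (x : Fin N → Bool) : Fin N → Bool := Function.update x i (!(x i))

lemma flp_same (i : Fin N) (x : Fin N → Bool) : flp i x i = !(x i) := by
  simp [flp]

lemma flp_ne {i j : Fin N} (h : j ≠ i) (x : Fin N → Bool) : flp i x j = x j := by
  simp [flp, h]

lemma flp_flp (i : Fin N) (x : Fin N → Bool) : flp i (flp i x) = x := by
  funext j
  by_cases h : j = i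
  · subst h; simp [flp_same]
  · simp [flp_ne h]

lemma flp_comm (i j : Fin N) (x : Fin N → Bool) : flp i (flp j x) = flp j (flp i x) := by
  funext k
  by_cases hij : i = j
  · subst hij; rfl
  by_cases h : k = i
  · subst h
    rw [flp_same, flp_ne hij, flp_ne hij, flp_same]
  · by_cases h' : k = j
    · subst h'
      rw [flp_ne h, flp_same, flp_same, flp_ne h]
    · rw [flp_ne h, flp_ne h', flp_ne h', flp_ne h]

/-- The flip as a permutation of the cube. -/
def flpEquiv (i : Fin N) : (Fin N → Bool) ≃ (Fin N → Bool) where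
  toFun := flp i
  invFun := flp i
  left_inv := flp_flp i
  right_inv := flp_flp i

/-- Expectation over the uniform cube. -/
noncomputable def EE (f : (Fin N → Bool) → ℝ) : ℝ := (∑ x, f x) / 2 ^ N

lemma EE_flp (i : Fin N) (f : (Fin N → Bool) → ℝ) : EE (fun x => f (flp i x)) = EE f := by
  unfold EE
  congr 1
  exact Equiv.sum_comp (flpEquiv i) f

lemma EE_add (f g : (Fin N → Bool) → ℝ) : EE (fun x => f x + g x) = EE f + EE g := by
  unfold EE
  rw [Finset.sum_add_distrib, add_div]

lemma EE_sub (f g : (Fin N → Bool) → ℝ) : EE (fun x => f x - g x) = EE f - EE g := by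
  unfold EE
  rw [Finset.sum_sub_distrib, sub_div]

lemma EE_mul (c : ℝ) (f : (Fin N → Bool) → ℝ) : EE (fun x => c * f x) = c * EE f := by
  unfold EE
  rw [← Finset.mul_sum, mul_div_assoc]

lemma EE_const (c : ℝ) : EE (fun _ : Fin N → Bool => c) = c := by
  unfold EE
  simp

lemma EE_mono {f g : (Fin N → Bool) → ℝ} (h : ∀ x, f x ≤ g x) : EE f ≤ EE g := by
  unfold EE
  gcongr with x _
  exact h x

lemma EE_nonneg {f : (Fin N → Bool) → ℝ} (h : ∀ x, 0 ≤ f x) : 0 ≤ EE f := by
  unfold EE
  exact div_nonneg (Finset.sum_nonneg fun x _ => h x) (by positivity)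

lemma EE_congr {f g : (Fin N → Bool) → ℝ} (h : ∀ x, f x = g x) : EE f = EE g := by
  congr 1; funext x; exact h x

lemma EE_sum {ι : Type*} (s : Finset ι) (f : ι → (Fin N → Bool) → ℝ) :
    EE (fun x => ∑ i ∈ s, f i x) = ∑ i ∈ s, EE (f i) := by
  unfold EE
  rw [Finset.sum_comm, Finset.sum_div]

/-- Averaging over one coordinate. -/
noncomputable def avg (i : Fin N) (f : (Fin N → Bool) → ℝ) : (Fin N → Bool) → ℝ :=
  fun x => (f x + f (flp i x)) / 2

lemma EE_avg (i : Fin N) (f : (Fin N → Bool) → ℝ) : EE (avg i f) = EE f := by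
  have : EE (avg i f) = (EE f + EE (fun x => f (flp i x))) / 2 := by
    unfold avg EE
    rw [← Finset.sum_div, Finset.sum_add_distrib]; ring
  rw [this, EE_flp]; ring

lemma EE_sq_avg (i : Fin N) (f : (Fin N → Bool) → ℝ) :
    EE (fun x => (f x) ^ 2) - EE (fun x => (avg i f x) ^ 2)
      = (1 / 4) * EE (fun x => (f x - f (flp i x)) ^ 2) := by
  have h1 : EE (fun x => (f x) ^ 2) = EE (fun x => ((f x) ^ 2 + (f (flp i x)) ^ 2) / 2) := by
    have : EE (fun x => ((f x) ^ 2 + (f (flp i x)) ^ 2) / 2)
        = (EE (fun x => (f x) ^ 2) + EE (fun x => (fun y => (f y) ^ 2) (flp i x))) / 2 := by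
      unfold EE
      rw [← Finset.sum_div, Finset.sum_add_distrib]; ring
    have h2 := EE_flp i (fun y => (f y) ^ 2)
    rw [this, h2]; ring
  rw [h1, ← EE_sub, ← EE_mul]
  apply EE_congr
  intro x
  unfold avg
  ring

lemma EE_sq_avg_le (i : Fin N) (f : (Fin N → Bool) → ℝ) :
    EE (fun x => (avg i f x) ^ 2) ≤ EE (fun x => (f x) ^ 2) := by
  have := EE_sq_avg i f
  have h2 : 0 ≤ EE (fun x => (f x - f (flp i x)) ^ 2) := EE_nonneg fun x => sq_nonneg _
  linarith

/-- Averaging over a list of coordinates. -/
noncomputable def avgL (l : List (Fin N)) (f : (Fin N → Bool) → ℝ) : (Fin N → Bool) → ℝ :=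
  l.foldr (fun i g => avg i g) f

lemma EE_avgL (l : List (Fin N)) (f : (Fin N → Bool) → ℝ) : EE (avgL l f) = EE f := by
  induction l with
  | nil => rfl
  | cons i l ih =>
    show EE (avg i (avgL l f)) = EE f
    rw [EE_avg, ih]

lemma avgL_diff (l : List (Fin N)) (j : Fin N) (f : (Fin N → Bool) → ℝ) (x : Fin N → Bool) :
    avgL l f x - avgL l f (flp j x) = avgL l (fun y => f y - f (flp j y)) x := by
  induction l generalizing x with
  | nil => rfl
  | cons i l ih =>
    show avg i (avgL l f) x - avg i (avgL l f) (flp j x) = avg i (avgL l _) x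
    unfold avg
    rw [← ih, ← ih, flp_comm i j]
    ring

lemma EE_sq_avgL_le (l : List (Fin N)) (f : (Fin N → Bool) → ℝ) :
    EE (fun x => (avgL l f x) ^ 2) ≤ EE (fun x => (f x) ^ 2) := by
  induction l with
  | nil => exact le_refl _
  | cons i l ih => exact (EE_sq_avg_le i (avgL l f)).trans ih

lemma EE_sq_avgL (l : List (Fin N)) (f : (Fin N → Bool) → ℝ) :
    EE (fun x => (f x) ^ 2) - EE (fun x => (avgL l f x) ^ 2)
      ≤ (1 / 4) * (l.map (fun i => EE (fun x => (f x - f (flp i x)) ^ 2))).sum := by
  induction l with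
  | nil => simp [avgL]
  | cons i l ih =>
    have h1 := EE_sq_avg i (avgL l f)
    have h2 : EE (fun x => (avgL l f x - avgL l f (flp i x)) ^ 2)
        ≤ EE (fun x => (f x - f (flp i x)) ^ 2) := by
      calc EE (fun x => (avgL l f x - avgL l f (flp i x)) ^ 2)
          = EE (fun x => (avgL l (fun y => f y - f (flp i y)) x) ^ 2) := by
            apply EE_congr; intro x; rw [avgL_diff]
        _ ≤ _ := EE_sq_avgL_le l _
    have h3 : EE (fun x => (avgL (i :: l) f x) ^ 2) = EE (fun x => (avg i (avgL l f) x) ^ 2) := rfl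
    rw [List.map_cons, List.sum_cons, h3]
    linarith

lemma avgL_inv (l : List (Fin N)) (j : Fin N) (hj : j ∈ l) (f : (Fin N → Bool) → ℝ)
    (x : Fin N → Bool) : avgL l f (flp j x) = avgL l f x := by
  induction l generalizing x with
  | nil => simp at hj
  | cons i l ih =>
    show avg i (avgL l f) (flp j x) = avg i (avgL l f) x
    by_cases hij : j = i
    · subst hij
      unfold avg
      rw [flp_flp]; ring
    · have hj' : j ∈ l := by
        rcases List.mem_cons.1 hj with h | h
        · exact absurd h hij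
        · exact h
      unfold avg
      rw [flp_comm i j, ih hj', ih hj']

lemma const_of_inv (g : (Fin N → Bool) → ℝ) (h : ∀ j x, g (flp j x) = g x)
    (x y : Fin N → Bool) : g x = g y := by
  classical
  have key : ∀ S : Finset (Fin N), g (fun i => if i ∈ S then y i else x i) = g x := by
    intro S
    induction S using Finset.induction with
    | empty => simp
    | insert a S ha ih =>
      rw [← ih]
      by_cases hxy : y a = x a
      · congr 1
        funext i
        by_cases hi : i = a
        · subst hi; simp [ha, hxy]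
        · simp [Finset.mem_insert, hi]
      · rw [← h a (fun i => if i ∈ S then y i else x i)]
        congr 1
        funext i
        by_cases hi : i = a
        · subst hi
          rw [flp_same]
          simp only [ha, if_false, Finset.mem_insert, true_or, if_true]
          cases hh : x i <;> cases hh' : y i <;> simp_all
        · rw [flp_ne hi]
          simp [Finset.mem_insert, hi]
  have := key Finset.univ
  simpa using this.symm

/-- The Poincare inequality on the cube. -/
theorem poincare (f : (Fin N → Bool) → ℝ) :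
    EE (fun x => (f x) ^ 2) - (EE f) ^ 2
      ≤ (1 / 4) * ∑ i, EE (fun x => (f x - f (flp i x)) ^ 2) := by
  classical
  have h := EE_sq_avgL (Finset.univ.toList) f
  have h1 : ∀ x y, avgL (Finset.univ.toList) f x = avgL (Finset.univ.toList) f y := by
    apply const_of_inv
    intro j x
    apply avgL_inv
    simp
  have x0 : Fin N → Bool := fun _ => true
  have h2 : ∀ x, avgL (Finset.univ.toList) f x = EE f := by
    intro x
    rw [← EE_avgL (Finset.univ.toList) f]
    have : EE (avgL (Finset.univ.toList) f)
        = EE (fun _ => avgL (Finset.univ.toList) f x) := EE_congr fun y => h1 y x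
    rw [this, EE_const]
  have h3 : EE (fun x => (avgL (Finset.univ.toList) f x) ^ 2) = (EE f) ^ 2 := by
    rw [← EE_const (N := N) ((EE f) ^ 2)]
    apply EE_congr
    intro x
    rw [h2]
  rw [h3] at h
  have h4 : ((Finset.univ.toList).map (fun i => EE (fun x => (f x - f (flp i x)) ^ 2))).sum
      = ∑ i, EE (fun x => (f x - f (flp i x)) ^ 2) := by
    rw [Finset.sum_map_toList]
  rw [h4] at h
  exact h

/-- One-sided form of the sum of squared differences. -/
lemma EE_diff_sq (i : Fin N) (f : (Fin N → Bool) → ℝ) :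
    EE (fun x => (f x - f (flp i x)) ^ 2) = 2 * EE (fun x => (max 0 (f x - f (flp i x))) ^ 2) := by
  have h1 : ∀ x, (f x - f (flp i x)) ^ 2
      = (max 0 (f x - f (flp i x))) ^ 2
        + (fun y => (max 0 (f y - f (flp i y))) ^ 2) (flp i x) := by
    intro x
    simp only [flp_flp]
    rcases le_total (f x) (f (flp i x)) with h | h
    · rw [max_eq_left (by linarith), max_eq_right (by linarith)]; ring
    · rw [max_eq_right (by linarith), max_eq_left (by linarith)]; ring
  have h2 := EE_flp i (fun y => (max 0 (f y - f (flp i y))) ^ 2)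
  rw [EE_congr h1, EE_add, h2]; ring

/-- The one-sided Poincare inequality on the cube. -/
theorem poincare' (f : (Fin N → Bool) → ℝ) :
    EE (fun x => (f x) ^ 2) - (EE f) ^ 2
      ≤ (1 / 2) * ∑ i, EE (fun x => (max 0 (f x - f (flp i x))) ^ 2) := by
  have h := poincare f
  have h2 : ∑ i, EE (fun x => (f x - f (flp i x)) ^ 2)
      = 2 * ∑ i, EE (fun x => (max 0 (f x - f (flp i x))) ^ 2) := by
    rw [Finset.mul_sum]
    apply Finset.sum_congr rfl
    intro i _
    exact EE_diff_sq i f
  rw [h2] at h
  linarith

end Pool.Agent.H572R2
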