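import Pool.Agent.H572R2.VarBound

set_option autoImplicit false

namespace Pool.Agent.H572R2

open Finset

variable {N : ℕ}

/-- Overwrite the coordinates in `S` by `a`. -/
def mix (S : Finset (Fin N)) (a x : Fin N → Bool) : Fin N → Bool :=
  fun i => if i ∈ S then a i else x i

lemma mix_flp_mem {S : Finset (Fin N)} {i : Fin N} (hi : i ∈ S) (a x : Fin N → Bool) :
    mix S a (flp i x) = mix S a x := by
  funext k
  unfold mix
  split_ifs with hk
  · rfl
  · have hki : k ≠ i := by
      rintro rfl
      exact hk hi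
    exact flp_ne hki x

lemma mix_flp_not_mem {S : Finset (Fin N)} {i : Fin N} (hi : i ∉ S) (a x : Fin N → Bool) :
    mix S a (flp i x) = flp i (mix S a x) := by
  funext k
  by_cases hk : k = i
  · subst hk
    rw [flp_same]
    unfold mix
    rw [if_neg hi, if_neg hi, flp_same]
  · rw [flp_ne hk]
    unfold mix
    rw [flp_ne hk]

/-- Expectation over the subcube given by `S`, `a`. -/
noncomputable def Ex (S : Finset (Fin N)) (a : Fin N → Bool) (f : (Fin N → Bool) → ℝ) : ℝ :=
  EE (fun x => f (mix S a x))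

lemma Ex_split {S : Finset (Fin N)} {i : Fin N} (hi : i ∉ S) (a : Fin N → Bool)
    (f : (Fin N → Bool) → ℝ) :
    Ex S a f = (Ex (insert i S) (Function.update a i true) f
      + Ex (insert i S) (Function.update a i false) f) / 2 := by
  classical
  have hm : ∀ c x, mix (insert i S) (Function.update a i c) x
      = Function.update (mix S a x) i c := by
    intro c x
    funext k
    by_cases hk : k = i
    · subst hk; simp [mix]
    · simp [mix, hk]
  have h1 : ∀ y : Fin N → Bool, f (Function.update y i true) + f (Function.update y i false)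
      = f y + f (flp i y) := by
    intro y
    unfold flp
    cases hy : y i
    · have : Function.update y i false = y := by rw [← hy]; exact Function.update_eq_self i y
      rw [this]; simp [add_comm]
    · have : Function.update y i true = y := by rw [← hy]; exact Function.update_eq_self i y
      rw [this]; simp
  have h2 : Ex (insert i S) (Function.update a i true) f
      + Ex (insert i S) (Function.update a i false) f = Ex S a f + Ex S a f := by
    have e1 : Ex (insert i S) (Function.update a i true) f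
        + Ex (insert i S) (Function.update a i false) f
        = EE (fun x => f (mix S a x) + (fun y => f (mix S a y)) (flp i x)) := by
      unfold Ex
      rw [← EE_add]
      apply EE_congr
      intro x
      rw [hm, hm, h1]
      simp only
      rw [mix_flp_not_mem hi]
    rw [e1, EE_add, EE_flp i (fun y => f (mix S a y))]
    rfl
  rw [h2]; ring

/-- Global hypotheses. -/
structure GSys (q : ℝ) (m : ℕ → Fin N → (Fin N → Bool) → ℝ) : Prop where
  nonneg : ∀ t k x, 0 ≤ m t k x
  le_one : ∀ t k x, m t k x ≤ 1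
  sum_le : ∀ t x, ∑ k, m t k x ≤ q
  zero : ∀ k x y, m 0 k x = m 0 k y
  grad : ∀ t k x, ∃ ω : ℕ → Fin N → ℝ, (∀ u i, 0 ≤ ω u i) ∧
    (∀ u, ∑ i, ω u i ≤ q * m t k x) ∧
    ∀ i, (max 0 (m t k x - m t k (flp i x))) ^ 2
      ≤ 16 * t * ∑ u ∈ Finset.range t, ω u i * m u i (flp i x)

lemma GSys.sys {q : ℝ} {m : ℕ → Fin N → (Fin N → Bool) → ℝ} (G : GSys q m)
    (S : Finset (Fin N)) (a : Fin N → Bool) :
    Sys (Sᶜ) q (fun t k x => m t k (mix S a x)) where
  nonneg := fun t k x => G.nonneg t k _
  le_one := fun t k x => G.le_one t k _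
  sum_le := fun t x => (Finset.sum_le_sum_of_subset_of_nonneg (Finset.subset_univ _)
    fun k _ _ => G.nonneg t k _).trans (G.sum_le t _)
  zero := fun k x y => G.zero k _ _
  inv := by
    intro t k i hi x
    have : i ∈ S := by simpa using hi
    rw [mix_flp_mem this]
  grad := by
    intro t k x
    obtain ⟨ω, h1, h2, h3⟩ := G.grad t k (mix S a x)
    refine ⟨ω, h1, fun u => ?_, fun i => ?_⟩
    · exact (Finset.sum_le_sum_of_subset_of_nonneg (Finset.subset_univ _)
        fun i _ _ => h1 u i).trans (h2 u)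
    · by_cases hi : i ∈ S
      · rw [mix_flp_mem hi, sub_self, max_self]
        have : 0 ≤ 16 * (t : ℝ) * ∑ u ∈ Finset.range t, ω u i * m u i (mix S a x) := by
          have : 0 ≤ ∑ u ∈ Finset.range t, ω u i * m u i (mix S a x) :=
            Finset.sum_nonneg fun u _ => mul_nonneg (h1 u i) (G.nonneg u i _)
          positivity
        simpa using this
      · rw [mix_flp_not_mem hi]
        exact h3 i

/-- Remaining query magnitude. -/
noncomputable def AA (m : ℕ → Fin N → (Fin N → Bool) → ℝ) (r : ℕ) (S : Finset (Fin N))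
    (a : Fin N → Bool) : ℝ := ∑ t ∈ Finset.range r, ∑ k ∈ Sᶜ, Ex S a (m t k)

lemma AA_split {q : ℝ} {m : ℕ → Fin N → (Fin N → Bool) → ℝ} (G : GSys q m) (r : ℕ)
    {S : Finset (Fin N)} {i : Fin N} (hi : i ∉ S) (a : Fin N → Bool) {t : ℕ} (ht : t < r)
    {τ : ℝ} (hτ : τ ≤ Ex S a (m t i)) :
    (AA m r (insert i S) (Function.update a i true)
      + AA m r (insert i S) (Function.update a i false)) / 2 ≤ AA m r S a - τ := by
  classical
  have hc : (insert i S)ᶜ = (Sᶜ).erase i := by
    ext k; simp
  have h1 : (AA m r (insert i S) (Function.update a i true)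
      + AA m r (insert i S) (Function.update a i false)) / 2
      = ∑ t ∈ Finset.range r, ∑ k ∈ (Sᶜ).erase i, Ex S a (m t k) := by
    unfold AA
    rw [hc, ← Finset.sum_add_distrib, Finset.sum_div]
    apply Finset.sum_congr rfl; intro t _
    rw [← Finset.sum_add_distrib, Finset.sum_div]
    apply Finset.sum_congr rfl; intro k _
    rw [Ex_split hi a (m t k)]
  have h2 : AA m r S a = ∑ t ∈ Finset.range r, ∑ k ∈ (Sᶜ).erase i, Ex S a (m t k)
      + ∑ t ∈ Finset.range r, Ex S a (m t i) := by
    unfold AA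
    rw [← Finset.sum_add_distrib]
    apply Finset.sum_congr rfl; intro t _
    rw [Finset.sum_erase_add]
    simpa using hi
  have h3 : Ex S a (m t i) ≤ ∑ t ∈ Finset.range r, Ex S a (m t i) :=
    Finset.single_le_sum (f := fun t => Ex S a (m t i))
      (fun t _ => EE_nonneg fun x => G.nonneg t i _) (Finset.mem_range.2 ht)
  rw [h1, h2]
  linarith

/-- Existence of a good node. -/
lemma leaf {q : ℝ} {m : ℕ → Fin N → (Fin N → Bool) → ℝ} (G : GSys q m) (r : ℕ)
    (p : (Fin N → Bool) → ℝ) (e β l τ : ℝ) (hl : 0 ≤ l) (hτ : 0 < τ)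
    (hlight : ∀ (S : Finset (Fin N)) (a : Fin N → Bool),
      (∀ t < r, ∀ k ∈ Sᶜ, Ex S a (m t k) ≤ τ) →
      Ex S a (fun x => (p x) ^ 2) - (Ex S a p) ^ 2 ≤ β) :
    ∀ (n : ℕ) (S : Finset (Fin N)) (a : Fin N → Bool), (Sᶜ).card = n →
      ∃ (S' : Finset (Fin N)) (a' : Fin N → Bool),
        Ex S a (fun x => (p x - e) ^ 2) - β - (l / τ) * AA m r S a
          ≤ (Ex S' a' p - e) ^ 2 - l * ((S'.card : ℝ) - S.card) := by
  classical
  intro n
  induction n with
  | zero =>
    intro S a hS
    refine ⟨S, a, ?_⟩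
    have hS' : Sᶜ = ∅ := Finset.card_eq_zero.1 hS
    have h1 := hlight S a (by intro t _ k hk; rw [hS'] at hk; simp at hk)
    have h2 : Ex S a (fun x => (p x - e) ^ 2)
        = Ex S a (fun x => (p x) ^ 2) - 2 * e * Ex S a p + e ^ 2 := by
      unfold Ex
      rw [← EE_mul, ← EE_sub, ← EE_const (N := N) (e ^ 2), ← EE_add]
      apply EE_congr; intro x
      show (p (mix S a x) - e) ^ 2 = (p (mix S a x)) ^ 2 - 2 * e * p (mix S a x) + e ^ 2
      ring
    have h3 : 0 ≤ (l / τ) * AA m r S a := by
      have : 0 ≤ AA m r S a := Finset.sum_nonneg fun t _ => Finset.sum_nonneg fun k _ =>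
        EE_nonneg fun x => G.nonneg t k _
      positivity
    rw [h2]
    nlinarith
  | succ n ih =>
    intro S a hS
    by_cases hlt : ∀ t < r, ∀ k ∈ Sᶜ, Ex S a (m t k) ≤ τ
    · refine ⟨S, a, ?_⟩
      have h1 := hlight S a hlt
      have h2 : Ex S a (fun x => (p x - e) ^ 2)
          = Ex S a (fun x => (p x) ^ 2) - 2 * e * Ex S a p + e ^ 2 := by
        unfold Ex
        rw [← EE_mul, ← EE_sub, ← EE_const (N := N) (e ^ 2), ← EE_add]
        apply EE_congr; intro x
        show (p (mix S a x) - e) ^ 2 = (p (mix S a x)) ^ 2 - 2 * e * p (mix S a x) + e ^ 2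
        ring
      have h3 : 0 ≤ (l / τ) * AA m r S a := by
        have : 0 ≤ AA m r S a := Finset.sum_nonneg fun t _ => Finset.sum_nonneg fun k _ =>
          EE_nonneg fun x => G.nonneg t k _
        positivity
      rw [h2]
      nlinarith
    · push Not at hlt
      obtain ⟨t, ht, i, hi, hti⟩ := hlt
      have hi' : i ∉ S := by simpa using hi
      have hc : ((insert i S)ᶜ).card = n := by
        have : (insert i S)ᶜ = (Sᶜ).erase i := by
          ext k; simp
        rw [this, Finset.card_erase_of_mem hi, hS]; rfl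
      obtain ⟨S1, a1, h1⟩ := ih (insert i S) (Function.update a i true) hc
      obtain ⟨S0, a0, h0⟩ := ih (insert i S) (Function.update a i false) hc
      have hA := AA_split G r hi' a ht hti.le
      have hE := Ex_split hi' a (fun x => (p x - e) ^ 2)
      have hcard : ((insert i S).card : ℝ) = S.card + 1 := by
        rw [Finset.card_insert_of_notMem hi']; push_cast; ring
      rw [hcard] at h1 h0
      have hA' : (l / τ) * ((AA m r (insert i S) (Function.update a i true)
          + AA m r (insert i S) (Function.update a i false)) / 2)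
          ≤ (l / τ) * AA m r S a - l := by
        have := mul_le_mul_of_nonneg_left hA (div_nonneg hl hτ.le)
        refine this.trans (le_of_eq ?_)
        field_simp
      rcases le_total (Ex (insert i S) (Function.update a i true) (fun x => (p x - e) ^ 2)
          - (l / τ) * AA m r (insert i S) (Function.update a i true))
        (Ex (insert i S) (Function.update a i false) (fun x => (p x - e) ^ 2)
          - (l / τ) * AA m r (insert i S) (Function.update a i false)) with h | h
      · refine ⟨S0, a0, ?_⟩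
        rw [hE]
        linarith
      · refine ⟨S1, a1, ?_⟩
        rw [hE]
        linarith

lemma mix_empty (a x : Fin N → Bool) : mix ∅ a x = x := by
  funext i; simp [mix]

lemma Ex_empty (a : Fin N → Bool) (f : (Fin N → Bool) → ℝ) : Ex ∅ a f = EE f := by
  unfold Ex; simp only [mix_empty]

/-- The abstract main theorem. -/
theorem abstract_main {q : ℝ} (hq : 1 ≤ q) {m : ℕ → Fin N → (Fin N → Bool) → ℝ}
    (G : GSys q m) (r : ℕ) (hr : 1 ≤ r)
    (p : (Fin N → Bool) → ℝ) (hp0 : ∀ x, 0 ≤ p x) (hp1 : ∀ x, p x ≤ 1)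
    (pgrad : ∀ x, ∃ ω : ℕ → Fin N → ℝ, (∀ u i, 0 ≤ ω u i) ∧ (∀ u, ∑ i, ω u i ≤ q) ∧
      ∀ i, (max 0 (p x - p (flp i x))) ^ 2
        ≤ 16 * r * ∑ u ∈ Finset.range r, ω u i * m u i (flp i x))
    (V : ℝ) (hV : V = EE (fun x => (p x - EE p) ^ 2)) (hV0 : 0 < V) :
    ∃ (S : Finset (Fin N)) (a : Fin N → Bool),
      (S.card : ℝ) ≤ 204800 * (r * q) ^ 5 * (512 * r ^ 4 * q) ^ (2 * r) / V ^ 3 ∧
      V / 2 ≤ (Ex S a p - EE p) ^ 2 := by
  classical
  have hr1 : (1 : ℝ) ≤ r := by exact_mod_cast hr
  have hq0 : 0 < q := by linarith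
  set K : ℝ := 512 * r ^ 4 * q with hK
  have hK1 : 1 ≤ K := by
    have : (1 : ℝ) ≤ (r : ℝ) ^ 4 := one_le_pow₀ hr1
    calc (1 : ℝ) ≤ 512 * 1 * 1 := by norm_num
      _ ≤ _ := by rw [hK]; gcongr
  have hKr : 1 ≤ K ^ r := one_le_pow₀ hK1
  have hr2 : (1 : ℝ) ≤ (r : ℝ) ^ 2 := one_le_pow₀ hr1
  have hq2 : (1 : ℝ) ≤ q ^ 2 := one_le_pow₀ hq
  set D : ℝ := 160 * r ^ 2 * q ^ 2 * K ^ r with hD
  have hD1 : 1 ≤ D := by
    calc (1 : ℝ) ≤ 160 * 1 * 1 * 1 := by norm_num
      _ ≤ _ := by rw [hD]; gcongr
  have hV1 : V ≤ 1 := by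
    rw [hV]
    calc EE (fun x => (p x - EE p) ^ 2) ≤ EE (fun _ => (1 : ℝ)) := by
          apply EE_mono
          intro x
          have e0 : 0 ≤ EE p := EE_nonneg hp0
          have e1 : EE p ≤ 1 := (EE_mono hp1).trans (le_of_eq (EE_const 1))
          have := hp0 x
          have := hp1 x
          nlinarith
      _ = 1 := EE_const 1
  set b : ℝ := V / D with hb
  have hb0 : 0 < b := by positivity
  have hb1 : b ≤ 1 := by
    rw [hb, div_le_one (by linarith)]; linarith
  set τ : ℝ := b ^ 2 / 2 with hτ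
  have hτ0 : 0 < τ := by positivity
  have hlight : ∀ (S : Finset (Fin N)) (a : Fin N → Bool),
      (∀ t < r, ∀ k ∈ Sᶜ, Ex S a (m t k) ≤ τ) →
      Ex S a (fun x => (p x) ^ 2) - (Ex S a p) ^ 2 ≤ V / 4 := by
    intro S a h
    have h1 := var_le' (G.sys S a) hq r hr b hb0 hb1 h (fun x => p (mix S a x))
      (by
        intro i hi x
        have : i ∈ S := by simpa using hi
        rw [mix_flp_mem this])
      (by
        intro x
        obtain ⟨ω, h1, h2, h3⟩ := pgrad (mix S a x)
        refine ⟨ω, h1, fun u => ?_, fun i => ?_⟩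
        · exact (Finset.sum_le_sum_of_subset_of_nonneg (Finset.subset_univ _)
            fun i _ _ => h1 u i).trans (h2 u)
        · by_cases hi : i ∈ S
          · rw [mix_flp_mem hi, sub_self, max_self]
            have : 0 ≤ 16 * (r : ℝ) * ∑ u ∈ Finset.range r, ω u i * m u i (mix S a x) := by
              have : 0 ≤ ∑ u ∈ Finset.range r, ω u i * m u i (mix S a x) :=
                Finset.sum_nonneg fun u _ => mul_nonneg (h1 u i) (G.nonneg u i _)
              positivity
            simpa using this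
          · rw [mix_flp_not_mem hi]
            exact h3 i)
    refine h1.trans (le_of_eq ?_)
    rw [hb, hD]
    field_simp
    ring
  set l : ℝ := τ * V / (4 * (r * q)) with hl
  have hrq : 0 < r * q := by positivity
  have hl0 : 0 < l := by positivity
  obtain ⟨S, a, h⟩ := leaf G r p (EE p) (V / 4) l τ hl0.le hτ0 hlight _ ∅ (fun _ => true) rfl
  rw [Ex_empty, ← hV, Finset.card_empty] at h
  have hA : AA m r ∅ (fun _ => true) ≤ r * q := by
    unfold AA
    calc ∑ t ∈ Finset.range r, ∑ k ∈ (∅ : Finset (Fin N))ᶜ, Ex ∅ (fun _ => true) (m t k)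
        ≤ ∑ t ∈ Finset.range r, q := by
          apply Finset.sum_le_sum; intro t _
          rw [Finset.compl_empty]
          calc ∑ k, Ex ∅ (fun _ => true) (m t k) = EE (fun x => ∑ k, m t k x) := by
                rw [EE_sum]
                apply Finset.sum_congr rfl; intro k _
                rw [Ex_empty]
            _ ≤ EE (fun _ => q) := EE_mono fun x => G.sum_le t x
            _ = q := EE_const q
      _ = r * q := by rw [Finset.sum_const, Finset.card_range, nsmul_eq_mul]
  have hlA : (l / τ) * AA m r ∅ (fun _ => true) ≤ V / 4 := by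
    calc (l / τ) * AA m r ∅ (fun _ => true) ≤ (l / τ) * (r * q) := by gcongr
      _ = V / 4 := by rw [hl]; field_simp
  have hdev : V / 2 + l * S.card ≤ (Ex S a p - EE p) ^ 2 := by
    push_cast at h
    linarith
  have hlS : 0 ≤ l * S.card := by positivity
  refine ⟨S, a, ?_, by linarith⟩
  have hdev1 : (Ex S a p - EE p) ^ 2 ≤ 1 := by
    have e0 : 0 ≤ EE p := EE_nonneg hp0
    have e1 : EE p ≤ 1 := (EE_mono hp1).trans (le_of_eq (EE_const 1))
    have e2 : 0 ≤ Ex S a p := EE_nonneg fun x => hp0 _
    have e3 : Ex S a p ≤ 1 := (EE_mono fun x => hp1 _).trans (le_of_eq (EE_const 1))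
    nlinarith
  have hS : l * S.card ≤ 1 := by linarith
  have hfin : 1 / l = 204800 * (r * q) ^ 5 * K ^ (2 * r) / V ^ 3 := by
    rw [hl, hτ, hb, hD]
    field_simp
    ring
  rw [← hfin, le_div_iff₀ hl0]
  linarith

end Pool.Agent.H572R2
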