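import Pool.Agent.H572R2.Cube

set_option autoImplicit false

namespace Pool.Agent.H572R2

open Finset

variable {N : ℕ}

lemma EE_cs (g h : (Fin N → Bool) → ℝ) :
    (EE (fun x => g x * h x)) ^ 2 ≤ EE (fun x => (g x) ^ 2) * EE (fun x => (h x) ^ 2) := by
  unfold EE
  rw [div_pow, div_mul_div_comm, ← pow_two]
  gcongr
  exact Finset.sum_mul_sq_le_sq_mul_sq _ _ _

lemma pow_diff_le (a b : ℝ) (hb : 0 ≤ b) (hab : b ≤ a) (j : ℕ) :
    a ^ (j + 1) - b ^ (j + 1) ≤ (j + 1) * a ^ j * (a - b) := by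
  have ha : 0 ≤ a := hb.trans hab
  induction j with
  | zero => simp
  | succ j ih =>
    have h1 : b ^ (j + 1) ≤ a ^ (j + 1) := pow_le_pow_left₀ hb hab _
    have h2 : a ^ (j + 1 + 1) - b ^ (j + 1 + 1)
        = a * (a ^ (j + 1) - b ^ (j + 1)) + (a - b) * b ^ (j + 1) := by ring
    rw [h2]
    have h3 : a * (a ^ (j + 1) - b ^ (j + 1)) ≤ a * ((j + 1) * a ^ j * (a - b)) :=
      mul_le_mul_of_nonneg_left ih ha
    have h4 : (a - b) * b ^ (j + 1) ≤ (a - b) * a ^ (j + 1) :=
      mul_le_mul_of_nonneg_left h1 (by linarith)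
    push_cast
    calc a * (a ^ (j + 1) - b ^ (j + 1)) + (a - b) * b ^ (j + 1)
        ≤ a * ((j + 1) * a ^ j * (a - b)) + (a - b) * a ^ (j + 1) := add_le_add h3 h4
      _ = ((j : ℝ) + 1 + 1) * a ^ (j + 1) * (a - b) := by ring

lemma young (A B L ε : ℝ) (hA : 0 ≤ A) (hB : 0 ≤ B) (hL : 0 ≤ L) (hε : 0 < ε) (n : ℕ) :
    L * A ^ n * B ≤ ε * A ^ (n + 1) + L * (L / ε) ^ n * B ^ (n + 1) := by
  rcases le_total (L * B) (ε * A) with h | h
  · have h1 : L * A ^ n * B ≤ ε * A ^ (n + 1) := by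
      calc L * A ^ n * B = A ^ n * (L * B) := by ring
        _ ≤ A ^ n * (ε * A) := mul_le_mul_of_nonneg_left h (pow_nonneg hA n)
        _ = _ := by ring
    have h2 : 0 ≤ L * (L / ε) ^ n * B ^ (n + 1) := by positivity
    linarith
  · have h0 : A ≤ (L / ε) * B := by
      rw [div_mul_eq_mul_div, le_div_iff₀ hε]; linarith
    have h1 : A ^ n ≤ ((L / ε) * B) ^ n := pow_le_pow_left₀ hA h0 n
    have h2 : 0 ≤ ε * A ^ (n + 1) := by positivity
    have h3 : L * A ^ n * B ≤ L * (L / ε) ^ n * B ^ (n + 1) := by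
      calc L * A ^ n * B ≤ L * ((L / ε) * B) ^ n * B := by gcongr
        _ = _ := by rw [mul_pow]; ring
    linarith

lemma add_pow_le_two (a b : ℝ) (ha : 0 ≤ a) (hb : 0 ≤ b) (n : ℕ) :
    (a + b) ^ n ≤ 2 ^ n * (a ^ n + b ^ n) := by
  rcases le_total a b with h | h
  · calc (a + b) ^ n ≤ (2 * b) ^ n := pow_le_pow_left₀ (by positivity) (by linarith) n
      _ = 2 ^ n * b ^ n := by rw [mul_pow]
      _ ≤ 2 ^ n * (a ^ n + b ^ n) := by
        have : 0 ≤ a ^ n := pow_nonneg ha n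
        gcongr; linarith
  · calc (a + b) ^ n ≤ (2 * a) ^ n := pow_le_pow_left₀ (by positivity) (by linarith) n
      _ = 2 ^ n * a ^ n := by rw [mul_pow]
      _ ≤ 2 ^ n * (a ^ n + b ^ n) := by
        have : 0 ≤ b ^ n := pow_nonneg hb n
        gcongr; linarith

/-- Abstract data extracted from a layered quantum algorithm. -/
structure Sys (F : Finset (Fin N)) (q : ℝ) (m : ℕ → Fin N → (Fin N → Bool) → ℝ) : Prop where
  nonneg : ∀ t k x, 0 ≤ m t k x
  le_one : ∀ t k x, m t k x ≤ 1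
  sum_le : ∀ t x, ∑ k ∈ F, m t k x ≤ q
  zero : ∀ k x y, m 0 k x = m 0 k y
  inv : ∀ t k i, i ∉ F → ∀ x, m t k (flp i x) = m t k x
  grad : ∀ t k x, ∃ ω : ℕ → Fin N → ℝ, (∀ u i, 0 ≤ ω u i) ∧
    (∀ u, ∑ i ∈ F, ω u i ≤ q * m t k x) ∧
    ∀ i, (max 0 (m t k x - m t k (flp i x))) ^ 2
      ≤ 16 * t * ∑ u ∈ Finset.range t, ω u i * m u i (flp i x)

/-- Truncated excess. -/
noncomputable def exc (m : ℕ → Fin N → (Fin N → Bool) → ℝ) (a : ℝ) (t : ℕ) (k : Fin N)
    (x : Fin N → Bool) : ℝ := max 0 (m t k x - a)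

/-- Total moment of the truncated excess. -/
noncomputable def RR (F : Finset (Fin N)) (m : ℕ → Fin N → (Fin N → Bool) → ℝ) (a : ℝ)
    (e t : ℕ) : ℝ := ∑ k ∈ F, EE (fun x => (exc m a t k x) ^ e)

section
variable {F : Finset (Fin N)} {q : ℝ} {m : ℕ → Fin N → (Fin N → Bool) → ℝ} {a : ℝ}

lemma exc_nonneg (t : ℕ) (k : Fin N) (x : Fin N → Bool) : 0 ≤ exc m a t k x := le_max_left _ _

lemma exc_le (S : Sys F q m) (ha : 0 ≤ a) (t : ℕ) (k : Fin N) (x : Fin N → Bool) :
    exc m a t k x ≤ m t k x := by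
  unfold exc
  exact max_le (S.nonneg t k x) (by linarith)

lemma m_le_exc (t : ℕ) (k : Fin N) (x : Fin N → Bool) : m t k x ≤ exc m a t k x + a := by
  unfold exc
  have := le_max_right 0 (m t k x - a)
  linarith

lemma exc_diff (t : ℕ) (k i : Fin N) (x : Fin N → Bool)
    (h : exc m a t k (flp i x) ≤ exc m a t k x) :
    exc m a t k x - exc m a t k (flp i x) ≤ max 0 (m t k x - m t k (flp i x)) := by
  unfold exc at *
  rcases le_total (m t k x - a) 0 with h1 | h1
  · rw [max_eq_left h1]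
    have : 0 ≤ max 0 (m t k (flp i x) - a) := le_max_left _ _
    have h3 : 0 ≤ max 0 (m t k x - m t k (flp i x)) := le_max_left _ _
    linarith
  · rw [max_eq_right h1]
    have h2 : m t k (flp i x) - a ≤ max 0 (m t k (flp i x) - a) := le_max_right _ _
    have h3 : m t k x - m t k (flp i x) ≤ max 0 (m t k x - m t k (flp i x)) := le_max_right _ _
    linarith

/-- Step 1: moments are controlled by the one-sided gradient. -/
lemma moment_le (S : Sys F q m) (ha : 0 < a) (t : ℕ) (k : Fin N)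
    (hl : EE (m t k) ≤ a / 2) (j : ℕ) :
    EE (fun x => (exc m a t k x) ^ (2 * j + 2))
      ≤ ∑ i ∈ F, EE (fun x => (max 0 ((exc m a t k x) ^ (j + 1)
          - (exc m a t k (flp i x)) ^ (j + 1))) ^ 2) := by
  classical
  set f := exc m a t k with hf
  set h : (Fin N → Bool) → ℝ := fun x => if 0 < f x then 1 else 0 with hh
  have hf0 : ∀ x, 0 ≤ f x := fun x => exc_nonneg t k x
  have h1 : EE h ≤ 1 / 2 := by
    have h2 : EE (fun x => a * h x) ≤ EE (m t k) := by
      apply EE_mono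
      intro x
      simp only [hh]
      split_ifs with hx
      · have : 0 < max 0 (m t k x - a) := hx
        have h3 : 0 < m t k x - a := by
          by_contra hcon
          rw [max_eq_left (not_lt.1 hcon)] at this
          exact lt_irrefl _ this
        linarith
      · have := S.nonneg t k x
        linarith
    rw [EE_mul] at h2
    have h4 : a * EE h ≤ a * (1 / 2) := by linarith
    exact le_of_mul_le_mul_left h4 ha
  have h2 : (EE (fun x => (f x) ^ (j + 1))) ^ 2 ≤ (1 / 2) * EE (fun x => (f x) ^ (2 * j + 2)) := by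
    have h3 : EE (fun x => (f x) ^ (j + 1)) = EE (fun x => (f x) ^ (j + 1) * h x) := by
      apply EE_congr
      intro x
      simp only [hh]
      split_ifs with hx
      · ring
      · have : f x = 0 := le_antisymm (not_lt.1 hx) (hf0 x)
        rw [this]; simp
    rw [h3]
    have h4 := EE_cs (fun x => (f x) ^ (j + 1)) h
    have h5 : EE (fun x => ((f x) ^ (j + 1)) ^ 2) = EE (fun x => (f x) ^ (2 * j + 2)) := by
      apply EE_congr; intro x; ring
    have h6 : EE (fun x => (h x) ^ 2) = EE h := by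
      apply EE_congr; intro x; simp only [hh]; split_ifs <;> norm_num
    rw [h5, h6] at h4
    have h7 : 0 ≤ EE (fun x => (f x) ^ (2 * j + 2)) := EE_nonneg fun x => pow_nonneg (hf0 x) _
    calc _ ≤ EE (fun x => (f x) ^ (2 * j + 2)) * EE h := h4
      _ ≤ EE (fun x => (f x) ^ (2 * j + 2)) * (1 / 2) := by gcongr
      _ = _ := by ring
  have h3 := poincare' (fun x => (f x) ^ (j + 1))
  have h5 : EE (fun x => ((f x) ^ (j + 1)) ^ 2) = EE (fun x => (f x) ^ (2 * j + 2)) := by
    apply EE_congr; intro x; ring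
  rw [h5] at h3
  have h8 : ∑ i, EE (fun x => (max 0 ((f x) ^ (j + 1) - (f (flp i x)) ^ (j + 1))) ^ 2)
      = ∑ i ∈ F, EE (fun x => (max 0 ((f x) ^ (j + 1) - (f (flp i x)) ^ (j + 1))) ^ 2) := by
    symm
    apply Finset.sum_subset (Finset.subset_univ F)
    intro i _ hi
    refine (EE_congr (g := fun _ => 0) ?_).trans (EE_const 0)
    intro x
    have : f (flp i x) = f x := by
      simp only [hf, exc, S.inv t k i hi x]
    rw [this]; simp
  rw [h8] at h3
  linarith

/-- Step 2: pointwise gradient bound. -/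
lemma grad_pow (t : ℕ) (k i : Fin N) (x : Fin N → Bool) (j : ℕ) (G : ℝ)
    (hG : (max 0 (m t k x - m t k (flp i x))) ^ 2 ≤ G) :
    (max 0 ((exc m a t k x) ^ (j + 1) - (exc m a t k (flp i x)) ^ (j + 1))) ^ 2
      ≤ (j + 1) ^ 2 * (exc m a t k x) ^ (2 * j) * G := by
  have hf0 : ∀ y, 0 ≤ exc m a t k y := fun y => exc_nonneg t k y
  have hG0 : 0 ≤ G := (sq_nonneg _).trans hG
  rcases le_total (exc m a t k x) (exc m a t k (flp i x)) with h | h
  · have h1 : (exc m a t k x) ^ (j + 1) ≤ (exc m a t k (flp i x)) ^ (j + 1) :=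
      pow_le_pow_left₀ (hf0 x) h _
    rw [max_eq_left (by linarith)]
    have := hf0 x
    have h0 : (0 : ℝ) ^ 2 = 0 := by norm_num
    rw [h0]
    positivity
  · have h1 : (exc m a t k (flp i x)) ^ (j + 1) ≤ (exc m a t k x) ^ (j + 1) :=
      pow_le_pow_left₀ (hf0 _) h _
    rw [max_eq_right (by linarith)]
    have h2 := pow_diff_le _ _ (hf0 (flp i x)) h j
    have h3 := exc_diff (m := m) (a := a) t k i x h
    have hx := hf0 x
    have h4 : (exc m a t k x) ^ (j + 1) - (exc m a t k (flp i x)) ^ (j + 1)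
        ≤ (j + 1) * (exc m a t k x) ^ j * max 0 (m t k x - m t k (flp i x)) := by
      refine h2.trans ?_
      gcongr
    calc _ ≤ ((j + 1) * (exc m a t k x) ^ j * max 0 (m t k x - m t k (flp i x))) ^ 2 := by
          apply pow_le_pow_left₀ (by linarith) h4
      _ = (j + 1) ^ 2 * (exc m a t k x) ^ (2 * j) * (max 0 (m t k x - m t k (flp i x))) ^ 2 := by
          ring
      _ ≤ _ := by gcongr

end

end Pool.Agent.H572R2
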