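import Pool.Agent.H572R2.Avg

set_option autoImplicit false

namespace Pool.Agent.H572R2

open Finset

variable {N : ℕ}

/-- The time steps before `v` at which position `i` may be read. -/
def reads (W : ℕ → Finset (Fin N)) (v : ℕ) (i : Fin N) : Finset ℕ :=
  (Finset.range v).filter (fun u => i ∈ W u)

/-- Gradient bound of a function at time `v`. -/
def Grd (F : Finset (Fin N)) (q : ℝ) (m : ℕ → Fin N → (Fin N → Bool) → ℝ) (v : ℕ)
    (f : (Fin N → Bool) → ℝ) : Prop :=
  ∀ x, ∃ ω : ℕ → Fin N → ℝ, (∀ u i, 0 ≤ ω u i) ∧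
    (∀ u, ∑ i ∈ F, ω u i ≤ q * f x) ∧
    ∀ i, f x - f (flp i x) ≤ 4 * ∑ u ∈ Finset.range v, Real.sqrt (ω u i * m u i (flp i x))

/-- Abstract data of an algorithm with restricted reads. -/
structure RSys (F : Finset (Fin N)) (W : ℕ → Finset (Fin N)) (q : ℝ)
    (m : ℕ → Fin N → (Fin N → Bool) → ℝ) : Prop where
  nonneg : ∀ t k x, 0 ≤ m t k x
  le_one : ∀ t k x, m t k x ≤ 1
  sum_le : ∀ t x, ∑ k ∈ F, m t k x ≤ q
  supp : ∀ t k x, k ∉ W t → m t k x = 0
  inv : ∀ t k i, i ∉ F → ∀ x, m t k (flp i x) = m t k x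
  grad : ∀ v k, Grd F q m v (m v k)

variable {F : Finset (Fin N)} {W : ℕ → Finset (Fin N)} {q : ℝ}
  {m : ℕ → Fin N → (Fin N → Bool) → ℝ}

/-- Averaged gradient bound. -/
lemma avg_grad (S : RSys F W q m) (v : ℕ) (f : (Fin N → Bool) → ℝ)
    (G : Grd F q m v f) (A : Finset (Fin N)) (r : ℕ) (hr : ∀ i, (reads W v i).card ≤ r) :
    ∃ ω : (Fin N → Bool) → ℕ → Fin N → ℝ, (∀ x u i, 0 ≤ ω x u i) ∧
      (∀ x u, ∑ i ∈ F, ω x u i ≤ q * EA A f x) ∧
      ∀ x i, i ∉ A → (max 0 (EA A f x - EA A f (flp i x))) ^ 2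
        ≤ 16 * r * ∑ u ∈ reads W v i, ω x u i * EA A (m u i) (flp i x) := by
  classical
  choose ω0 h0 hs hg using G
  refine ⟨fun x u i => EA A (fun y => ω0 y u i) x, fun x u i => EA_nonneg A (fun y => h0 y u i) x,
    fun x u => ?_, fun x i hi => ?_⟩
  · rw [← EA_sum A F (fun i y => ω0 y u i) x, ← EA_mul]
    exact EA_mono A (fun y => hs y u) x
  · have h1 : EA A f x - EA A f (flp i x)
        ≤ 4 * ∑ u ∈ reads W v i,
          Real.sqrt (EA A (fun y => ω0 y u i) x * EA A (m u i) (flp i x)) := by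
      calc EA A f x - EA A f (flp i x)
          = EA A (fun y => f y - f (flp i y)) x := by
            rw [EA_flp_not_mem hi, EA_sub]
        _ ≤ EA A (fun y => 4 * ∑ u ∈ reads W v i,
              Real.sqrt (ω0 y u i * m u i (flp i y))) x := by
            apply EA_mono
            intro y
            refine (hg y i).trans (le_of_eq ?_)
            congr 1
            unfold reads
            rw [Finset.sum_filter]
            apply Finset.sum_congr rfl
            intro u _
            split_ifs with hu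
            · rfl
            · rw [S.supp u i _ hu, mul_zero, Real.sqrt_zero]
        _ = 4 * ∑ u ∈ reads W v i, EA A (fun y => Real.sqrt (ω0 y u i * m u i (flp i y))) x := by
            rw [EA_mul, EA_sum A (reads W v i) (fun u y => Real.sqrt (ω0 y u i * m u i (flp i y))) x]
        _ ≤ _ := by
            gcongr with u hu
            rw [EA_flp_not_mem hi]
            exact EA_sqrt_le A _ _ (fun y => h0 y u i) (fun y => S.nonneg u i _) x
    have h2 : max 0 (EA A f x - EA A f (flp i x)) ≤ 4 * ∑ u ∈ reads W v i,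
          Real.sqrt (EA A (fun y => ω0 y u i) x * EA A (m u i) (flp i x)) := by
      apply max_le _ h1
      have : 0 ≤ ∑ u ∈ reads W v i,
          Real.sqrt (EA A (fun y => ω0 y u i) x * EA A (m u i) (flp i x)) :=
        Finset.sum_nonneg fun u _ => Real.sqrt_nonneg _
      linarith
    have h3 : (∑ u ∈ reads W v i,
          Real.sqrt (EA A (fun y => ω0 y u i) x * EA A (m u i) (flp i x))) ^ 2
        ≤ (reads W v i).card * ∑ u ∈ reads W v i,
          (Real.sqrt (EA A (fun y => ω0 y u i) x * EA A (m u i) (flp i x))) ^ 2 :=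
      sq_sum_le_card_mul_sum_sq
    have h4 : ∑ u ∈ reads W v i,
          (Real.sqrt (EA A (fun y => ω0 y u i) x * EA A (m u i) (flp i x))) ^ 2
        = ∑ u ∈ reads W v i, EA A (fun y => ω0 y u i) x * EA A (m u i) (flp i x) := by
      apply Finset.sum_congr rfl
      intro u _
      exact Real.sq_sqrt (mul_nonneg (EA_nonneg A (fun y => h0 y u i) x)
        (EA_nonneg A (fun y => S.nonneg u i y) _))
    have h5 : 0 ≤ ∑ u ∈ reads W v i, EA A (fun y => ω0 y u i) x * EA A (m u i) (flp i x) :=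
      Finset.sum_nonneg fun u _ => mul_nonneg (EA_nonneg A (fun y => h0 y u i) x)
        (EA_nonneg A (fun y => S.nonneg u i y) _)
    have h6 : ((reads W v i).card : ℝ) ≤ r := by exact_mod_cast hr i
    rw [h4] at h3
    calc (max 0 (EA A f x - EA A f (flp i x))) ^ 2
        ≤ (4 * ∑ u ∈ reads W v i,
          Real.sqrt (EA A (fun y => ω0 y u i) x * EA A (m u i) (flp i x))) ^ 2 :=
          pow_le_pow_left₀ (le_max_left _ _) h2 2
      _ = 16 * (∑ u ∈ reads W v i,
          Real.sqrt (EA A (fun y => ω0 y u i) x * EA A (m u i) (flp i x))) ^ 2 := by ring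
      _ ≤ 16 * ((reads W v i).card
          * ∑ u ∈ reads W v i, EA A (fun y => ω0 y u i) x * EA A (m u i) (flp i x)) := by
          gcongr
      _ ≤ 16 * (r
          * ∑ u ∈ reads W v i, EA A (fun y => ω0 y u i) x * EA A (m u i) (flp i x)) := by
          gcongr
      _ = _ := by ring

lemma pow_grad (a b : ℝ) (ha : 0 ≤ a) (hb : 0 ≤ b) (j : ℕ) :
    (max 0 (a ^ (j + 1) - b ^ (j + 1))) ^ 2 ≤ (j + 1) ^ 2 * a ^ (2 * j) * (max 0 (a - b)) ^ 2 := by
  rcases le_total a b with h | h
  · have h1 : a ^ (j + 1) ≤ b ^ (j + 1) := pow_le_pow_left₀ ha h _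
    rw [max_eq_left (by linarith)]
    have h0 : (0 : ℝ) ^ 2 = 0 := by norm_num
    rw [h0]
    positivity
  · have h1 : b ^ (j + 1) ≤ a ^ (j + 1) := pow_le_pow_left₀ hb h _
    rw [max_eq_right (by linarith), max_eq_right (by linarith)]
    have h2 := pow_diff_le a b hb h j
    calc (a ^ (j + 1) - b ^ (j + 1)) ^ 2 ≤ ((j + 1) * a ^ j * (a - b)) ^ 2 :=
          pow_le_pow_left₀ (by linarith) h2 2
      _ = _ := by ring

/-- The chain of averaged sets (reverse order of last reads). -/
def chain (W : ℕ → Finset (Fin N)) (v : ℕ) (A : Finset (Fin N)) : ℕ → Finset (Fin N)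
  | 0 => A
  | (l + 1) => A ∪ Finset.univ.filter (fun j => ∀ u < v, j ∈ W u → u < l)

lemma chain_sub (W : ℕ → Finset (Fin N)) (v : ℕ) (A : Finset (Fin N)) (l : ℕ) :
    chain W v A l ⊆ chain W v A (l + 1) := by
  cases l with
  | zero =>
    show A ⊆ A ∪ _
    exact Finset.subset_union_left
  | succ l =>
    show A ∪ _ ⊆ A ∪ _
    apply Finset.union_subset_union (le_refl _)
    intro j hj
    rw [Finset.mem_filter] at *
    exact ⟨hj.1, fun u hu hju => (hj.2 u hu hju).trans (Nat.lt_succ_self l)⟩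

lemma chain_base (W : ℕ → Finset (Fin N)) (v : ℕ) (A : Finset (Fin N)) (l : ℕ) :
    A ⊆ chain W v A l := by
  cases l with
  | zero => exact le_refl _
  | succ l =>
    show A ⊆ A ∪ _
    exact Finset.subset_union_left

lemma chain_top (W : ℕ → Finset (Fin N)) (v : ℕ) (A : Finset (Fin N)) :
    chain W v A (v + 1) = Finset.univ := by
  apply Finset.eq_univ_of_forall
  intro j
  show j ∈ A ∪ _
  rw [Finset.mem_union, Finset.mem_filter]
  exact Or.inr ⟨Finset.mem_univ _, fun u hu _ => hu⟩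

/-- The block revealed at stage `l`. -/
def blk (W : ℕ → Finset (Fin N)) (v : ℕ) (A : Finset (Fin N)) (l : ℕ) : Finset (Fin N) :=
  chain W v A (l + 1) \ chain W v A l

lemma blk_reads {W : ℕ → Finset (Fin N)} {v : ℕ} {A : Finset (Fin N)} {l : ℕ} {i : Fin N}
    (hi : i ∈ blk W v A l) : reads W v i ⊆ Finset.range l := by
  unfold blk at hi
  rw [Finset.mem_sdiff] at hi
  have h1 : i ∈ A ∪ Finset.univ.filter (fun j => ∀ u < v, j ∈ W u → u < l) := hi.1
  rw [Finset.mem_union, Finset.mem_filter] at h1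
  rcases h1 with h1 | h1
  · exact absurd (chain_base W v A l h1) hi.2
  · intro u hu
    unfold reads at hu
    rw [Finset.mem_filter, Finset.mem_range] at hu
    exact Finset.mem_range.2 (h1.2 u hu.1 hu.2)

lemma blk_not_mem {W : ℕ → Finset (Fin N)} {v : ℕ} {A : Finset (Fin N)} {l : ℕ} {i : Fin N}
    (hi : i ∈ blk W v A l) : i ∉ chain W v A l := by
  unfold blk at hi
  rw [Finset.mem_sdiff] at hi
  exact hi.2

lemma chain_depth {W : ℕ → Finset (Fin N)} {v : ℕ} {A : Finset (Fin N)} {l u d : ℕ}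
    (hu : u < l) (hd : ∀ j, j ∉ A → (reads W v j).card ≤ d + 1) :
    ∀ j, j ∉ chain W v A l → (reads W u j).card ≤ d := by
  intro j hj
  obtain ⟨l', rfl⟩ : ∃ l', l = l' + 1 := ⟨l - 1, by omega⟩
  have h1 : j ∉ A ∪ Finset.univ.filter (fun j => ∀ u < v, j ∈ W u → u < l') := hj
  rw [Finset.mem_union, Finset.mem_filter] at h1
  push Not at h1
  obtain ⟨hA, h2⟩ := h1
  obtain ⟨u', hu', hju', hlu⟩ := h2 (Finset.mem_univ _)
  have h3 : insert u' (reads W u j) ⊆ reads W v j := by
    intro w hw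
    rw [Finset.mem_insert] at hw
    unfold reads at *
    rcases hw with rfl | hw
    · rw [Finset.mem_filter, Finset.mem_range]
      exact ⟨hu', hju'⟩
    · rw [Finset.mem_filter, Finset.mem_range] at *
      exact ⟨by omega, hw.2⟩
  have h4 : u' ∉ reads W u j := by
    unfold reads
    rw [Finset.mem_filter, Finset.mem_range]
    intro h
    omega
  have h5 := Finset.card_le_card h3
  rw [Finset.card_insert_of_notMem h4] at h5
  have := hd j hA
  omega

lemma EA_chain_succ (W : ℕ → Finset (Fin N)) (v : ℕ) (A : Finset (Fin N)) (l : ℕ)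
    (f : (Fin N → Bool) → ℝ) (x : Fin N → Bool) :
    EA (blk W v A l) (EA (chain W v A l) f) x = EA (chain W v A (l + 1)) f x := by
  rw [EA_EA]
  congr 1
  unfold blk
  rw [Finset.union_sdiff_of_subset (chain_sub W v A l)]

lemma EA_chain_base (W : ℕ → Finset (Fin N)) (v : ℕ) (A : Finset (Fin N)) (l : ℕ)
    (f : (Fin N → Bool) → ℝ) (x : Fin N → Bool) :
    EA (chain W v A l) (EA A f) x = EA (chain W v A l) f x := by
  rw [EA_EA, Finset.union_eq_right.2 (chain_base W v A l)]

/-- Chain inequality for moments. -/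
lemma chain_moment (W : ℕ → Finset (Fin N)) (v : ℕ) (A : Finset (Fin N))
    (f : (Fin N → Bool) → ℝ) (hf : ∀ x, 0 ≤ f x) (j : ℕ) :
    EE (fun x => (EA A f x) ^ (2 * j + 2)) ≤ (EE f) ^ (2 * j + 2)
      + (2 * j + 3) / 2 * ∑ l ∈ Finset.range (v + 1), ∑ i ∈ blk W v A l,
          EE (fun x => (max 0 ((EA (chain W v A l) f x) ^ (j + 1)
            - (EA (chain W v A l) f (flp i x)) ^ (j + 1))) ^ 2) := by
  have h : ∀ n, EE (fun x => (EA A f x) ^ (2 * j + 2))
      ≤ EE (fun x => (EA (chain W v A n) f x) ^ (2 * j + 2))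
      + (2 * j + 3) / 2 * ∑ l ∈ Finset.range n, ∑ i ∈ blk W v A l,
          EE (fun x => (max 0 ((EA (chain W v A l) f x) ^ (j + 1)
            - (EA (chain W v A l) f (flp i x)) ^ (j + 1))) ^ 2) := by
    intro n
    induction n with
    | zero => simp [chain]
    | succ n ih =>
      have h1 := step_moment (blk W v A n) (EA (chain W v A n) f)
        (fun y => EA_nonneg _ hf y) j
      have h2 : EE (fun y => (EA (blk W v A n) (EA (chain W v A n) f) y) ^ (2 * j + 2))
          = EE (fun y => (EA (chain W v A (n + 1)) f y) ^ (2 * j + 2)) := by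
        apply EE_congr; intro y; rw [EA_chain_succ]
      rw [h2] at h1
      rw [Finset.sum_range_succ, mul_add]
      linarith
  have h1 := h (v + 1)
  have h2 : EE (fun x => (EA (chain W v A (v + 1)) f x) ^ (2 * j + 2)) = (EE f) ^ (2 * j + 2) := by
    rw [← EE_const (N := N) ((EE f) ^ (2 * j + 2))]
    apply EE_congr; intro x
    rw [chain_top, EA_univ]
  rw [h2] at h1
  exact h1

end Pool.Agent.H572R2
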