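import Pool.Agent.H572R2.ReadsVar

set_option autoImplicit false

namespace Pool.Agent.H572R2

open Finset

variable {N : ℕ}

/-- Global hypotheses on the query magnitudes. -/
structure GR (W : ℕ → Finset (Fin N)) (q : ℝ) (m : ℕ → Fin N → (Fin N → Bool) → ℝ) : Prop where
  nonneg : ∀ t k x, 0 ≤ m t k x
  le_one : ∀ t k x, m t k x ≤ 1
  sum_le : ∀ t x, ∑ k, m t k x ≤ q
  supp : ∀ t k x, k ∉ W t → m t k x = 0
  grad : ∀ v k, Grd Finset.univ q m v (m v k)

variable {W : ℕ → Finset (Fin N)} {q : ℝ} {m : ℕ → Fin N → (Fin N → Bool) → ℝ}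

lemma Grd.mix (hm : ∀ t k x, 0 ≤ m t k x) {v : ℕ} {f : (Fin N → Bool) → ℝ}
    (G : Grd Finset.univ q m v f) (S : Finset (Fin N)) (a : Fin N → Bool) :
    Grd (Sᶜ) q (fun t k x => m t k (mix S a x)) v (fun x => f (mix S a x)) := by
  intro x
  obtain ⟨ω, h1, h2, h3⟩ := G (H572R2.mix S a x)
  refine ⟨ω, h1, fun u => ?_, fun i => ?_⟩
  · exact (Finset.sum_le_sum_of_subset_of_nonneg (Finset.subset_univ _)
      fun i _ _ => h1 u i).trans (h2 u)
  · show f (H572R2.mix S a x) - f (H572R2.mix S a (flp i x))
      ≤ 4 * ∑ u ∈ Finset.range v, Real.sqrt (ω u i * m u i (H572R2.mix S a (flp i x)))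
    by_cases hi : i ∈ S
    · rw [mix_flp_mem hi, sub_self]
      have : 0 ≤ ∑ u ∈ Finset.range v, Real.sqrt (ω u i * m u i (H572R2.mix S a x)) :=
        Finset.sum_nonneg fun u _ => Real.sqrt_nonneg _
      linarith
    · rw [mix_flp_not_mem hi]
      exact h3 i

lemma GR.rsys (G : GR W q m) (S : Finset (Fin N)) (a : Fin N → Bool) :
    RSys (Sᶜ) W q (fun t k x => m t k (mix S a x)) where
  nonneg := fun t k x => G.nonneg t k _
  le_one := fun t k x => G.le_one t k _
  sum_le := fun t x => (Finset.sum_le_sum_of_subset_of_nonneg (Finset.subset_univ _)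
    fun k _ _ => G.nonneg t k _).trans (G.sum_le t _)
  supp := fun t k x hk => G.supp t k _ hk
  inv := by
    intro t k i hi x
    have : i ∈ S := by simpa using hi
    rw [mix_flp_mem this]
  grad := fun v k => Grd.mix G.nonneg (G.grad v k) S a

/-- Variance at a light node. -/
lemma light_var (G : GR W q m) (hq : 1 ≤ q) (T : ℕ) (hT : 1 ≤ T) (r : ℕ) (hr1 : 1 ≤ r)
    (hr : ∀ i, (reads W T i).card ≤ r) (b : ℝ) (hb : 0 < b) (hb1 : b ≤ 1)
    (p : (Fin N → Bool) → ℝ) (hp0 : ∀ x, 0 ≤ p x) (hp1 : ∀ x, p x ≤ 1)
    (Gp : Grd Finset.univ q m T p) (S : Finset (Fin N)) (a : Fin N → Bool)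
    (hl : ∀ t < T, ∀ k ∈ Sᶜ, Ex S a (m t k) ≤ b ^ 2) :
    Ex S a (fun x => (p x) ^ 2) - (Ex S a p) ^ 2
      ≤ 144 * r * T ^ 2 * q ^ 2 * (320 * r ^ 4 * T ^ 2 * q) ^ r * b := by
  set K : ℝ := 320 * r ^ 4 * T ^ 2 * q with hK
  have hr1' : (1 : ℝ) ≤ r := by exact_mod_cast hr1
  have hT1 : (1 : ℝ) ≤ T := by exact_mod_cast hT
  have hq0 : 0 < q := by linarith
  have hK1 : 1 ≤ K := by
    have e1 : (1 : ℝ) ≤ (r : ℝ) ^ 4 := one_le_pow₀ hr1'
    have e2 : (1 : ℝ) ≤ (T : ℝ) ^ 2 := one_le_pow₀ hT1
    calc (1 : ℝ) ≤ 320 * 1 * 1 * 1 := by norm_num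
      _ ≤ _ := by rw [hK]; gcongr
  have hb2 : b ^ 2 ≤ 1 := pow_le_one₀ hb.le hb1
  have hKi : ∀ i : ℕ, i + 1 ≤ 2 * r →
      2 * (T : ℝ) ^ 2 * q * (8 * r * (i + 1) ^ 2 * (2 * i + 3)) ≤ K := by
    intro i hi
    have h1 : ((i : ℝ) + 1) ≤ 2 * r := by exact_mod_cast hi
    have h2 : (2 * (i : ℝ) + 3) ≤ 5 * r := by linarith
    have h3 : (0 : ℝ) ≤ i := Nat.cast_nonneg i
    calc 2 * (T : ℝ) ^ 2 * q * (8 * r * (i + 1) ^ 2 * (2 * i + 3))
        ≤ 2 * (T : ℝ) ^ 2 * q * (8 * r * (2 * r) ^ 2 * (5 * r)) := by gcongr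
      _ = K := by rw [hK]; ring
  have hB := SS_bound (G.rsys S a) hq T hT r hr1 hr (b ^ 2) (by positivity) hb2 hl (2 * r) K hK1 hKi
  set θ : ℝ := 3 * q * K ^ r * b with hθ
  have hθ0 : 0 < θ := by positivity
  have hR : ∀ l ≤ T, ∀ u < l, SS (Sᶜ) (fun t k x => m t k (mix S a x)) (4 * r + 1)
      (chain W T ∅ l) u ≤ θ ^ (4 * r + 1) := by
    intro l hl' u hu
    obtain ⟨d, hd⟩ : ∃ d, r = d + 1 := ⟨r - 1, by omega⟩
    have hdep : ∀ j, j ∉ chain W T ∅ l → (reads W u j).card ≤ d :=
      chain_depth hu (fun j _ => by rw [← hd]; exact hr j)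
    have h1 := hB d (chain W T ∅ l) u (by omega) hdep (2 * r) (by omega) le_rfl
    have h2 : 2 * (2 * r) + 1 = 4 * r + 1 := by ring
    rw [h2] at h1
    refine h1.trans ?_
    have h3 : (3 * q * K ^ (2 * (2 * r))) ^ d ≤ (3 * q) ^ (4 * r) * K ^ (r * (4 * r + 1)) := by
      rw [mul_pow, ← pow_mul]
      have h3q : 1 ≤ 3 * q := by linarith
      have e1 : (3 * q) ^ d ≤ (3 * q) ^ (4 * r) := pow_le_pow_right₀ h3q (by omega)
      have e2 : K ^ (2 * (2 * r) * d) ≤ K ^ (r * (4 * r + 1)) := by
        apply pow_le_pow_right₀ hK1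
        nlinarith
      gcongr
    have h4 : (b ^ 2) ^ (2 * (2 * r - d)) ≤ b ^ (4 * r + 1) := by
      rw [← pow_mul]
      apply pow_le_pow_of_le_one hb.le hb1
      omega
    have h5 : q ≤ 3 * q := by linarith
    calc (3 * q * K ^ (2 * (2 * r))) ^ d * (q * (b ^ 2) ^ (2 * (2 * r - d)))
        ≤ ((3 * q) ^ (4 * r) * K ^ (r * (4 * r + 1))) * ((3 * q) * b ^ (4 * r + 1)) := by gcongr
      _ = θ ^ (4 * r + 1) := by
        rw [hθ, mul_pow (3 * q * K ^ r) b, mul_pow (3 * q) (K ^ r), ← pow_mul K r, pow_succ (3 * q)]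
        ring
  have h := var_reads (G.rsys S a) hq T hT r hr1 hr (4 * r) θ hθ0 hR
    (fun x => p (mix S a x)) (fun x => hp0 _) (fun x => hp1 _)
    (by
      intro i hi x
      have : i ∈ S := by simpa using hi
      rw [mix_flp_mem this]) (Grd.mix G.nonneg Gp S a)
  refine h.trans (le_of_eq ?_)
  rw [hθ]; ring

lemma AA_split' (hm : ∀ t k x, 0 ≤ m t k x) (r : ℕ)
    {S : Finset (Fin N)} {i : Fin N} (hi : i ∉ S) (a : Fin N → Bool) {t : ℕ} (ht : t < r)
    {τ : ℝ} (hτ : τ ≤ Ex S a (m t i)) :
    (AA m r (insert i S) (Function.update a i true)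
      + AA m r (insert i S) (Function.update a i false)) / 2 ≤ AA m r S a - τ := by
  classical
  have hc : (insert i S)ᶜ = (Sᶜ).erase i := by
    ext k; simp
  have h1 : (AA m r (insert i S) (Function.update a i true)
      + AA m r (insert i S) (Function.update a i false)) / 2
      = ∑ t ∈ Finset.range r, ∑ k ∈ (Sᶜ).erase i, Ex S a (m t k) := by
    unfold AA
    rw [hc, ← Finset.sum_add_distrib, Finset.sum_div]
    apply Finset.sum_congr rfl; intro t _
    rw [← Finset.sum_add_distrib, Finset.sum_div]
    apply Finset.sum_congr rfl; intro k _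
    rw [Ex_split hi a (m t k)]
  have h2 : AA m r S a = ∑ t ∈ Finset.range r, ∑ k ∈ (Sᶜ).erase i, Ex S a (m t k)
      + ∑ t ∈ Finset.range r, Ex S a (m t i) := by
    unfold AA
    rw [← Finset.sum_add_distrib]
    apply Finset.sum_congr rfl; intro t _
    rw [Finset.sum_erase_add]
    simpa using hi
  have h3 : Ex S a (m t i) ≤ ∑ t ∈ Finset.range r, Ex S a (m t i) :=
    Finset.single_le_sum (f := fun t => Ex S a (m t i))
      (fun t _ => EE_nonneg fun x => hm t i _) (Finset.mem_range.2 ht)
  rw [h1, h2]
  linarith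

lemma AA_nonneg (hm : ∀ t k x, 0 ≤ m t k x) (r : ℕ) (S : Finset (Fin N)) (a : Fin N → Bool) :
    0 ≤ AA m r S a := Finset.sum_nonneg fun t _ => Finset.sum_nonneg fun k _ =>
      EE_nonneg fun x => hm t k _

/-- Existence of a good node. -/
lemma leaf' (hm : ∀ t k x, 0 ≤ m t k x) (r : ℕ)
    (p : (Fin N → Bool) → ℝ) (e β l τ : ℝ) (hl : 0 ≤ l) (hτ : 0 < τ)
    (hlight : ∀ (S : Finset (Fin N)) (a : Fin N → Bool),
      (∀ t < r, ∀ k ∈ Sᶜ, Ex S a (m t k) ≤ τ) →
      Ex S a (fun x => (p x) ^ 2) - (Ex S a p) ^ 2 ≤ β) :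
    ∀ (n : ℕ) (S : Finset (Fin N)) (a : Fin N → Bool), (Sᶜ).card = n →
      ∃ (S' : Finset (Fin N)) (a' : Fin N → Bool),
        Ex S a (fun x => (p x - e) ^ 2) - β - (l / τ) * AA m r S a
          ≤ (Ex S' a' p - e) ^ 2 - l * ((S'.card : ℝ) - S.card) := by
  classical
  have hsq : ∀ (S : Finset (Fin N)) (a : Fin N → Bool), Ex S a (fun x => (p x - e) ^ 2)
        = Ex S a (fun x => (p x) ^ 2) - 2 * e * Ex S a p + e ^ 2 := by
    intro S a
    unfold Ex
    rw [← EE_mul, ← EE_sub, ← EE_const (N := N) (e ^ 2), ← EE_add]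
    apply EE_congr; intro x
    show (p (mix S a x) - e) ^ 2 = (p (mix S a x)) ^ 2 - 2 * e * p (mix S a x) + e ^ 2
    ring
  have hdone : ∀ (S : Finset (Fin N)) (a : Fin N → Bool),
      (∀ t < r, ∀ k ∈ Sᶜ, Ex S a (m t k) ≤ τ) →
      Ex S a (fun x => (p x - e) ^ 2) - β - (l / τ) * AA m r S a
          ≤ (Ex S a p - e) ^ 2 - l * ((S.card : ℝ) - S.card) := by
    intro S a h
    have h1 := hlight S a h
    have h3 : 0 ≤ (l / τ) * AA m r S a := mul_nonneg (div_nonneg hl hτ.le) (AA_nonneg hm r S a)
    rw [hsq]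
    nlinarith
  intro n
  induction n with
  | zero =>
    intro S a hS
    have hS' : Sᶜ = ∅ := Finset.card_eq_zero.1 hS
    exact ⟨S, a, hdone S a (by intro t _ k hk; rw [hS'] at hk; simp at hk)⟩
  | succ n ih =>
    intro S a hS
    by_cases hlt : ∀ t < r, ∀ k ∈ Sᶜ, Ex S a (m t k) ≤ τ
    · exact ⟨S, a, hdone S a hlt⟩
    · push Not at hlt
      obtain ⟨t, ht, i, hi, hti⟩ := hlt
      have hi' : i ∉ S := by simpa using hi
      have hc : ((insert i S)ᶜ).card = n := by
        have : (insert i S)ᶜ = (Sᶜ).erase i := by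
          ext k; simp
        rw [this, Finset.card_erase_of_mem hi, hS]; rfl
      obtain ⟨S1, a1, h1⟩ := ih (insert i S) (Function.update a i true) hc
      obtain ⟨S0, a0, h0⟩ := ih (insert i S) (Function.update a i false) hc
      have hA := AA_split' hm r hi' a ht hti.le
      have hE := Ex_split hi' a (fun x => (p x - e) ^ 2)
      have hcard : ((insert i S).card : ℝ) = S.card + 1 := by
        rw [Finset.card_insert_of_notMem hi']; push_cast; ring
      rw [hcard] at h1 h0
      have hA' : (l / τ) * ((AA m r (insert i S) (Function.update a i true)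
          + AA m r (insert i S) (Function.update a i false)) / 2)
          ≤ (l / τ) * AA m r S a - l := by
        have := mul_le_mul_of_nonneg_left hA (div_nonneg hl hτ.le)
        refine this.trans (le_of_eq ?_)
        field_simp
      rcases le_total (Ex (insert i S) (Function.update a i true) (fun x => (p x - e) ^ 2)
          - (l / τ) * AA m r (insert i S) (Function.update a i true))
        (Ex (insert i S) (Function.update a i false) (fun x => (p x - e) ^ 2)
          - (l / τ) * AA m r (insert i S) (Function.update a i false)) with h | h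
      · refine ⟨S0, a0, ?_⟩
        rw [hE]
        linarith
      · refine ⟨S1, a1, ?_⟩
        rw [hE]
        linarith

lemma EA_eq_Ex (A : Finset (Fin N)) (f : (Fin N → Bool) → ℝ) (x : Fin N → Bool) :
    EA A f x = Ex (Aᶜ) x f := by
  unfold EA Ex
  apply EE_congr; intro z
  congr 1
  funext i
  unfold mix
  by_cases hi : i ∈ A
  · simp [hi]
  · simp [hi]

lemma EA_insert {S : Finset (Fin N)} {i : Fin N} (hi : i ∉ S) (f : (Fin N → Bool) → ℝ)
    (x : Fin N → Bool) : EA (insert i S) f x = (EA S f x + EA S f (flp i x)) / 2 := by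
  classical
  have hni : i ∉ (insert i S)ᶜ := by simp
  have hins : insert i (insert i S)ᶜ = Sᶜ := by
    ext k
    simp only [Finset.mem_insert, Finset.mem_compl, not_or]
    constructor
    · rintro (rfl | h)
      · exact hi
      · exact h.2
    · intro h
      by_cases hk : k = i
      · exact Or.inl hk
      · exact Or.inr ⟨hk, h⟩
  rw [EA_eq_Ex, Ex_split hni x f, hins, ← EA_eq_Ex, ← EA_eq_Ex]
  have h1 : EA S f (Function.update x i true) + EA S f (Function.update x i false)
      = EA S f x + EA S f (flp i x) := by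
    unfold flp
    cases hy : x i
    · have : Function.update x i false = x := by rw [← hy]; exact Function.update_eq_self i x
      rw [this]; simp [add_comm]
    · have : Function.update x i true = x := by rw [← hy]; exact Function.update_eq_self i x
      rw [this]; simp
  rw [h1]

lemma EE_ite (i : Fin N) (H1 H0 : (Fin N → Bool) → ℝ) (h1 : ∀ x, H1 (flp i x) = H1 x)
    (h0 : ∀ x, H0 (flp i x) = H0 x) :
    EE (fun x => if x i then H1 x else H0 x) = (EE H1 + EE H0) / 2 := by
  have e1 : EE (fun x => if x i then H1 x else H0 x)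
      = EE (fun x => if x i then H0 x else H1 x) := by
    rw [← EE_flp i (fun x => if x i then H1 x else H0 x)]
    apply EE_congr; intro x
    rw [flp_same, h1, h0]
    cases x i <;> simp
  have e2 : EE (fun x => if x i then H1 x else H0 x) + EE (fun x => if x i then H0 x else H1 x)
      = EE H1 + EE H0 := by
    rw [← EE_add, ← EE_add]
    apply EE_congr; intro x
    cases x i <;> simp [add_comm]
  linarith

lemma EE_abs_le (f : (Fin N → Bool) → ℝ) : |EE f| ≤ EE (fun x => |f x|) := by
  rw [abs_le]
  constructor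
  · have := EE_mono (f := fun x => -|f x|) (g := f) (fun x => neg_abs_le _)
    have h2 : EE (fun x => -|f x|) = - EE (fun x => |f x|) := by
      have := EE_mul (-1) (fun x : Fin N → Bool => |f x|)
      simp only [neg_mul, one_mul] at this
      exact this
    linarith
  · exact EE_mono fun x => le_abs_self _

lemma EA_abs_le (A : Finset (Fin N)) (f : (Fin N → Bool) → ℝ) (x : Fin N → Bool) :
    |EA A f x| ≤ EA A (fun y => |f y|) x := EE_abs_le _

/-- The OSSS-type induction: an adaptive approximation of `p` correlates with `p` only through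
coordinates of large average effect. -/
lemma tree (hm : ∀ t k x, 0 ≤ m t k x) (r : ℕ)
    (p : (Fin N → Bool) → ℝ) (hp0 : ∀ x, 0 ≤ p x) (hp1 : ∀ x, p x ≤ 1) (β τ lam : ℝ)
    (hτ : 0 < τ) (hlam : 0 ≤ lam)
    (hinf : ∀ i, EE (fun x => |p x - p (flp i x)|) ≤ 2 * lam)
    (hlight : ∀ (S : Finset (Fin N)) (a : Fin N → Bool),
      (∀ t < r, ∀ k ∈ Sᶜ, Ex S a (m t k) ≤ τ) →
      Ex S a (fun x => (p x) ^ 2) - (Ex S a p) ^ 2 ≤ β) :
    ∀ (n : ℕ) (S : Finset (Fin N)) (a : Fin N → Bool), (Sᶜ).card = n →
      ∃ g : (Fin N → Bool) → ℝ, (∀ x, 0 ≤ g x) ∧ (∀ x, g x ≤ 1) ∧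
        (∀ i ∈ S, ∀ x, g (flp i x) = g x) ∧
        EE (fun x => (p (mix S a x) - g x) ^ 2) ≤ β ∧
        |EE (fun x => EA S p x * g x) - EE p * EE g| ≤ lam / τ * AA m r S a := by
  classical
  have hdone : ∀ (S : Finset (Fin N)) (a : Fin N → Bool),
      (∀ t < r, ∀ k ∈ Sᶜ, Ex S a (m t k) ≤ τ) →
      ∃ g : (Fin N → Bool) → ℝ, (∀ x, 0 ≤ g x) ∧ (∀ x, g x ≤ 1) ∧
        (∀ i ∈ S, ∀ x, g (flp i x) = g x) ∧
        EE (fun x => (p (mix S a x) - g x) ^ 2) ≤ β ∧
        |EE (fun x => EA S p x * g x) - EE p * EE g| ≤ lam / τ * AA m r S a := by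
    intro S a h
    have h1 := hlight S a h
    refine ⟨fun _ => Ex S a p, fun _ => EE_nonneg fun x => hp0 _,
      fun _ => (EE_mono fun x => hp1 _).trans (le_of_eq (EE_const 1)), fun _ _ _ => rfl, ?_, ?_⟩
    · have h2 : EE (fun x => (p (mix S a x) - Ex S a p) ^ 2)
          = Ex S a (fun x => (p x) ^ 2) - 2 * Ex S a p * Ex S a p + (Ex S a p) ^ 2 := by
        unfold Ex
        rw [← EE_mul, ← EE_sub, ← EE_const (N := N) ((EE fun x => p (mix S a x)) ^ 2), ← EE_add]
        apply EE_congr; intro x
        show _ = (p (mix S a x)) ^ 2 - _ + _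
        ring
      rw [h2]
      nlinarith
    · have h2 : EE (fun x => EA S p x * Ex S a p) = EE p * Ex S a p := by
        have e1 : EE (fun x => EA S p x * Ex S a p) = EE (fun x => Ex S a p * EA S p x) := by
          apply EE_congr; intro x; ring
        rw [e1, EE_mul, EE_EA]; ring
      rw [h2, EE_const, sub_self, abs_zero]
      exact mul_nonneg (div_nonneg hlam hτ.le) (AA_nonneg hm r S a)
  intro n
  induction n with
  | zero =>
    intro S a hS
    have hS' : Sᶜ = ∅ := Finset.card_eq_zero.1 hS
    exact hdone S a (by intro t _ k hk; rw [hS'] at hk; simp at hk)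
  | succ n ih =>
    intro S a hS
    by_cases hlt : ∀ t < r, ∀ k ∈ Sᶜ, Ex S a (m t k) ≤ τ
    · exact hdone S a hlt
    · push Not at hlt
      obtain ⟨t, ht, i, hi, hti⟩ := hlt
      have hi' : i ∉ S := by simpa using hi
      have hc : ((insert i S)ᶜ).card = n := by
        have : (insert i S)ᶜ = (Sᶜ).erase i := by
          ext k; simp
        rw [this, Finset.card_erase_of_mem hi, hS]; rfl
      obtain ⟨g1, g10, g11, g1inv, g1β, g1c⟩ := ih (insert i S) (Function.update a i true) hc
      obtain ⟨g0, g00, g01, g0inv, g0β, g0c⟩ := ih (insert i S) (Function.update a i false) hc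
      have hA := AA_split' hm r hi' a ht hti.le
      have hiins : i ∈ insert i S := Finset.mem_insert_self i S
      refine ⟨fun x => if x i then g1 x else g0 x, fun x => ?_, fun x => ?_, ?_, ?_, ?_⟩
      · show 0 ≤ if x i then g1 x else g0 x
        split_ifs
        · exact g10 x
        · exact g00 x
      · show (if x i then g1 x else g0 x) ≤ 1
        split_ifs
        · exact g11 x
        · exact g01 x
      · intro j hj x
        have hji : i ≠ j := by rintro rfl; exact hi' hj
        show (if flp j x i then g1 (flp j x) else g0 (flp j x)) = if x i then g1 x else g0 x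
        rw [flp_ne hji, g1inv j (Finset.mem_insert_of_mem hj), g0inv j (Finset.mem_insert_of_mem hj)]
      · have hmix : ∀ c (x : Fin N → Bool), x i = c → mix S a x
            = mix (insert i S) (Function.update a i c) x := by
          intro c x hx
          funext k
          by_cases hk : k = i
          · subst hk; simp [mix, hi', hx]
          · simp [mix, hk]
        have e1 : EE (fun x => (p (mix S a x) - (if x i then g1 x else g0 x)) ^ 2)
            = EE (fun x => if x i then (p (mix (insert i S) (Function.update a i true) x) - g1 x) ^ 2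
              else (p (mix (insert i S) (Function.update a i false) x) - g0 x) ^ 2) := by
          apply EE_congr; intro x
          cases hx : x i
          · simp only [Bool.false_eq_true, if_false]
            rw [hmix false x hx]
          · simp only [if_true]
            rw [hmix true x hx]
        rw [e1, EE_ite]
        · linarith
        · intro x
          rw [mix_flp_mem hiins, g1inv i hiins]
        · intro x
          rw [mix_flp_mem hiins, g0inv i hiins]
      · set P := EA (insert i S) p with hP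
        have hPinv : ∀ x, P (flp i x) = P x := fun x => EA_flp_mem hiins p x
        set g : (Fin N → Bool) → ℝ := fun x => if x i then g1 x else g0 x with hg
        have e1 : EE (fun x => EA S p x * g x) = EE (fun x => P x * g x)
            + EE (fun x => (EA S p x - P x) * g x) := by
          rw [← EE_add]; apply EE_congr; intro x; ring
        have e2 : EE (fun x => P x * g x)
            = (EE (fun x => P x * g1 x) + EE (fun x => P x * g0 x)) / 2 := by
          rw [← EE_ite i (fun x => P x * g1 x) (fun x => P x * g0 x)]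
          · apply EE_congr; intro x
            simp only [hg]
            split_ifs <;> rfl
          · intro x
            show P (flp i x) * g1 (flp i x) = P x * g1 x
            rw [hPinv, g1inv i hiins]
          · intro x
            show P (flp i x) * g0 (flp i x) = P x * g0 x
            rw [hPinv, g0inv i hiins]
        have e3 : EE g = (EE g1 + EE g0) / 2 :=
          EE_ite i g1 g0 (g1inv i hiins) (g0inv i hiins)
        have e4 : |EE (fun x => (EA S p x - P x) * g x)| ≤ lam := by
          refine (EE_abs_le _).trans ?_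
          have f1 : ∀ x, |(EA S p x - P x) * g x| ≤ (1 / 2) * EA S (fun y => |p y - p (flp i y)|) x := by
            intro x
            have f2 : EA S p x - P x = (1 / 2) * EA S (fun y => p y - p (flp i y)) x := by
              rw [hP, EA_insert hi', EA_flp_not_mem hi', EA_sub]; ring
            have f3 : |g x| ≤ 1 := by
              rw [abs_of_nonneg]
              · simp only [hg]; split_ifs
                · exact g11 x
                · exact g01 x
              · simp only [hg]; split_ifs
                · exact g10 x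
                · exact g00 x
            rw [abs_mul, f2, abs_mul]
            have f4 := EA_abs_le S (fun y => p y - p (flp i y)) x
            have f5 : |(1 / 2 : ℝ)| = 1 / 2 := by norm_num
            rw [f5]
            calc 1 / 2 * |EA S (fun y => p y - p (flp i y)) x| * |g x|
                ≤ 1 / 2 * EA S (fun y => |p y - p (flp i y)|) x * 1 := by
                  have : 0 ≤ EA S (fun y => |p y - p (flp i y)|) x :=
                    EA_nonneg S (fun y => abs_nonneg _) x
                  gcongr
              _ = _ := by ring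
          refine (EE_mono f1).trans ?_
          rw [EE_mul, EE_EA]
          have := hinf i
          linarith
        rw [e1, e2, e3]
        have e5 : (EE (fun x => P x * g1 x) + EE (fun x => P x * g0 x)) / 2
            + EE (fun x => (EA S p x - P x) * g x) - EE p * ((EE g1 + EE g0) / 2)
            = ((EE (fun x => P x * g1 x) - EE p * EE g1)
              + (EE (fun x => P x * g0 x) - EE p * EE g0)) / 2
              + EE (fun x => (EA S p x - P x) * g x) := by ring
        rw [e5]
        have e6 : |((EE (fun x => P x * g1 x) - EE p * EE g1)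
              + (EE (fun x => P x * g0 x) - EE p * EE g0)) / 2|
            ≤ lam / τ * ((AA m r (insert i S) (Function.update a i true)
              + AA m r (insert i S) (Function.update a i false)) / 2) := by
          rw [abs_div]
          have : |(2 : ℝ)| = 2 := by norm_num
          rw [this]
          have f1 := abs_add_le (EE (fun x => P x * g1 x) - EE p * EE g1)
            (EE (fun x => P x * g0 x) - EE p * EE g0)
          linarith
        have e7 : lam / τ * ((AA m r (insert i S) (Function.update a i true)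
              + AA m r (insert i S) (Function.update a i false)) / 2)
            ≤ lam / τ * AA m r S a - lam := by
          have := mul_le_mul_of_nonneg_left hA (div_nonneg hlam hτ.le)
          refine this.trans (le_of_eq ?_)
          field_simp
        have e8 := abs_add_le (((EE (fun x => P x * g1 x) - EE p * EE g1)
              + (EE (fun x => P x * g0 x) - EE p * EE g0)) / 2)
              (EE (fun x => (EA S p x - P x) * g x))
        linarith

end Pool.Agent.H572R2
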