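import Pool.Agent.H572R2.ReadsLeaf

set_option autoImplicit false

namespace Pool.Agent.H572R2

open Finset

variable {N : ℕ} {W : ℕ → Finset (Fin N)} {q : ℝ} {m : ℕ → Fin N → (Fin N → Bool) → ℝ}

lemma AA_root (hm : ∀ t k x, 0 ≤ m t k x) (hs : ∀ t x, ∑ k, m t k x ≤ q) (T : ℕ)
    (a : Fin N → Bool) : AA m T ∅ a ≤ T * q := by
  unfold AA
  calc ∑ t ∈ Finset.range T, ∑ k ∈ (∅ : Finset (Fin N))ᶜ, Ex ∅ a (m t k)
      ≤ ∑ t ∈ Finset.range T, q := by
        apply Finset.sum_le_sum; intro t _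
        rw [Finset.compl_empty]
        calc ∑ k, Ex ∅ a (m t k) = EE (fun x => ∑ k, m t k x) := by
              rw [EE_sum]
              apply Finset.sum_congr rfl; intro k _
              rw [Ex_empty]
          _ ≤ EE (fun _ => q) := EE_mono fun x => hs t x
          _ = q := EE_const q
    _ = T * q := by rw [Finset.sum_const, Finset.card_range, nsmul_eq_mul]

/-- The common parameters of the two main theorems. -/
lemma light_node (G : GR W q m) (hq : 1 ≤ q) (T : ℕ) (hT : 1 ≤ T) (r : ℕ) (hr1 : 1 ≤ r)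
    (hr : ∀ i, (reads W T i).card ≤ r)
    (p : (Fin N → Bool) → ℝ) (hp0 : ∀ x, 0 ≤ p x) (hp1 : ∀ x, p x ≤ 1)
    (Gp : Grd Finset.univ q m T p) (V : ℝ) (hV0 : 0 < V) (hV1 : V ≤ 1) (D b : ℝ)
    (hD : D = 576 * r * T ^ 2 * q ^ 2 * (320 * r ^ 4 * T ^ 2 * q) ^ r) (hb : b = V / D) :
    0 < D ∧ 0 < b ∧ ∀ (S : Finset (Fin N)) (a : Fin N → Bool),
      (∀ t < T, ∀ k ∈ Sᶜ, Ex S a (m t k) ≤ b ^ 2) →
      Ex S a (fun x => (p x) ^ 2) - (Ex S a p) ^ 2 ≤ V / 4 := by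
  have hr1' : (1 : ℝ) ≤ r := by exact_mod_cast hr1
  have hT1 : (1 : ℝ) ≤ T := by exact_mod_cast hT
  have hq0 : 0 < q := by linarith
  have hK1 : 1 ≤ 320 * (r : ℝ) ^ 4 * T ^ 2 * q := by
    have e1 : (1 : ℝ) ≤ (r : ℝ) ^ 4 := one_le_pow₀ hr1'
    have e2 : (1 : ℝ) ≤ (T : ℝ) ^ 2 := one_le_pow₀ hT1
    calc (1 : ℝ) ≤ 320 * 1 * 1 * 1 := by norm_num
      _ ≤ _ := by gcongr
  have hKr : 1 ≤ (320 * (r : ℝ) ^ 4 * T ^ 2 * q) ^ r := one_le_pow₀ hK1
  have hD1 : 1 ≤ D := by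
    have e2 : (1 : ℝ) ≤ (T : ℝ) ^ 2 := one_le_pow₀ hT1
    have e3 : (1 : ℝ) ≤ q ^ 2 := one_le_pow₀ hq
    calc (1 : ℝ) ≤ 576 * 1 * 1 * 1 * 1 := by norm_num
      _ ≤ D := by rw [hD]; gcongr
  have hD0 : 0 < D := by linarith
  have hb0 : 0 < b := by rw [hb]; positivity
  have hb1 : b ≤ 1 := by rw [hb, div_le_one hD0]; linarith
  refine ⟨hD0, hb0, fun S a h => ?_⟩
  refine (light_var G hq T hT r hr1 hr b hb0 hb1 p hp0 hp1 Gp S a h).trans (le_of_eq ?_)
  rw [hb, hD]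
  field_simp
  ring

lemma var_le_one (p : (Fin N → Bool) → ℝ) (hp0 : ∀ x, 0 ≤ p x) (hp1 : ∀ x, p x ≤ 1) :
    EE (fun x => (p x - EE p) ^ 2) ≤ 1 := by
  calc EE (fun x => (p x - EE p) ^ 2) ≤ EE (fun _ => (1 : ℝ)) := by
        apply EE_mono
        intro x
        have e0 : 0 ≤ EE p := EE_nonneg hp0
        have e1 : EE p ≤ 1 := (EE_mono hp1).trans (le_of_eq (EE_const 1))
        have := hp0 x
        have := hp1 x
        nlinarith
    _ = 1 := EE_const 1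

/-- Bit-fixing theorem, abstract form. -/
theorem abstract_fix (G : GR W q m) (hq : 1 ≤ q) (T : ℕ) (hT : 1 ≤ T) (r : ℕ) (hr1 : 1 ≤ r)
    (hr : ∀ i, (reads W T i).card ≤ r)
    (p : (Fin N → Bool) → ℝ) (hp0 : ∀ x, 0 ≤ p x) (hp1 : ∀ x, p x ≤ 1)
    (Gp : Grd Finset.univ q m T p)
    (V : ℝ) (hV : V = EE (fun x => (p x - EE p) ^ 2)) (hV0 : 0 < V) :
    ∃ (S : Finset (Fin N)) (a : Fin N → Bool),
      (S.card : ℝ) ≤ 1327104 * r ^ 2 * (T * q) ^ 5 * (320 * r ^ 4 * T ^ 2 * q) ^ (2 * r) / V ^ 3 ∧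
      V / 2 ≤ (Ex S a p - EE p) ^ 2 := by
  have hV1 : V ≤ 1 := by rw [hV]; exact var_le_one p hp0 hp1
  obtain ⟨hD0, hb0, hlight⟩ := light_node G hq T hT r hr1 hr p hp0 hp1 Gp V hV0 hV1 _ _ rfl rfl
  set D : ℝ := 576 * r * T ^ 2 * q ^ 2 * (320 * r ^ 4 * T ^ 2 * q) ^ r with hD
  set b : ℝ := V / D with hb
  set τ : ℝ := b ^ 2 with hτ
  have hτ0 : 0 < τ := by positivity
  have hq0 : 0 < q := by linarith
  have hT1 : (1 : ℝ) ≤ T := by exact_mod_cast hT
  have hr1' : (1 : ℝ) ≤ r := by exact_mod_cast hr1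
  set l : ℝ := τ * V / (4 * (T * q)) with hl
  have hTq : 0 < T * q := by positivity
  have hl0 : 0 < l := by positivity
  obtain ⟨S, a, h⟩ := leaf' G.nonneg T p (EE p) (V / 4) l τ hl0.le hτ0 hlight _ ∅
    (fun _ => true) rfl
  rw [Ex_empty, ← hV, Finset.card_empty] at h
  have hA := AA_root G.nonneg G.sum_le T (fun _ : Fin N => true)
  have hlA : (l / τ) * AA m T ∅ (fun _ => true) ≤ V / 4 := by
    calc (l / τ) * AA m T ∅ (fun _ => true) ≤ (l / τ) * (T * q) := by gcongr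
      _ = V / 4 := by rw [hl]; field_simp
  have hdev : V / 2 + l * S.card ≤ (Ex S a p - EE p) ^ 2 := by
    push_cast at h
    linarith
  have hlS : 0 ≤ l * S.card := by positivity
  refine ⟨S, a, ?_, by linarith⟩
  have hdev1 : (Ex S a p - EE p) ^ 2 ≤ 1 := by
    have e0 : 0 ≤ EE p := EE_nonneg hp0
    have e1 : EE p ≤ 1 := (EE_mono hp1).trans (le_of_eq (EE_const 1))
    have e2 : 0 ≤ Ex S a p := EE_nonneg fun x => hp0 _
    have e3 : Ex S a p ≤ 1 := (EE_mono fun x => hp1 _).trans (le_of_eq (EE_const 1))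
    nlinarith
  have hS : l * S.card ≤ 1 := by linarith
  have hfin : 1 / l
      = 1327104 * r ^ 2 * (T * q) ^ 5 * (320 * r ^ 4 * T ^ 2 * q) ^ (2 * r) / V ^ 3 := by
    rw [hl, hτ, hb, hD]
    field_simp
    ring
  rw [← hfin, le_div_iff₀ hl0]
  linarith

/-- Influence theorem, abstract form. -/
theorem abstract_inf (G : GR W q m) (hq : 1 ≤ q) (T : ℕ) (hT : 1 ≤ T) (r : ℕ) (hr1 : 1 ≤ r)
    (hr : ∀ i, (reads W T i).card ≤ r)
    (p : (Fin N → Bool) → ℝ) (hp0 : ∀ x, 0 ≤ p x) (hp1 : ∀ x, p x ≤ 1)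
    (Gp : Grd Finset.univ q m T p)
    (V : ℝ) (hV : V = EE (fun x => (p x - EE p) ^ 2)) (hV0 : 0 < V) :
    ∃ i : Fin N,
      (V ^ 3 / (884736 * r ^ 2 * (T * q) ^ 5 * (320 * r ^ 4 * T ^ 2 * q) ^ (2 * r))) ^ 2
        ≤ EE (fun x => ((p x - p (flp i x)) / 2) ^ 2) := by
  have hV1 : V ≤ 1 := by rw [hV]; exact var_le_one p hp0 hp1
  obtain ⟨hD0, hb0, hlight⟩ := light_node G hq T hT r hr1 hr p hp0 hp1 Gp V hV0 hV1 _ _ rfl rfl
  set D : ℝ := 576 * r * T ^ 2 * q ^ 2 * (320 * r ^ 4 * T ^ 2 * q) ^ r with hD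
  set b : ℝ := V / D with hb
  set τ : ℝ := b ^ 2 with hτ
  have hτ0 : 0 < τ := by positivity
  have hq0 : 0 < q := by linarith
  have hT1 : (1 : ℝ) ≤ T := by exact_mod_cast hT
  have hr1' : (1 : ℝ) ≤ r := by exact_mod_cast hr1
  have hTq : 0 < T * q := by positivity
  set lam0 : ℝ := V ^ 3 / (884736 * r ^ 2 * (T * q) ^ 5 * (320 * r ^ 4 * T ^ 2 * q) ^ (2 * r))
    with hlam0
  have hlam0pos : 0 < lam0 := by positivity
  have hlam0eq : lam0 = 3 * V * τ / (8 * (T * q)) := by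
    rw [hlam0, hτ, hb, hD]
    field_simp
    ring
  by_contra hcon
  push Not at hcon
  -- a uniform bound for the average effects
  have hL1 : ∀ i, EE (fun x => |p x - p (flp i x)|) < 2 * lam0 := by
    intro i
    have h1 := EE_cs (fun x => |(p x - p (flp i x)) / 2|) (fun _ => (1 : ℝ))
    have h2 : EE (fun x => |(p x - p (flp i x)) / 2| ^ 2)
        = EE (fun x => ((p x - p (flp i x)) / 2) ^ 2) := by
      apply EE_congr; intro x; rw [sq_abs]
    have h3 : EE (fun _ : Fin N → Bool => (1 : ℝ) ^ 2) = 1 := by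
      rw [EE_const]; norm_num
    have h4 : EE (fun x => |(p x - p (flp i x)) / 2| * 1)
        = (1 / 2) * EE (fun x => |p x - p (flp i x)|) := by
      rw [← EE_mul]; apply EE_congr; intro x
      rw [abs_div]
      have : |(2 : ℝ)| = 2 := by norm_num
      rw [this]; ring
    rw [h2, h3, h4, mul_one] at h1
    have h5 := h1.trans_lt (hcon i)
    have h6 : 1 / 2 * EE (fun x => |p x - p (flp i x)|) < lam0 := by
      by_contra hc
      push Not at hc
      have : lam0 ^ 2 ≤ (1 / 2 * EE (fun x => |p x - p (flp i x)|)) ^ 2 :=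
        pow_le_pow_left₀ hlam0pos.le hc 2
      linarith
    linarith
  obtain ⟨lam, hlam, hlamlt, hlamb⟩ : ∃ lam : ℝ, 0 ≤ lam ∧ lam < lam0 ∧
      ∀ i, EE (fun x => |p x - p (flp i x)|) ≤ 2 * lam := by
    rcases isEmpty_or_nonempty (Fin N) with he | hne
    · exact ⟨0, le_rfl, hlam0pos, fun i => (he.false i).elim⟩
    · obtain ⟨i0, hi0⟩ := Finite.exists_max (fun i => EE (fun x => |p x - p (flp i x)|))
      refine ⟨EE (fun x => |p x - p (flp i0 x)|) / 2, ?_, ?_, fun i => ?_⟩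
      · exact div_nonneg (EE_nonneg fun x => abs_nonneg _) (by norm_num)
      · have := hL1 i0
        linarith
      · have := hi0 i
        linarith
  obtain ⟨g, _, _, _, hgβ, hgc⟩ := tree G.nonneg T p hp0 hp1 (V / 4) τ lam hτ0 hlam hlamb hlight _ ∅
    (fun _ => true) rfl
  have hA := AA_root G.nonneg G.sum_le T (fun _ : Fin N => true)
  have hEA : ∀ x, EA ∅ p x = p x := by
    intro x
    unfold EA
    simp only [mix_empty]
    exact EE_const _
  simp only [hEA, mix_empty] at hgc hgβ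
  have hcov : EE (fun x => p x * g x) - EE p * EE g ≤ lam / τ * (T * q) := by
    refine (le_abs_self _).trans (hgc.trans ?_)
    gcongr
  have hid : V = EE (fun x => (p x - EE p) * (p x - g x))
      + (EE (fun x => p x * g x) - EE p * EE g) := by
    have h1 : EE (fun x => (p x - EE p) ^ 2)
        = EE (fun x => ((p x - EE p) * (p x - g x) + (p x * g x - EE p * g x))
          - (EE p * p x - EE p * EE p)) := by
      apply EE_congr; intro x; ring
    rw [hV, h1, EE_sub, EE_add, EE_sub, EE_sub, EE_mul, EE_mul, EE_const]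
    ring
  have hyoung : EE (fun x => (p x - EE p) * (p x - g x)) ≤ 1 / 2 * V + 1 / 2 * (V / 4) := by
    have h1 : EE (fun x => (p x - EE p) * (p x - g x))
        ≤ EE (fun x => 1 / 2 * (p x - EE p) ^ 2 + 1 / 2 * (p x - g x) ^ 2) := by
      apply EE_mono; intro x
      nlinarith [sq_nonneg ((p x - EE p) - (p x - g x))]
    rw [EE_add, EE_mul, EE_mul, ← hV] at h1
    linarith
  have h1 : 3 * V / 8 ≤ lam / τ * (T * q) := by linarith
  have h2 : lam / τ * (T * q) < 3 * V / 8 := by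
    calc lam / τ * (T * q) < lam0 / τ * (T * q) := by gcongr
      _ = 3 * V / 8 := by rw [hlam0eq]; field_simp
  linarith

end Pool.Agent.H572R2
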