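import Pool.Agent.H572R2.Reads

set_option autoImplicit false

namespace Pool.Agent.H572R2

open Finset

variable {N : ℕ} {F : Finset (Fin N)} {W : ℕ → Finset (Fin N)} {q : ℝ}
  {m : ℕ → Fin N → (Fin N → Bool) → ℝ}

/-- Total moments of averaged magnitudes. -/
noncomputable def SS (F : Finset (Fin N)) (m : ℕ → Fin N → (Fin N → Bool) → ℝ) (e : ℕ)
    (A : Finset (Fin N)) (v : ℕ) : ℝ := ∑ k ∈ F, EE (fun x => (EA A (m v k) x) ^ e)

lemma SS_nonneg (S : RSys F W q m) (e : ℕ) (A : Finset (Fin N)) (v : ℕ) : 0 ≤ SS F m e A v :=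
  Finset.sum_nonneg fun k _ => EE_nonneg fun x => pow_nonneg (EA_nonneg A (S.nonneg v k) x) _

lemma SS_mono (S : RSys F W q m) (e : ℕ) (A : Finset (Fin N)) (v : ℕ) :
    SS F m (e + 1) A v ≤ SS F m e A v := by
  unfold SS
  apply Finset.sum_le_sum
  intro k _
  apply EE_mono
  intro x
  have h1 : EA A (m v k) x ≤ 1 :=
    (EA_mono A (S.le_one v k) x).trans (le_of_eq (EA_const A 1 x))
  exact pow_le_pow_of_le_one (EA_nonneg A (S.nonneg v k) x) h1 (Nat.le_succ e)

lemma SS_chain_le (S : RSys F W q m) (e : ℕ) (A : Finset (Fin N)) (v l : ℕ) :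
    SS F m e (chain W v A l) v ≤ SS F m e A v := by
  unfold SS
  apply Finset.sum_le_sum
  intro k _
  calc EE (fun x => (EA (chain W v A l) (m v k) x) ^ e)
      = EE (fun x => (EA (chain W v A l) (EA A (m v k)) x) ^ e) := by
        apply EE_congr; intro x; rw [EA_chain_base]
    _ ≤ EE (fun x => EA (chain W v A l) (fun y => (EA A (m v k) y) ^ e) x) :=
        EE_mono fun x => EA_pow_le _ _ (fun y => EA_nonneg A (S.nonneg v k) y) e x
    _ = _ := EE_EA _ _

lemma EA_inv_notF (A : Finset (Fin N)) (f : (Fin N → Bool) → ℝ) (i : Fin N)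
    (hf : ∀ x, f (flp i x) = f x) (x : Fin N → Bool) : EA A f (flp i x) = EA A f x := by
  by_cases hi : i ∈ A
  · exact EA_flp_mem hi f x
  · rw [EA_flp_not_mem hi]
    exact EA_congr A hf x

/-- Chain inequality combined with the gradient bound. -/
lemma chain_grad (S : RSys F W q m) (v : ℕ) (f : (Fin N → Bool) → ℝ) (hf : ∀ x, 0 ≤ f x)
    (G : Grd F q m v f) (finv : ∀ i, i ∉ F → ∀ x, f (flp i x) = f x)
    (A : Finset (Fin N)) (r : ℕ) (hr : ∀ i, (reads W v i).card ≤ r) (j : ℕ) :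
    ∃ ω : ℕ → (Fin N → Bool) → ℕ → Fin N → ℝ, (∀ l x u i, 0 ≤ ω l x u i) ∧
      (∀ l x u, ∑ i ∈ F, ω l x u i ≤ q * EA (chain W v A l) f x) ∧
      EE (fun x => (EA A f x) ^ (2 * j + 2)) ≤ (EE f) ^ (2 * j + 2)
        + ∑ l ∈ Finset.range (v + 1), ∑ u ∈ Finset.range l, EE (fun x => ∑ i ∈ F,
            ω l x u i * ((8 * r * (j + 1) ^ 2 * (2 * j + 3)) * (EA (chain W v A l) f x) ^ (2 * j)
              * EA (chain W v A l) (m u i) (flp i x))) := by
  classical
  have hG := fun l => avg_grad S v f G (chain W v A l) r hr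
  choose ω h0 hs hg using hG
  refine ⟨ω, h0, hs, ?_⟩
  refine (chain_moment W v A f hf j).trans ?_
  rw [Finset.mul_sum]
  gcongr with l hl
  set C := chain W v A l with hC
  set B := blk W v A l with hB
  have hterm0 : ∀ u i x, 0 ≤ ω l x u i * EA C (m u i) (flp i x) := fun u i x =>
    mul_nonneg (h0 l x u i) (EA_nonneg C (fun y => S.nonneg u i y) _)
  have h1 : ∀ i ∈ B ∩ F, EE (fun x => (max 0 ((EA C f x) ^ (j + 1)
            - (EA C f (flp i x)) ^ (j + 1))) ^ 2)
      ≤ EE (fun x => (j + 1) ^ 2 * (EA C f x) ^ (2 * j)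
          * (16 * r * ∑ u ∈ Finset.range l, ω l x u i * EA C (m u i) (flp i x))) := by
    intro i hi
    rw [Finset.mem_inter] at hi
    apply EE_mono
    intro x
    have a0 : 0 ≤ EA C f x := EA_nonneg C hf x
    refine (pow_grad _ _ a0 (EA_nonneg C hf _) j).trans ?_
    have h2 := hg l x i (blk_not_mem hi.1)
    have h3 : ∑ u ∈ reads W v i, ω l x u i * EA C (m u i) (flp i x)
        ≤ ∑ u ∈ Finset.range l, ω l x u i * EA C (m u i) (flp i x) :=
      Finset.sum_le_sum_of_subset_of_nonneg (blk_reads hi.1) fun u _ _ => hterm0 u i x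
    have h4 : (max 0 (EA C f x - EA C f (flp i x))) ^ 2
        ≤ 16 * r * ∑ u ∈ Finset.range l, ω l x u i * EA C (m u i) (flp i x) := by
      refine h2.trans ?_
      gcongr
    gcongr
  have h2 : ∑ i ∈ B, EE (fun x => (max 0 ((EA C f x) ^ (j + 1)
            - (EA C f (flp i x)) ^ (j + 1))) ^ 2)
      = ∑ i ∈ B ∩ F, EE (fun x => (max 0 ((EA C f x) ^ (j + 1)
            - (EA C f (flp i x)) ^ (j + 1))) ^ 2) := by
    symm
    apply Finset.sum_subset Finset.inter_subset_left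
    intro i hi hi'
    have hiF : i ∉ F := fun h => hi' (Finset.mem_inter.2 ⟨hi, h⟩)
    refine (EE_congr (g := fun _ => 0) ?_).trans (EE_const 0)
    intro x
    rw [EA_inv_notF C f i (finv i hiF)]
    simp
  rw [h2]
  calc (2 * (j : ℝ) + 3) / 2 * ∑ i ∈ B ∩ F, EE (fun x => (max 0 ((EA C f x) ^ (j + 1)
            - (EA C f (flp i x)) ^ (j + 1))) ^ 2)
      ≤ (2 * (j : ℝ) + 3) / 2 * ∑ i ∈ B ∩ F, EE (fun x => (j + 1) ^ 2 * (EA C f x) ^ (2 * j)
          * (16 * r * ∑ u ∈ Finset.range l, ω l x u i * EA C (m u i) (flp i x))) := by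
        have := Finset.sum_le_sum h1
        gcongr
    _ ≤ (2 * (j : ℝ) + 3) / 2 * ∑ i ∈ F, EE (fun x => (j + 1) ^ 2 * (EA C f x) ^ (2 * j)
          * (16 * r * ∑ u ∈ Finset.range l, ω l x u i * EA C (m u i) (flp i x))) := by
        have : ∑ i ∈ B ∩ F, EE (fun x => (j + 1) ^ 2 * (EA C f x) ^ (2 * j)
          * (16 * r * ∑ u ∈ Finset.range l, ω l x u i * EA C (m u i) (flp i x)))
          ≤ ∑ i ∈ F, EE (fun x => (j + 1) ^ 2 * (EA C f x) ^ (2 * j)
          * (16 * r * ∑ u ∈ Finset.range l, ω l x u i * EA C (m u i) (flp i x))) := by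
          apply Finset.sum_le_sum_of_subset_of_nonneg Finset.inter_subset_right
          intro i _ _
          apply EE_nonneg
          intro x
          have a0 : 0 ≤ EA C f x := EA_nonneg C hf x
          have a1 : 0 ≤ ∑ u ∈ Finset.range l, ω l x u i * EA C (m u i) (flp i x) :=
            Finset.sum_nonneg fun u _ => hterm0 u i x
          positivity
        gcongr
    _ = _ := by
        rw [← EE_sum, ← EE_mul, ← EE_sum]
        apply EE_congr
        intro x
        rw [Finset.sum_comm, Finset.mul_sum]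
        apply Finset.sum_congr rfl; intro i _
        rw [Finset.mul_sum, Finset.mul_sum, Finset.mul_sum]
        apply Finset.sum_congr rfl; intro u _
        ring

lemma sum_pairs_le (v T : ℕ) (hv : v ≤ T) (hT : 1 ≤ T) (c : ℝ) (hc : 0 ≤ c) :
    ∑ l ∈ Finset.range (v + 1), ∑ _u ∈ Finset.range l, c ≤ (T : ℝ) ^ 2 * c := by
  have h1 : ∑ l ∈ Finset.range (v + 1), ∑ _u ∈ Finset.range l, c
      = (∑ l ∈ Finset.range (v + 1), (l : ℝ)) * c := by
    rw [Finset.sum_mul]
    apply Finset.sum_congr rfl; intro l _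
    rw [Finset.sum_const, Finset.card_range, nsmul_eq_mul]
  have h2 : (∑ l ∈ Finset.range (v + 1), (l : ℝ)) ≤ (T : ℝ) ^ 2 := by
    have h3 : (∑ l ∈ Finset.range (v + 1), l) * 2 = (v + 1) * v := Finset.sum_range_id_mul_two (v + 1)
    have h4 : ((∑ l ∈ Finset.range (v + 1), l : ℕ) : ℝ) * 2 = (v + 1) * v := by exact_mod_cast h3
    push_cast at h4
    have h5 : (v : ℝ) ≤ T := by exact_mod_cast hv
    have h6 : (1 : ℝ) ≤ T := by exact_mod_cast hT
    have h7 : (0 : ℝ) ≤ v := Nat.cast_nonneg v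
    nlinarith
  rw [h1]
  gcongr

/-- The main recursion for the moments of averaged magnitudes. -/
lemma rec_reads (S : RSys F W q m) (hq : 1 ≤ q) (T v : ℕ) (hT : 1 ≤ T) (hv : v ≤ T)
    (A : Finset (Fin N)) (r : ℕ) (hr1 : 1 ≤ r) (hr : ∀ i, (reads W v i).card ≤ r) (j : ℕ)
    (M : ℝ) (hM0 : 0 ≤ M)
    (hM : ∀ l ≤ v, ∀ u < l, SS F m (2 * j + 1) (chain W v A l) u ≤ M) :
    SS F m (2 * j + 2) A v ≤ 2 * ∑ k ∈ F, (EE (m v k)) ^ (2 * j + 2)
      + q * (2 * T ^ 2 * q * (8 * r * (j + 1) ^ 2 * (2 * j + 3))) ^ (2 * j + 1) * M := by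
  classical
  have hq0 : 0 < q := by linarith
  have hT1 : (1 : ℝ) ≤ T := by exact_mod_cast hT
  have hT0 : (0 : ℝ) < T := by linarith
  have hr1' : (1 : ℝ) ≤ r := by exact_mod_cast hr1
  set c : ℝ := 8 * r * (j + 1) ^ 2 * (2 * j + 3) with hc
  have hc0 : 0 < c := by positivity
  set ε : ℝ := 1 / (2 * T ^ 2 * q) with hε
  have hε0 : 0 < ε := by positivity
  set G : ℝ := c * (c / ε) ^ (2 * j) with hG
  have hG0 : 0 ≤ G := by positivity
  have hk := fun k => chain_grad S v (m v k) (S.nonneg v k) (S.grad v k) (S.inv v k) A r hr j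
  choose ω h0 hs hg using hk
  have hsum1 : ∀ l x, ∑ k ∈ F, EA (chain W v A l) (m v k) x ≤ q := by
    intro l x
    rw [← EA_sum]
    exact (EA_mono _ (S.sum_le v) x).trans (le_of_eq (EA_const _ q x))
  have E2 : SS F m (2 * j + 2) A v ≤ ∑ k ∈ F, (EE (m v k)) ^ (2 * j + 2)
      + ∑ l ∈ Finset.range (v + 1), ∑ u ∈ Finset.range l, EE (fun x => ∑ k ∈ F, ∑ i ∈ F,
          ω k l x u i * (c * (EA (chain W v A l) (m v k) x) ^ (2 * j)
              * EA (chain W v A l) (m u i) (flp i x))) := by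
    unfold SS
    calc ∑ k ∈ F, EE (fun x => (EA A (m v k) x) ^ (2 * j + 2))
        ≤ ∑ k ∈ F, ((EE (m v k)) ^ (2 * j + 2)
          + ∑ l ∈ Finset.range (v + 1), ∑ u ∈ Finset.range l, EE (fun x => ∑ i ∈ F,
            ω k l x u i * (c * (EA (chain W v A l) (m v k) x) ^ (2 * j)
              * EA (chain W v A l) (m u i) (flp i x)))) := Finset.sum_le_sum fun k _ => hg k
      _ = _ := by
        rw [Finset.sum_add_distrib, Finset.sum_comm]
        congr 1
        apply Finset.sum_congr rfl; intro l _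
        rw [Finset.sum_comm]
        apply Finset.sum_congr rfl; intro u _
        rw [EE_sum]
  have E3 : ∀ l u x, ∑ k ∈ F, ∑ i ∈ F,
          ω k l x u i * (c * (EA (chain W v A l) (m v k) x) ^ (2 * j)
              * EA (chain W v A l) (m u i) (flp i x))
      ≤ ε * q * ∑ k ∈ F, (EA (chain W v A l) (m v k) x) ^ (2 * j + 2)
        + G * q ^ 2 * ∑ i ∈ F, (EA (chain W v A l) (m u i) (flp i x)) ^ (2 * j + 1) := by
    intro l u x
    set C := chain W v A l with hC
    have g0 : ∀ k y, 0 ≤ EA C (m v k) y := fun k y => EA_nonneg C (S.nonneg v k) y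
    have g1 : ∀ i y, 0 ≤ EA C (m u i) y := fun i y => EA_nonneg C (S.nonneg u i) y
    have hω2 : ∀ i ∈ F, ∑ k ∈ F, ω k l x u i ≤ q ^ 2 := by
      intro i hi
      calc ∑ k ∈ F, ω k l x u i ≤ ∑ k ∈ F, ∑ i ∈ F, ω k l x u i := by
            apply Finset.sum_le_sum; intro k _
            exact Finset.single_le_sum (f := fun i => ω k l x u i) (fun i _ => h0 k l x u i) hi
        _ ≤ ∑ k ∈ F, q * EA C (m v k) x := Finset.sum_le_sum fun k _ => hs k l x u
        _ = q * ∑ k ∈ F, EA C (m v k) x := by rw [Finset.mul_sum]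
        _ ≤ q * q := by gcongr; exact hsum1 l x
        _ = q ^ 2 := by ring
    have P1 : ∑ k ∈ F, ∑ i ∈ F,
          ω k l x u i * (c * (EA C (m v k) x) ^ (2 * j) * EA C (m u i) (flp i x))
        ≤ ∑ k ∈ F, ∑ i ∈ F, ω k l x u i * (ε * (EA C (m v k) x) ^ (2 * j + 1)
            + G * (EA C (m u i) (flp i x)) ^ (2 * j + 1)) := by
      apply Finset.sum_le_sum; intro k _
      apply Finset.sum_le_sum; intro i _
      apply mul_le_mul_of_nonneg_left _ (h0 k l x u i)
      exact young _ _ c ε (g0 k x) (g1 i _) hc0.le hε0 (2 * j)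
    have P2 : ∑ k ∈ F, ∑ i ∈ F, ω k l x u i * (ε * (EA C (m v k) x) ^ (2 * j + 1)
            + G * (EA C (m u i) (flp i x)) ^ (2 * j + 1))
        = ε * ∑ k ∈ F, (EA C (m v k) x) ^ (2 * j + 1) * ∑ i ∈ F, ω k l x u i
          + G * ∑ i ∈ F, (EA C (m u i) (flp i x)) ^ (2 * j + 1) * ∑ k ∈ F, ω k l x u i := by
      have : ∑ k ∈ F, ∑ i ∈ F, ω k l x u i * (ε * (EA C (m v k) x) ^ (2 * j + 1)
            + G * (EA C (m u i) (flp i x)) ^ (2 * j + 1))
          = ∑ k ∈ F, ∑ i ∈ F, ω k l x u i * (ε * (EA C (m v k) x) ^ (2 * j + 1))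
            + ∑ k ∈ F, ∑ i ∈ F, ω k l x u i * (G * (EA C (m u i) (flp i x)) ^ (2 * j + 1)) := by
        rw [← Finset.sum_add_distrib]
        apply Finset.sum_congr rfl; intro k _
        rw [← Finset.sum_add_distrib]
        apply Finset.sum_congr rfl; intro i _
        ring
      rw [this]
      congr 1
      · rw [Finset.mul_sum]
        apply Finset.sum_congr rfl; intro k _
        rw [Finset.mul_sum, Finset.mul_sum]
        apply Finset.sum_congr rfl; intro i _
        ring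
      · rw [Finset.sum_comm, Finset.mul_sum]
        apply Finset.sum_congr rfl; intro i _
        rw [Finset.mul_sum, Finset.mul_sum]
        apply Finset.sum_congr rfl; intro k _
        ring
    have P3 : ∑ k ∈ F, (EA C (m v k) x) ^ (2 * j + 1) * ∑ i ∈ F, ω k l x u i
        ≤ q * ∑ k ∈ F, (EA C (m v k) x) ^ (2 * j + 2) := by
      rw [Finset.mul_sum]
      apply Finset.sum_le_sum; intro k _
      calc (EA C (m v k) x) ^ (2 * j + 1) * ∑ i ∈ F, ω k l x u i
          ≤ (EA C (m v k) x) ^ (2 * j + 1) * (q * EA C (m v k) x) :=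
            mul_le_mul_of_nonneg_left (hs k l x u) (pow_nonneg (g0 k x) _)
        _ = _ := by ring
    have P4 : ∑ i ∈ F, (EA C (m u i) (flp i x)) ^ (2 * j + 1) * ∑ k ∈ F, ω k l x u i
        ≤ q ^ 2 * ∑ i ∈ F, (EA C (m u i) (flp i x)) ^ (2 * j + 1) := by
      rw [Finset.mul_sum]
      apply Finset.sum_le_sum; intro i hi
      rw [mul_comm (q ^ 2)]
      exact mul_le_mul_of_nonneg_left (hω2 i hi) (pow_nonneg (g1 i _) _)
    calc _ ≤ _ := P1
      _ = _ := P2
      _ ≤ ε * (q * ∑ k ∈ F, (EA C (m v k) x) ^ (2 * j + 2))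
          + G * (q ^ 2 * ∑ i ∈ F, (EA C (m u i) (flp i x)) ^ (2 * j + 1)) := by gcongr
      _ = _ := by ring
  set R := SS F m (2 * j + 2) A v with hR
  have hR0 : 0 ≤ R := SS_nonneg S _ _ _
  have E4 : ∀ l ∈ Finset.range (v + 1), ∀ u ∈ Finset.range l,
      EE (fun x => ∑ k ∈ F, ∑ i ∈ F,
          ω k l x u i * (c * (EA (chain W v A l) (m v k) x) ^ (2 * j)
              * EA (chain W v A l) (m u i) (flp i x)))
      ≤ ε * q * R + G * q ^ 2 * M := by
    intro l hl u hu
    rw [Finset.mem_range] at hl hu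
    refine (EE_mono (E3 l u)).trans ?_
    rw [EE_add, EE_mul, EE_mul, EE_sum, EE_sum]
    have h1 : ∑ k ∈ F, EE (fun x => (EA (chain W v A l) (m v k) x) ^ (2 * j + 2)) ≤ R :=
      SS_chain_le S (2 * j + 2) A v l
    have h2 : ∑ i ∈ F, EE (fun x => (EA (chain W v A l) (m u i) (flp i x)) ^ (2 * j + 1))
        = SS F m (2 * j + 1) (chain W v A l) u := by
      unfold SS
      apply Finset.sum_congr rfl; intro i _
      exact EE_flp i (fun x => (EA (chain W v A l) (m u i) x) ^ (2 * j + 1))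
    rw [h2]
    have h3 := hM l (by omega) u hu
    gcongr
  have E5 : R ≤ ∑ k ∈ F, (EE (m v k)) ^ (2 * j + 2) + T ^ 2 * (ε * q * R + G * q ^ 2 * M) := by
    refine E2.trans ?_
    gcongr
    refine (Finset.sum_le_sum fun l hl => Finset.sum_le_sum fun u hu => E4 l hl u hu).trans ?_
    exact sum_pairs_le v T hv hT _ (by positivity)
  have hεq : T ^ 2 * (ε * q) = 1 / 2 := by
    rw [hε]; field_simp
  have hGK : T ^ 2 * (G * q ^ 2) = q * (2 * T ^ 2 * q * c) ^ (2 * j + 1) / 2 := by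
    have h1 : c / ε = 2 * T ^ 2 * q * c := by rw [hε]; field_simp
    rw [hG, h1]
    ring
  have E6 : (T : ℝ) ^ 2 * (ε * q * R + G * q ^ 2 * M)
      = (T ^ 2 * (ε * q)) * R + (T ^ 2 * (G * q ^ 2)) * M := by ring
  rw [E6, hεq, hGK] at E5
  linarith

end Pool.Agent.H572R2
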