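import Pool.Agent.H572R2.ReadsRec

set_option autoImplicit false

namespace Pool.Agent.H572R2

open Finset

variable {N : ℕ} {F : Finset (Fin N)} {W : ℕ → Finset (Fin N)} {q : ℝ}
  {m : ℕ → Fin N → (Fin N → Bool) → ℝ}

/-- If nothing outside `A` has been read, the averaged magnitude is constant. -/
lemma EA_const_of_no_reads (S : RSys F W q m) (v : ℕ) (k : Fin N) (A : Finset (Fin N))
    (hA : ∀ j, j ∉ A → (reads W v j).card ≤ 0) (x : Fin N → Bool) :
    EA A (m v k) x = EE (m v k) := by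
  obtain ⟨ω, h0, hs, hg⟩ := avg_grad S v (m v k) (S.grad v k) A v (by
    intro i
    unfold reads
    exact (Finset.card_filter_le _ _).trans (le_of_eq (Finset.card_range v)))
  have h1 : ∀ i x, EA A (m v k) x ≤ EA A (m v k) (flp i x) := by
    intro i x
    by_cases hi : i ∈ A
    · rw [EA_flp_mem hi]
    · have h2 := hg x i hi
      have h3 : reads W v i = ∅ := Finset.card_eq_zero.1 (Nat.le_zero.1 (hA i hi))
      rw [h3, Finset.sum_empty, mul_zero] at h2
      have h4 : max 0 (EA A (m v k) x - EA A (m v k) (flp i x)) = 0 := by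
        have := sq_nonneg (max 0 (EA A (m v k) x - EA A (m v k) (flp i x)))
        exact pow_eq_zero_iff (two_ne_zero) |>.1 (le_antisymm h2 this)
      have h5 := le_max_right 0 (EA A (m v k) x - EA A (m v k) (flp i x))
      linarith
  have h2 : ∀ i x, EA A (m v k) (flp i x) = EA A (m v k) x := by
    intro i x
    have a := h1 i x
    have b := h1 i (flp i x)
    rw [flp_flp] at b
    linarith
  have h3 : ∀ y, EA A (m v k) y = EA A (m v k) x := fun y => const_of_inv _ h2 y x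
  rw [← EE_EA A (m v k), EE_congr h3, EE_const]

lemma SS_zero (S : RSys F W q m) (hq : 0 ≤ q) (v : ℕ) (A : Finset (Fin N))
    (hA : ∀ j, j ∉ A → (reads W v j).card ≤ 0) (τ : ℝ) (hτ0 : 0 ≤ τ)
    (hl : ∀ k ∈ F, EE (m v k) ≤ τ) (e : ℕ) :
    SS F m (e + 1) A v ≤ q * τ ^ e := by
  unfold SS
  have h1 : ∑ k ∈ F, EE (fun x => (EA A (m v k) x) ^ (e + 1)) = ∑ k ∈ F, (EE (m v k)) ^ (e + 1) := by
    apply Finset.sum_congr rfl; intro k _
    rw [← EE_const (N := N) ((EE (m v k)) ^ (e + 1))]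
    apply EE_congr; intro x
    rw [EA_const_of_no_reads S v k A hA x]
  rw [h1]
  calc ∑ k ∈ F, (EE (m v k)) ^ (e + 1) ≤ ∑ k ∈ F, EE (m v k) * τ ^ e := by
        apply Finset.sum_le_sum; intro k hk
        have a0 : 0 ≤ EE (m v k) := EE_nonneg (S.nonneg v k)
        rw [pow_succ']
        have := pow_le_pow_left₀ a0 (hl k hk) e
        gcongr
    _ = (∑ k ∈ F, EE (m v k)) * τ ^ e := by rw [Finset.sum_mul]
    _ ≤ q * τ ^ e := by
        have : ∑ k ∈ F, EE (m v k) ≤ q := by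
          rw [← EE_sum, ← EE_const (N := N) q]
          exact EE_mono (S.sum_le v)
        gcongr

lemma sum_mean_pow (S : RSys F W q m) (hq : 0 ≤ q) (v : ℕ) (τ : ℝ) (hτ0 : 0 ≤ τ)
    (hl : ∀ k ∈ F, EE (m v k) ≤ τ) (e : ℕ) :
    ∑ k ∈ F, (EE (m v k)) ^ (e + 1) ≤ q * τ ^ e := by
  calc ∑ k ∈ F, (EE (m v k)) ^ (e + 1) ≤ ∑ k ∈ F, EE (m v k) * τ ^ e := by
        apply Finset.sum_le_sum; intro k hk
        have a0 : 0 ≤ EE (m v k) := EE_nonneg (S.nonneg v k)
        rw [pow_succ']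
        have := pow_le_pow_left₀ a0 (hl k hk) e
        gcongr
    _ = (∑ k ∈ F, EE (m v k)) * τ ^ e := by rw [Finset.sum_mul]
    _ ≤ q * τ ^ e := by
        have : ∑ k ∈ F, EE (m v k) ≤ q := by
          rw [← EE_sum, ← EE_const (N := N) q]
          exact EE_mono (S.sum_le v)
        gcongr

/-- All moments are small, by induction on the number of reads. -/
lemma SS_bound (S : RSys F W q m) (hq : 1 ≤ q) (T : ℕ) (hT : 1 ≤ T) (r : ℕ) (hr1 : 1 ≤ r)
    (hr : ∀ i, (reads W T i).card ≤ r) (τ : ℝ) (hτ0 : 0 ≤ τ) (hτ1 : τ ≤ 1)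
    (hl : ∀ v < T, ∀ k ∈ F, EE (m v k) ≤ τ) (J : ℕ) (K : ℝ) (hK1 : 1 ≤ K)
    (hK : ∀ i : ℕ, i + 1 ≤ J →
      2 * (T : ℝ) ^ 2 * q * (8 * r * (i + 1) ^ 2 * (2 * i + 3)) ≤ K) :
    ∀ d : ℕ, ∀ (A : Finset (Fin N)) (v : ℕ), v < T →
      (∀ j, j ∉ A → (reads W v j).card ≤ d) →
      ∀ j, d ≤ j → j ≤ J →
        SS F m (2 * j + 1) A v ≤ (3 * q * K ^ (2 * J)) ^ d * (q * τ ^ (2 * (j - d))) := by
  have hq0 : 0 < q := by linarith
  have hKJ : 1 ≤ K ^ (2 * J) := one_le_pow₀ hK1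
  set D : ℝ := 3 * q * K ^ (2 * J) with hD
  have hD1 : 1 ≤ D := by
    rw [hD]; nlinarith
  intro d
  induction d with
  | zero =>
    intro A v hv hA j _ _
    rw [pow_zero, one_mul, Nat.sub_zero]
    exact SS_zero S hq0.le v A hA τ hτ0 (hl v hv) (2 * j)
  | succ d ih =>
    intro A v hv hA j hdj hjJ
    obtain ⟨i, rfl⟩ : ∃ i, j = i + 1 := ⟨j - 1, by omega⟩
    have hrv : ∀ i, (reads W v i).card ≤ r := by
      intro i
      refine (Finset.card_le_card ?_).trans (hr i)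
      unfold reads
      intro u hu
      rw [Finset.mem_filter, Finset.mem_range] at *
      exact ⟨by omega, hu.2⟩
    set M : ℝ := D ^ d * (q * τ ^ (2 * (i - d))) with hM
    have hM0 : 0 ≤ M := by positivity
    have h1 := rec_reads S hq T v hT hv.le A r hr1 hrv i M hM0 (by
      intro l hlv u hu
      exact ih (chain W v A l) u (by omega) (chain_depth hu hA) i (by omega) (by omega))
    have h2 : SS F m (2 * (i + 1) + 1) A v ≤ SS F m (2 * i + 2) A v :=
      SS_mono S (2 * i + 2) A v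
    have h3 := sum_mean_pow S hq0.le v τ hτ0 (hl v hv) (2 * i + 1)
    have h4 := hK i hjJ
    have h5 : (2 * (T : ℝ) ^ 2 * q * (8 * r * (i + 1) ^ 2 * (2 * i + 3))) ^ (2 * i + 1)
        ≤ K ^ (2 * J) := by
      calc _ ≤ K ^ (2 * i + 1) := pow_le_pow_left₀ (by positivity) h4 _
        _ ≤ K ^ (2 * J) := pow_le_pow_right₀ hK1 (by omega)
    have he : i + 1 - (d + 1) = i - d := by omega
    rw [he]
    have h6 : τ ^ (2 * i + 1) ≤ τ ^ (2 * (i - d)) := pow_le_pow_of_le_one hτ0 hτ1 (by omega)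
    have h7 : 1 ≤ D ^ d := one_le_pow₀ hD1
    set X : ℝ := q * τ ^ (2 * (i - d)) with hX
    have hX0 : 0 ≤ X := by positivity
    have h8 : q * τ ^ (2 * i + 1) ≤ X := by rw [hX]; gcongr
    have h9 : X ≤ q * K ^ (2 * J) * (D ^ d * X) := by
      have e1 : 1 ≤ q * K ^ (2 * J) := by nlinarith
      have e2 : X ≤ D ^ d * X := by nlinarith
      have e3 : 0 ≤ D ^ d * X := by positivity
      nlinarith
    calc SS F m (2 * (i + 1) + 1) A v
        ≤ 2 * ∑ k ∈ F, (EE (m v k)) ^ (2 * i + 2)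
          + q * (2 * T ^ 2 * q * (8 * r * (i + 1) ^ 2 * (2 * i + 3))) ^ (2 * i + 1) * M :=
          h2.trans h1
      _ ≤ 2 * X + q * K ^ (2 * J) * M := by
          have h3' : ∑ k ∈ F, (EE (m v k)) ^ (2 * i + 2) ≤ X := h3.trans h8
          gcongr
      _ ≤ 2 * (q * K ^ (2 * J) * (D ^ d * X)) + q * K ^ (2 * J) * (D ^ d * X) := by
          rw [hM]; gcongr
      _ = D ^ (d + 1) * X := by rw [hD, pow_succ]; ring

/-- Variance bound for an event at a light node. -/
lemma var_reads (S : RSys F W q m) (hq : 1 ≤ q) (T : ℕ) (hT : 1 ≤ T) (r : ℕ) (hr1 : 1 ≤ r)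
    (hr : ∀ i, (reads W T i).card ≤ r) (n : ℕ) (θ : ℝ) (hθ : 0 < θ)
    (hR : ∀ l ≤ T, ∀ u < l, SS F m (n + 1) (chain W T ∅ l) u ≤ θ ^ (n + 1))
    (p : (Fin N → Bool) → ℝ) (hp0 : ∀ x, 0 ≤ p x) (hp1 : ∀ x, p x ≤ 1)
    (pinv : ∀ i, i ∉ F → ∀ x, p (flp i x) = p x) (G : Grd F q m T p) :
    EE (fun x => (p x) ^ 2) - (EE p) ^ 2 ≤ 48 * r * T ^ 2 * q * θ := by
  classical
  obtain ⟨ω, h0, hs, hg⟩ := chain_grad S T p hp0 G pinv ∅ r hr 0
  have hq0 : 0 < q := by linarith
  have hempty : ∀ x, EA ∅ p x = p x := by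
    intro x
    unfold EA
    simp only [mix_empty]
    exact EE_const _
  have h1 : EE (fun x => (EA ∅ p x) ^ (2 * 0 + 2)) = EE (fun x => (p x) ^ 2) := by
    apply EE_congr; intro x; rw [hempty]
  rw [h1] at hg
  have E : ∀ l ∈ Finset.range (T + 1), ∀ u ∈ Finset.range l, EE (fun x => ∑ i ∈ F,
            ω l x u i * ((8 * r * (((0 : ℕ) : ℝ) + 1) ^ 2 * (2 * ((0 : ℕ) : ℝ) + 3))
              * (EA (chain W T ∅ l) p x) ^ (2 * 0)
              * EA (chain W T ∅ l) (m u i) (flp i x)))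
      ≤ 48 * r * q * θ := by
    intro l hl u hu
    rw [Finset.mem_range] at hl hu
    set C := chain W T ∅ l with hC
    have hωq : ∀ x, ∑ i ∈ F, ω l x u i ≤ q := by
      intro x
      refine (hs l x u).trans ?_
      have : EA C p x ≤ 1 := (EA_mono C hp1 x).trans (le_of_eq (EA_const C 1 x))
      nlinarith
    have hωi : ∀ x, ∀ i ∈ F, ω l x u i ≤ q := fun x i hi =>
      (Finset.single_le_sum (f := fun i => ω l x u i) (fun i _ => h0 l x u i) hi).trans (hωq x)
    have P : ∀ x, ∑ i ∈ F, ω l x u i * ((8 * r * (((0 : ℕ) : ℝ) + 1) ^ 2 * (2 * ((0 : ℕ) : ℝ) + 3))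
              * (EA C p x) ^ (2 * 0) * EA C (m u i) (flp i x))
        ≤ 24 * r * (q * θ) + 24 * r * (q / θ ^ n)
          * ∑ i ∈ F, (EA C (m u i) (flp i x)) ^ (n + 1) := by
      intro x
      have e0 : ∀ i ∈ F, ω l x u i * ((8 * r * (((0 : ℕ) : ℝ) + 1) ^ 2 * (2 * ((0 : ℕ) : ℝ) + 3))
              * (EA C p x) ^ (2 * 0) * EA C (m u i) (flp i x))
          ≤ 24 * r * (ω l x u i * θ) + 24 * r * (q / θ ^ n)
            * (EA C (m u i) (flp i x)) ^ (n + 1) := by
        intro i hi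
        have g0 : 0 ≤ EA C (m u i) (flp i x) := EA_nonneg C (S.nonneg u i) _
        have e2 := le_theta (EA C (m u i) (flp i x)) θ g0 hθ n
        have e4 : 0 ≤ (EA C (m u i) (flp i x)) ^ (n + 1) / θ ^ n := by positivity
        have e5 : ω l x u i * EA C (m u i) (flp i x)
            ≤ ω l x u i * θ + q * ((EA C (m u i) (flp i x)) ^ (n + 1) / θ ^ n) := by
          calc ω l x u i * EA C (m u i) (flp i x)
              ≤ ω l x u i * (θ + (EA C (m u i) (flp i x)) ^ (n + 1) / θ ^ n) :=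
                mul_le_mul_of_nonneg_left e2 (h0 l x u i)
            _ = ω l x u i * θ + ω l x u i * ((EA C (m u i) (flp i x)) ^ (n + 1) / θ ^ n) := by
                ring
            _ ≤ _ := by
                have := hωi x i hi
                gcongr
        have hr0 : (0 : ℝ) ≤ 24 * r := by positivity
        calc _ = 24 * r * (ω l x u i * EA C (m u i) (flp i x)) := by
              push_cast; ring
          _ ≤ 24 * r * (ω l x u i * θ + q * ((EA C (m u i) (flp i x)) ^ (n + 1) / θ ^ n)) :=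
              mul_le_mul_of_nonneg_left e5 hr0
          _ = _ := by ring
      refine (Finset.sum_le_sum e0).trans ?_
      rw [Finset.sum_add_distrib, ← Finset.mul_sum, ← Finset.mul_sum, ← Finset.sum_mul]
      have := hωq x
      gcongr
    refine (EE_mono P).trans ?_
    rw [EE_add, EE_const, EE_mul, EE_sum]
    have e5 : ∑ i ∈ F, EE (fun x => (EA C (m u i) (flp i x)) ^ (n + 1)) = SS F m (n + 1) C u := by
      unfold SS
      apply Finset.sum_congr rfl; intro i _
      exact EE_flp i (fun x => (EA C (m u i) x) ^ (n + 1))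
    rw [e5]
    have e6 := hR l (by omega) u hu
    have e7 : 24 * r * (q / θ ^ n) * SS F m (n + 1) C u ≤ 24 * r * (q * θ) := by
      calc 24 * r * (q / θ ^ n) * SS F m (n + 1) C u
          ≤ 24 * r * (q / θ ^ n) * θ ^ (n + 1) := by gcongr
        _ = 24 * r * (q * θ) := by
          rw [pow_succ]; field_simp
    linarith
  have E5 := (Finset.sum_le_sum fun l hl => Finset.sum_le_sum fun u hu => E l hl u hu).trans
    (sum_pairs_le T T le_rfl hT (48 * r * q * θ) (by positivity))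
  have h2 : (EE p) ^ (2 * 0 + 2) = (EE p) ^ 2 := rfl
  rw [h2] at hg
  linarith

end Pool.Agent.H572R2
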