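import Pool.Agent.H572R2.Light

set_option autoImplicit false

namespace Pool.Agent.H572R2

open Finset

variable {N : ℕ} {F : Finset (Fin N)} {q : ℝ} {m : ℕ → Fin N → (Fin N → Bool) → ℝ} {a : ℝ}

lemma RR_nonneg (e t : ℕ) : 0 ≤ RR F m a e t :=
  Finset.sum_nonneg fun k _ => EE_nonneg fun x => pow_nonneg (exc_nonneg t k x) _

lemma exc_mul_m (t : ℕ) (k : Fin N) (x : Fin N → Bool) (ha : 0 < a) (j : ℕ) :
    (exc m a t k x) ^ (2 * j + 1) * m t k x
      ≤ 2 * (exc m a t k x) ^ (2 * j + 2) + a ^ (2 * j + 1) * exc m a t k x := by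
  set f := exc m a t k x with hf
  have hf0 : 0 ≤ f := exc_nonneg t k x
  have h1 : m t k x ≤ f + a := m_le_exc t k x
  have h2 : f ^ (2 * j + 1) * m t k x ≤ f ^ (2 * j + 1) * (f + a) := by gcongr
  have h3 : f ^ (2 * j + 1) * a ≤ f ^ (2 * j + 2) + a ^ (2 * j + 1) * f := by
    rcases le_total a f with h | h
    · have : f ^ (2 * j + 1) * a ≤ f ^ (2 * j + 1) * f := by gcongr
      have h4 : f ^ (2 * j + 1) * f = f ^ (2 * j + 2) := by ring
      have h5 : 0 ≤ a ^ (2 * j + 1) * f := by positivity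
      linarith
    · have h4 : f ^ (2 * j) ≤ a ^ (2 * j) := pow_le_pow_left₀ hf0 h _
      have h5 : f ^ (2 * j + 1) * a ≤ a ^ (2 * j + 1) * f := by
        calc f ^ (2 * j + 1) * a = f ^ (2 * j) * (f * a) := by ring
          _ ≤ a ^ (2 * j) * (f * a) := by gcongr
          _ = _ := by ring
      have h6 : 0 ≤ f ^ (2 * j + 2) := by positivity
      linarith
  calc _ ≤ f ^ (2 * j + 1) * (f + a) := h2
    _ = f ^ (2 * j + 2) + f ^ (2 * j + 1) * a := by ring
    _ ≤ _ := by linarith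

lemma m_pow_le (S : Sys F q m) (ha : 0 < a) (u : ℕ) (i : Fin N) (x : Fin N → Bool) (n : ℕ) :
    (m u i x) ^ n ≤ 2 ^ n * (a ^ n + (exc m a u i x) ^ n) := by
  calc (m u i x) ^ n ≤ (a + exc m a u i x) ^ n := by
        apply pow_le_pow_left₀ (S.nonneg u i x)
        have := m_le_exc (m := m) (a := a) u i x
        linarith
    _ ≤ _ := add_pow_le_two _ _ ha.le (exc_nonneg u i x) n

/-- The main recursion for the moments. -/
lemma rec_step (S : Sys F q m) (hq : 1 ≤ q) (ha : 0 < a) (t : ℕ) (ht : 1 ≤ t)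
    (hl : ∀ k ∈ F, EE (m t k) ≤ a / 2) (j : ℕ) (M : ℝ)
    (hM : ∀ u < t, RR F m a (2 * j + 1) u ≤ M) :
    RR F m a (2 * j + 2) t
      ≤ q * (128 * (j + 1) ^ 2 * t ^ 2 * q) ^ (2 * j + 1) * (a ^ (2 * j + 1) + M) := by
  classical
  choose ω hω0 hωs hωg using S.grad t
  have hq0 : 0 < q := by linarith
  have ht0 : (0 : ℝ) < t := by exact_mod_cast ht
  have ht1 : (1 : ℝ) ≤ t := by exact_mod_cast ht
  have hM0 : 0 ≤ M := (RR_nonneg _ _).trans (hM 0 (by omega))
  set L : ℝ := 16 * (j + 1) ^ 2 * t with hL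
  have hL0 : 0 < L := by positivity
  set ε : ℝ := 1 / (4 * t * q) with hε
  have hε0 : 0 < ε := by positivity
  set G : ℝ := L * (L / ε) ^ (2 * j) with hG
  have hG0 : 0 ≤ G := by positivity
  have E1 : ∀ k ∈ F, EE (fun x => (exc m a t k x) ^ (2 * j + 2))
      ≤ EE (fun x => ∑ u ∈ Finset.range t, ∑ i ∈ F,
          ω k x u i * (L * (exc m a t k x) ^ (2 * j) * m u i (flp i x))) := by
    intro k hk
    refine (moment_le S ha t k (hl k hk) j).trans ?_
    rw [← EE_sum]
    apply EE_mono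
    intro x
    rw [Finset.sum_comm]
    apply Finset.sum_le_sum
    intro i _
    refine (grad_pow t k i x j _ (hωg k x i)).trans (le_of_eq ?_)
    rw [hL, Finset.mul_sum, Finset.mul_sum]
    apply Finset.sum_congr rfl
    intro u _
    ring
  have E2 : RR F m a (2 * j + 2) t ≤ ∑ u ∈ Finset.range t, EE (fun x => ∑ k ∈ F, ∑ i ∈ F,
          ω k x u i * (L * (exc m a t k x) ^ (2 * j) * m u i (flp i x))) := by
    calc RR F m a (2 * j + 2) t ≤ ∑ k ∈ F, EE (fun x => ∑ u ∈ Finset.range t, ∑ i ∈ F,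
          ω k x u i * (L * (exc m a t k x) ^ (2 * j) * m u i (flp i x))) :=
          Finset.sum_le_sum E1
      _ = _ := by
        rw [← EE_sum, ← EE_sum]
        apply EE_congr
        intro x
        rw [Finset.sum_comm]
  have hsumexc : ∀ x, ∑ k ∈ F, exc m a t k x ≤ q := fun x =>
    (Finset.sum_le_sum fun k _ => exc_le S ha.le t k x).trans (S.sum_le t x)
  have hω2 : ∀ u x, ∑ i ∈ F, ∑ k ∈ F, ω k x u i ≤ q ^ 2 := by
    intro u x
    rw [Finset.sum_comm]
    calc ∑ k ∈ F, ∑ i ∈ F, ω k x u i ≤ ∑ k ∈ F, q * m t k x :=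
          Finset.sum_le_sum fun k _ => hωs k x u
      _ = q * ∑ k ∈ F, m t k x := by rw [Finset.mul_sum]
      _ ≤ q * q := by gcongr; exact S.sum_le t x
      _ = q ^ 2 := by ring
  have hω3 : ∀ u x, ∀ i ∈ F, ∑ k ∈ F, ω k x u i ≤ q ^ 2 := by
    intro u x i hi
    refine le_trans ?_ (hω2 u x)
    exact Finset.single_le_sum (f := fun i => ∑ k ∈ F, ω k x u i)
      (fun i _ => Finset.sum_nonneg fun k _ => hω0 k x u i) hi
  have E3 : ∀ u x, ∑ k ∈ F, ∑ i ∈ F,
        ω k x u i * (L * (exc m a t k x) ^ (2 * j) * m u i (flp i x))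
      ≤ ε * q * (2 * ∑ k ∈ F, (exc m a t k x) ^ (2 * j + 2) + a ^ (2 * j + 1) * q)
        + G * 2 ^ (2 * j + 1) * q ^ 2 * (a ^ (2 * j + 1)
          + ∑ i ∈ F, (exc m a u i (flp i x)) ^ (2 * j + 1)) := by
    intro u x
    have P1 : ∑ k ∈ F, ∑ i ∈ F,
          ω k x u i * (L * (exc m a t k x) ^ (2 * j) * m u i (flp i x))
        ≤ ∑ k ∈ F, ∑ i ∈ F, ω k x u i * (ε * (exc m a t k x) ^ (2 * j + 1)
            + G * (m u i (flp i x)) ^ (2 * j + 1)) := by
      apply Finset.sum_le_sum; intro k _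
      apply Finset.sum_le_sum; intro i _
      apply mul_le_mul_of_nonneg_left _ (hω0 k x u i)
      exact young _ _ L ε (exc_nonneg t k x) (S.nonneg u i _) hL0.le hε0 (2 * j)
    have P2 : ∑ k ∈ F, ∑ i ∈ F, ω k x u i * (ε * (exc m a t k x) ^ (2 * j + 1)
            + G * (m u i (flp i x)) ^ (2 * j + 1))
        = ε * ∑ k ∈ F, (exc m a t k x) ^ (2 * j + 1) * ∑ i ∈ F, ω k x u i
          + G * ∑ i ∈ F, (m u i (flp i x)) ^ (2 * j + 1) * ∑ k ∈ F, ω k x u i := by
      have : ∑ k ∈ F, ∑ i ∈ F, ω k x u i * (ε * (exc m a t k x) ^ (2 * j + 1)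
            + G * (m u i (flp i x)) ^ (2 * j + 1))
          = ∑ k ∈ F, ∑ i ∈ F, ω k x u i * (ε * (exc m a t k x) ^ (2 * j + 1))
            + ∑ k ∈ F, ∑ i ∈ F, ω k x u i * (G * (m u i (flp i x)) ^ (2 * j + 1)) := by
        rw [← Finset.sum_add_distrib]
        apply Finset.sum_congr rfl; intro k _
        rw [← Finset.sum_add_distrib]
        apply Finset.sum_congr rfl; intro i _
        ring
      rw [this]
      congr 1
      · rw [Finset.mul_sum]
        apply Finset.sum_congr rfl; intro k _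
        rw [Finset.mul_sum, Finset.mul_sum]
        apply Finset.sum_congr rfl; intro i _
        ring
      · rw [Finset.sum_comm, Finset.mul_sum]
        apply Finset.sum_congr rfl; intro i _
        rw [Finset.mul_sum, Finset.mul_sum]
        apply Finset.sum_congr rfl; intro k _
        ring
    have P3 : ∑ k ∈ F, (exc m a t k x) ^ (2 * j + 1) * ∑ i ∈ F, ω k x u i
        ≤ q * (2 * ∑ k ∈ F, (exc m a t k x) ^ (2 * j + 2) + a ^ (2 * j + 1) * q) := by
      calc ∑ k ∈ F, (exc m a t k x) ^ (2 * j + 1) * ∑ i ∈ F, ω k x u i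
          ≤ ∑ k ∈ F, (exc m a t k x) ^ (2 * j + 1) * (q * m t k x) := by
            apply Finset.sum_le_sum; intro k _
            exact mul_le_mul_of_nonneg_left (hωs k x u) (pow_nonneg (exc_nonneg t k x) _)
        _ = q * ∑ k ∈ F, (exc m a t k x) ^ (2 * j + 1) * m t k x := by
            rw [Finset.mul_sum]
            apply Finset.sum_congr rfl; intro k _
            ring
        _ ≤ q * ∑ k ∈ F, (2 * (exc m a t k x) ^ (2 * j + 2)
              + a ^ (2 * j + 1) * exc m a t k x) := by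
            apply mul_le_mul_of_nonneg_left _ hq0.le
            apply Finset.sum_le_sum; intro k _
            exact exc_mul_m t k x ha j
        _ = q * (2 * ∑ k ∈ F, (exc m a t k x) ^ (2 * j + 2)
              + a ^ (2 * j + 1) * ∑ k ∈ F, exc m a t k x) := by
            rw [Finset.sum_add_distrib, Finset.mul_sum, Finset.mul_sum]
        _ ≤ _ := by
            have := hsumexc x
            gcongr
    have P4 : ∑ i ∈ F, (m u i (flp i x)) ^ (2 * j + 1) * ∑ k ∈ F, ω k x u i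
        ≤ 2 ^ (2 * j + 1) * q ^ 2 * (a ^ (2 * j + 1)
          + ∑ i ∈ F, (exc m a u i (flp i x)) ^ (2 * j + 1)) := by
      calc ∑ i ∈ F, (m u i (flp i x)) ^ (2 * j + 1) * ∑ k ∈ F, ω k x u i
          ≤ ∑ i ∈ F, (2 ^ (2 * j + 1) * (a ^ (2 * j + 1)
              + (exc m a u i (flp i x)) ^ (2 * j + 1))) * ∑ k ∈ F, ω k x u i := by
            apply Finset.sum_le_sum; intro i _
            exact mul_le_mul_of_nonneg_right (m_pow_le S ha u i _ _)
              (Finset.sum_nonneg fun k _ => hω0 k x u i)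
        _ = 2 ^ (2 * j + 1) * (a ^ (2 * j + 1) * ∑ i ∈ F, ∑ k ∈ F, ω k x u i
              + ∑ i ∈ F, (exc m a u i (flp i x)) ^ (2 * j + 1) * ∑ k ∈ F, ω k x u i) := by
            rw [Finset.mul_sum (a := a ^ (2 * j + 1)), ← Finset.sum_add_distrib, Finset.mul_sum]
            apply Finset.sum_congr rfl; intro i _
            ring
        _ ≤ 2 ^ (2 * j + 1) * (a ^ (2 * j + 1) * q ^ 2
              + ∑ i ∈ F, (exc m a u i (flp i x)) ^ (2 * j + 1) * q ^ 2) := by
            have h1 := hω2 u x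
            have h2 : ∑ i ∈ F, (exc m a u i (flp i x)) ^ (2 * j + 1) * ∑ k ∈ F, ω k x u i
                ≤ ∑ i ∈ F, (exc m a u i (flp i x)) ^ (2 * j + 1) * q ^ 2 := by
              apply Finset.sum_le_sum; intro i hi
              exact mul_le_mul_of_nonneg_left (hω3 u x i hi) (pow_nonneg (exc_nonneg u i _) _)
            gcongr
        _ = _ := by rw [← Finset.sum_mul]; ring
    calc _ ≤ _ := P1
      _ = _ := P2
      _ ≤ ε * (q * (2 * ∑ k ∈ F, (exc m a t k x) ^ (2 * j + 2) + a ^ (2 * j + 1) * q))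
          + G * (2 ^ (2 * j + 1) * q ^ 2 * (a ^ (2 * j + 1)
          + ∑ i ∈ F, (exc m a u i (flp i x)) ^ (2 * j + 1))) := by gcongr
      _ = _ := by ring
  set A : ℝ := a ^ (2 * j + 1) with hA
  have hA0 : 0 < A := by positivity
  set R := RR F m a (2 * j + 2) t with hR
  have hR0 : 0 ≤ R := RR_nonneg _ _
  have E4 : ∀ u ∈ Finset.range t, EE (fun x => ∑ k ∈ F, ∑ i ∈ F,
          ω k x u i * (L * (exc m a t k x) ^ (2 * j) * m u i (flp i x)))
      ≤ ε * q * (2 * R + A * q) + G * 2 ^ (2 * j + 1) * q ^ 2 * (A + M) := by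
    intro u hu
    refine (EE_mono (E3 u)).trans ?_
    have Q1 : EE (fun x => ε * q * (2 * ∑ k ∈ F, (exc m a t k x) ^ (2 * j + 2) + A * q)
        + G * 2 ^ (2 * j + 1) * q ^ 2 * (A
          + ∑ i ∈ F, (exc m a u i (flp i x)) ^ (2 * j + 1)))
        = ε * q * (2 * R + A * q) + G * 2 ^ (2 * j + 1) * q ^ 2 * (A
          + RR F m a (2 * j + 1) u) := by
      rw [EE_add, EE_mul, EE_mul, EE_add, EE_add, EE_mul, EE_const, EE_const, EE_sum, EE_sum]
      have : ∑ i ∈ F, EE (fun x => (exc m a u i (flp i x)) ^ (2 * j + 1))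
          = RR F m a (2 * j + 1) u := by
        unfold RR
        apply Finset.sum_congr rfl; intro i _
        exact EE_flp i (fun x => (exc m a u i x) ^ (2 * j + 1))
      rw [this]
      rfl
    rw [Q1]
    have := hM u (Finset.mem_range.1 hu)
    gcongr
  have E5 : R ≤ t * (ε * q * (2 * R + A * q) + G * 2 ^ (2 * j + 1) * q ^ 2 * (A + M)) := by
    refine E2.trans ((Finset.sum_le_sum E4).trans (le_of_eq ?_))
    rw [Finset.sum_const, Finset.card_range, nsmul_eq_mul]
  have hεq : t * (ε * q) = 1 / 4 := by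
    rw [hε]; field_simp
  set K : ℝ := 128 * (j + 1) ^ 2 * t ^ 2 * q with hK
  have hK1 : 1 ≤ K := by
    have h1 : (1 : ℝ) ≤ (j + 1 : ℝ) ^ 2 := by
      have : (0 : ℝ) ≤ j := Nat.cast_nonneg j
      nlinarith
    have h2 : (1 : ℝ) ≤ (t : ℝ) ^ 2 := by nlinarith
    calc (1 : ℝ) ≤ 128 * 1 * 1 * 1 := by norm_num
      _ ≤ _ := by rw [hK]; gcongr
  have hGK : t * (G * 2 ^ (2 * j + 1) * q ^ 2) = K ^ (2 * j + 1) * q / 4 := by
    have h1 : L / ε = 4 * t * q * L := by rw [hε]; field_simp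
    have h2 : K = 2 * (4 * t * q * L) := by rw [hK, hL]; ring
    rw [hG, h1, h2, mul_pow 2 (4 * t * q * L)]
    ring
  have E6 : t * (ε * q * (2 * R + A * q) + G * 2 ^ (2 * j + 1) * q ^ 2 * (A + M))
      = (t * (ε * q)) * (2 * R + A * q) + (t * (G * 2 ^ (2 * j + 1) * q ^ 2)) * (A + M) := by ring
  rw [E6, hεq, hGK] at E5
  have hKp : 1 ≤ K ^ (2 * j + 1) := one_le_pow₀ hK1
  have E7 : q * A ≤ q * K ^ (2 * j + 1) * (A + M) := by
    have : A ≤ K ^ (2 * j + 1) * (A + M) := by nlinarith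
    calc q * A ≤ q * (K ^ (2 * j + 1) * (A + M)) := by gcongr
      _ = _ := by ring
  nlinarith

end Pool.Agent.H572R2
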