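import Pool.Agent.H572R2.Rec

set_option autoImplicit false

namespace Pool.Agent.H572R2

open Finset

variable {N : ℕ} {F : Finset (Fin N)} {q : ℝ} {m : ℕ → Fin N → (Fin N → Bool) → ℝ} {a : ℝ}

lemma RR_zero (S : Sys F q m) (ha : 0 < a) (hl : ∀ k ∈ F, EE (m 0 k) ≤ a / 2) (e : ℕ) :
    RR F m a (e + 1) 0 = 0 := by
  unfold RR
  apply Finset.sum_eq_zero
  intro k hk
  refine (EE_congr (g := fun _ => 0) ?_).trans (EE_const 0)
  intro x
  have h1 : EE (m 0 k) = m 0 k x :=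
    (EE_congr fun y => S.zero k y x).trans (EE_const _)
  have h2 := hl k hk
  rw [h1] at h2
  unfold exc
  rw [max_eq_left (by linarith)]
  simp

lemma exc_le_one (S : Sys F q m) (ha : 0 < a) (t : ℕ) (k : Fin N) (x : Fin N → Bool) :
    exc m a t k x ≤ 1 := (exc_le S ha.le t k x).trans (S.le_one t k x)

lemma RR_mono (S : Sys F q m) (ha : 0 < a) (e t : ℕ) : RR F m a (e + 1) t ≤ RR F m a e t := by
  unfold RR
  apply Finset.sum_le_sum
  intro k _
  apply EE_mono
  intro x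
  exact pow_le_pow_of_le_one (exc_nonneg t k x) (exc_le_one S ha t k x) (Nat.le_succ e)

/-- All moments are small. -/
lemma RR_bound (S : Sys F q m) (hq : 1 ≤ q) (ha : 0 < a) (ha1 : a ≤ 1) (r J : ℕ)
    (hl : ∀ t < r, ∀ k ∈ F, EE (m t k) ≤ a / 2) (K : ℝ) (hK1 : 1 ≤ K)
    (hK : 128 * (J : ℝ) ^ 2 * (r : ℝ) ^ 2 * q ≤ K) :
    ∀ t < r, ∀ j, t ≤ j → j ≤ J →
      RR F m a (2 * j + 1) t ≤ (2 * q * K ^ (2 * J)) ^ t * a ^ (2 * (j - t) + 1) := by
  intro t
  induction t using Nat.strong_induction_on with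
  | _ t ih =>
    intro htr j htj hjJ
    have hq0 : 0 < q := by linarith
    rcases Nat.eq_zero_or_pos t with h0 | hpos
    · subst h0
      rw [RR_zero S ha (hl 0 htr)]
      positivity
    · obtain ⟨i, rfl⟩ : ∃ i, j = i + 1 := ⟨j - 1, by omega⟩
      set C1 : ℝ := 2 * q * K ^ (2 * J) with hC1
      have hKJ : 1 ≤ K ^ (2 * J) := one_le_pow₀ hK1
      have hC1' : 1 ≤ C1 := by rw [hC1]; nlinarith
      set e : ℕ := 2 * (i + 1 - t) + 1 with he
      have hM : ∀ u < t, RR F m a (2 * i + 1) u ≤ C1 ^ (t - 1) * a ^ e := by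
        intro u hu
        refine (ih u hu (by omega) i (by omega) (by omega)).trans ?_
        have h1 : C1 ^ u ≤ C1 ^ (t - 1) := pow_le_pow_right₀ hC1' (by omega)
        have h2 : a ^ (2 * (i - u) + 1) ≤ a ^ e :=
          pow_le_pow_of_le_one ha.le ha1 (by omega)
        gcongr
      have h1 := rec_step S hq ha t hpos (hl t htr) i _ hM
      have h2 : RR F m a (2 * (i + 1) + 1) t ≤ RR F m a (2 * i + 2) t :=
        RR_mono S ha (2 * i + 2) t
      have h3 : a ^ (2 * i + 1) ≤ a ^ e := pow_le_pow_of_le_one ha.le ha1 (by omega)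
      have h4 : (128 * ((i : ℝ) + 1) ^ 2 * (t : ℝ) ^ 2 * q) ≤ K := by
        refine le_trans ?_ hK
        have hi : ((i : ℝ) + 1) ≤ J := by exact_mod_cast hjJ
        have ht : (t : ℝ) ≤ r := by exact_mod_cast htr.le
        gcongr
      have h5 : (128 * ((i : ℝ) + 1) ^ 2 * (t : ℝ) ^ 2 * q) ^ (2 * i + 1) ≤ K ^ (2 * J) := by
        calc _ ≤ K ^ (2 * i + 1) := pow_le_pow_left₀ (by positivity) h4 _
          _ ≤ K ^ (2 * J) := pow_le_pow_right₀ hK1 (by omega)
      have h6 : 1 ≤ C1 ^ (t - 1) := one_le_pow₀ hC1'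
      have h7 : 0 < a ^ e := by positivity
      calc RR F m a (2 * (i + 1) + 1) t
          ≤ q * (128 * ((i : ℝ) + 1) ^ 2 * (t : ℝ) ^ 2 * q) ^ (2 * i + 1)
            * (a ^ (2 * i + 1) + C1 ^ (t - 1) * a ^ e) := h2.trans h1
        _ ≤ q * K ^ (2 * J) * (C1 ^ (t - 1) * a ^ e + C1 ^ (t - 1) * a ^ e) := by
          have h8 : a ^ (2 * i + 1) ≤ C1 ^ (t - 1) * a ^ e := by
            calc a ^ (2 * i + 1) ≤ 1 * a ^ e := by linarith
              _ ≤ _ := by gcongr
          gcongr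
        _ = C1 * C1 ^ (t - 1) * a ^ e := by rw [hC1]; ring
        _ = C1 ^ t * a ^ e := by
          rw [← pow_succ']
          congr 2
          omega

lemma le_theta (f θ : ℝ) (hf : 0 ≤ f) (hθ : 0 < θ) (n : ℕ) : f ≤ θ + f ^ (n + 1) / θ ^ n := by
  rcases le_total f θ with h | h
  · have : 0 ≤ f ^ (n + 1) / θ ^ n := by positivity
    linarith
  · have h1 : f ≤ f ^ (n + 1) / θ ^ n := by
      rw [le_div_iff₀ (by positivity), pow_succ']
      have := pow_le_pow_left₀ hθ.le h n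
      gcongr
    linarith

/-- Variance bound for the acceptance probability at a light node. -/
lemma var_le (hq : 1 ≤ q) (ha : 0 < a) (r n : ℕ) (θ : ℝ) (hθ : 0 < θ)
    (hR : ∀ u < r, RR F m a (n + 1) u ≤ θ ^ (n + 1))
    (p : (Fin N → Bool) → ℝ) (pinv : ∀ i, i ∉ F → ∀ x, p (flp i x) = p x)
    (pgrad : ∀ x, ∃ ω : ℕ → Fin N → ℝ, (∀ u i, 0 ≤ ω u i) ∧ (∀ u, ∑ i ∈ F, ω u i ≤ q) ∧
      ∀ i, (max 0 (p x - p (flp i x))) ^ 2
        ≤ 16 * r * ∑ u ∈ Finset.range r, ω u i * m u i (flp i x)) :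
    EE (fun x => (p x) ^ 2) - (EE p) ^ 2 ≤ 8 * r ^ 2 * q * (a + 2 * θ) := by
  classical
  choose ω hω0 hωs hωg using pgrad
  have hq0 : 0 < q := by linarith
  have h1 := poincare' p
  have h2 : ∑ i, EE (fun x => (max 0 (p x - p (flp i x))) ^ 2)
      = ∑ i ∈ F, EE (fun x => (max 0 (p x - p (flp i x))) ^ 2) := by
    symm
    apply Finset.sum_subset (Finset.subset_univ F)
    intro i _ hi
    refine (EE_congr (g := fun _ => 0) ?_).trans (EE_const 0)
    intro x
    rw [pinv i hi]; simp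
  rw [h2] at h1
  have h3 : ∑ i ∈ F, EE (fun x => (max 0 (p x - p (flp i x))) ^ 2)
      ≤ 16 * r * ∑ u ∈ Finset.range r, EE (fun x => ∑ i ∈ F, ω x u i * m u i (flp i x)) := by
    rw [← EE_sum, ← EE_sum, ← EE_mul]
    apply EE_mono
    intro x
    calc ∑ i ∈ F, (max 0 (p x - p (flp i x))) ^ 2
        ≤ ∑ i ∈ F, 16 * r * ∑ u ∈ Finset.range r, ω x u i * m u i (flp i x) :=
          Finset.sum_le_sum fun i _ => hωg x i
      _ = _ := by rw [← Finset.mul_sum, Finset.sum_comm]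
  have h4 : ∀ u ∈ Finset.range r, EE (fun x => ∑ i ∈ F, ω x u i * m u i (flp i x))
      ≤ q * (a + 2 * θ) := by
    intro u hu
    have hωq : ∀ x, ∀ i ∈ F, ω x u i ≤ q := fun x i hi =>
      (Finset.single_le_sum (f := fun i => ω x u i) (fun i _ => hω0 x u i) hi).trans (hωs x u)
    have P : ∀ x, ∑ i ∈ F, ω x u i * m u i (flp i x)
        ≤ q * (a + θ) + q / θ ^ n * ∑ i ∈ F, (exc m a u i (flp i x)) ^ (n + 1) := by
      intro x
      calc ∑ i ∈ F, ω x u i * m u i (flp i x)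
          ≤ ∑ i ∈ F, (ω x u i * (a + θ)
              + q / θ ^ n * (exc m a u i (flp i x)) ^ (n + 1)) := by
            apply Finset.sum_le_sum
            intro i hi
            have e1 := m_le_exc (m := m) (a := a) u i (flp i x)
            have e2 := le_theta (exc m a u i (flp i x)) θ (exc_nonneg u i _) hθ n
            have e3 : m u i (flp i x)
                ≤ (a + θ) + (exc m a u i (flp i x)) ^ (n + 1) / θ ^ n := by linarith
            have e4 : 0 ≤ (exc m a u i (flp i x)) ^ (n + 1) / θ ^ n :=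
              div_nonneg (pow_nonneg (exc_nonneg u i _) _) (by positivity)
            calc ω x u i * m u i (flp i x)
                ≤ ω x u i * ((a + θ) + (exc m a u i (flp i x)) ^ (n + 1) / θ ^ n) :=
                  mul_le_mul_of_nonneg_left e3 (hω0 x u i)
              _ = ω x u i * (a + θ)
                  + ω x u i * ((exc m a u i (flp i x)) ^ (n + 1) / θ ^ n) := by ring
              _ ≤ ω x u i * (a + θ) + q * ((exc m a u i (flp i x)) ^ (n + 1) / θ ^ n) := by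
                  have := hωq x i hi
                  gcongr
              _ = _ := by ring
        _ = (∑ i ∈ F, ω x u i) * (a + θ)
              + q / θ ^ n * ∑ i ∈ F, (exc m a u i (flp i x)) ^ (n + 1) := by
            rw [Finset.sum_add_distrib, ← Finset.sum_mul, ← Finset.mul_sum]
        _ ≤ _ := by
            have := hωs x u
            gcongr
    refine (EE_mono P).trans ?_
    rw [EE_add, EE_const, EE_mul, EE_sum]
    have e5 : ∑ i ∈ F, EE (fun x => (exc m a u i (flp i x)) ^ (n + 1)) = RR F m a (n + 1) u := by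
      unfold RR
      apply Finset.sum_congr rfl; intro i _
      exact EE_flp i (fun x => (exc m a u i x) ^ (n + 1))
    rw [e5]
    have e6 := hR u (Finset.mem_range.1 hu)
    have e7 : q / θ ^ n * RR F m a (n + 1) u ≤ q * θ := by
      calc q / θ ^ n * RR F m a (n + 1) u ≤ q / θ ^ n * θ ^ (n + 1) := by gcongr
        _ = q * θ := by
          rw [pow_succ]; field_simp
    linarith
  have h5 : ∑ u ∈ Finset.range r, EE (fun x => ∑ i ∈ F, ω x u i * m u i (flp i x))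
      ≤ r * (q * (a + 2 * θ)) := by
    refine (Finset.sum_le_sum h4).trans (le_of_eq ?_)
    rw [Finset.sum_const, Finset.card_range, nsmul_eq_mul]
  calc EE (fun x => (p x) ^ 2) - (EE p) ^ 2
      ≤ 1 / 2 * ∑ i ∈ F, EE (fun x => (max 0 (p x - p (flp i x))) ^ 2) := h1
    _ ≤ 1 / 2 * (16 * r * (r * (q * (a + 2 * θ)))) := by
      apply mul_le_mul_of_nonneg_left _ (by norm_num)
      refine h3.trans ?_
      gcongr
    _ = _ := by ring

/-- Variance bound with explicit parameters. -/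
lemma var_le' (S : Sys F q m) (hq : 1 ≤ q) (r : ℕ) (hr : 1 ≤ r) (b : ℝ) (hb : 0 < b)
    (hb1 : b ≤ 1)
    (hl : ∀ t < r, ∀ k ∈ F, EE (m t k) ≤ b ^ 2 / 2)
    (p : (Fin N → Bool) → ℝ) (pinv : ∀ i, i ∉ F → ∀ x, p (flp i x) = p x)
    (pgrad : ∀ x, ∃ ω : ℕ → Fin N → ℝ, (∀ u i, 0 ≤ ω u i) ∧ (∀ u, ∑ i ∈ F, ω u i ≤ q) ∧
      ∀ i, (max 0 (p x - p (flp i x))) ^ 2
        ≤ 16 * r * ∑ u ∈ Finset.range r, ω u i * m u i (flp i x)) :
    EE (fun x => (p x) ^ 2) - (EE p) ^ 2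
      ≤ 40 * r ^ 2 * q ^ 2 * (512 * r ^ 4 * q) ^ r * b := by
  set K : ℝ := 512 * r ^ 4 * q with hK
  have hr1 : (1 : ℝ) ≤ r := by exact_mod_cast hr
  have hK1 : 1 ≤ K := by
    have : (1 : ℝ) ≤ (r : ℝ) ^ 4 := one_le_pow₀ hr1
    calc (1 : ℝ) ≤ 512 * 1 * 1 := by norm_num
      _ ≤ _ := by rw [hK]; gcongr
  have hq0 : 0 < q := by linarith
  have hKr : 1 ≤ K ^ r := one_le_pow₀ hK1
  set θ : ℝ := 2 * q * K ^ r * b with hθ
  have hθ0 : 0 < θ := by positivity
  have ha0 : 0 < b ^ 2 := by positivity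
  have ha1 : b ^ 2 ≤ 1 := pow_le_one₀ hb.le hb1
  have hB := RR_bound S hq ha0 ha1 r (2 * r) hl K hK1
    (by push_cast; rw [hK]; exact le_of_eq (by ring))
  have hR : ∀ u < r, RR F m (b ^ 2) (4 * r + 1) u ≤ θ ^ (4 * r + 1) := by
    intro u hu
    have h1 := hB u hu (2 * r) (by omega) le_rfl
    have h2 : 2 * (2 * r) + 1 = 4 * r + 1 := by ring
    rw [h2] at h1
    refine h1.trans ?_
    have h3 : (2 * q * K ^ (2 * (2 * r))) ^ u ≤ (2 * q) ^ (4 * r + 1) * K ^ (r * (4 * r + 1)) := by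
      rw [mul_pow, ← pow_mul]
      have h2q : 1 ≤ 2 * q := by linarith
      have e1 : (2 * q) ^ u ≤ (2 * q) ^ (4 * r + 1) := pow_le_pow_right₀ h2q (by omega)
      have e2 : K ^ (2 * (2 * r) * u) ≤ K ^ (r * (4 * r + 1)) := by
        apply pow_le_pow_right₀ hK1
        nlinarith
      gcongr
    have h4 : (b ^ 2) ^ (2 * (2 * r - u) + 1) ≤ b ^ (4 * r + 1) := by
      rw [← pow_mul]
      apply pow_le_pow_of_le_one hb.le hb1
      omega
    calc (2 * q * K ^ (2 * (2 * r))) ^ u * (b ^ 2) ^ (2 * (2 * r - u) + 1)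
        ≤ ((2 * q) ^ (4 * r + 1) * K ^ (r * (4 * r + 1))) * b ^ (4 * r + 1) := by gcongr
      _ = θ ^ (4 * r + 1) := by
        rw [hθ, mul_pow (2 * q * K ^ r) b, mul_pow (2 * q) (K ^ r), ← pow_mul K r]
  have h := var_le hq ha0 r (4 * r) θ hθ0 hR p pinv pgrad
  refine h.trans ?_
  have h5 : b ^ 2 ≤ q * K ^ r * b := by
    have : b ≤ q * K ^ r := by nlinarith
    nlinarith
  calc 8 * (r : ℝ) ^ 2 * q * (b ^ 2 + 2 * θ)
      ≤ 8 * (r : ℝ) ^ 2 * q * (q * K ^ r * b + 2 * θ) := by gcongr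
    _ = _ := by rw [hθ]; ring

end Pool.Agent.H572R2
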